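import Mathlib

/-!
The numerical step: choice of the gadget parameters.
-/

namespace Pool.Agent.Work.MP_499dc6_lc.H21

theorem size_aux {n k kap m1 m2 : ℝ} (hn : 0 ≤ n) (hkap0 : 0 ≤ kap) (hm1 : 0 ≤ m1) (hm2 : 0 ≤ m2)
    (rk3 : (10 : ℝ) ^ 4 ≤ k) (rkk : 100 * (k * k) ≤ n) (rkap1 : 100 * kap ≤ k)
    (hbig : (10 : ℝ) ^ 10 ≤ n)
    (rm1a : 14000 * k * m1 ≤ 999 * n) (rm2a : 28000 * k * m2 ≤ 999 * n) :
    2 + m1 * (k + 1) + m2 * (2 * k + 1) + (m1 * k + m2 * (2 * k)) * 6 + k * kap ≤ n := by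
  have a1 : m1 * 10 ^ 4 ≤ m1 * k := mul_le_mul_of_nonneg_left rk3 hm1
  have a2 : m2 * 10 ^ 4 ≤ m2 * k := mul_le_mul_of_nonneg_left rk3 hm2
  have a3 : k * (100 * kap) ≤ k * k := mul_le_mul_of_nonneg_left rkap1 (by linarith)
  have b1 : 14000 * k * m1 = 14000 * (m1 * k) := by ring
  have b2 : 28000 * k * m2 = 28000 * (m2 * k) := by ring
  have b3 : k * (100 * kap) = 100 * (k * kap) := by ring
  rw [b1] at rm1a
  rw [b2] at rm2a
  rw [b3] at a3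
  have c : 2 + m1 * (k + 1) + m2 * (2 * k + 1) + (m1 * k + m2 * (2 * k)) * 6 + k * kap =
      2 + 7 * (m1 * k) + m1 + 14 * (m2 * k) + m2 + k * kap := by ring
  rw [c]
  norm_num at a1 a2 hbig
  linarith

theorem exponent_aux {n k m1 m2 L E : ℝ} (hn : 0 ≤ n) (hk0 : 0 ≤ k) (hm1 : 0 ≤ m1) (hm2 : 0 ≤ m2)
    (hkn : 10 ^ 6 * k ≤ n) (hL : 0.99 * k ≤ L) (hE : E = (m1 * m2 * k) * L)
    (rm1b : 999 * n < 14000 * k * (m1 + 1)) (rm2b : 999 * n < 28000 * k * (m2 + 1)) :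
    0.002518 * n ^ 2 ≤ E := by
  have f1 : (0.07134 : ℝ) * n ≤ m1 * k := by
    have e : 14000 * k * (m1 + 1) = 14000 * (m1 * k) + 14000 * k := by ring
    rw [e] at rm1b
    norm_num at hkn
    linarith
  have f2 : (0.03566 : ℝ) * n ≤ m2 * k := by
    have e : 28000 * k * (m2 + 1) = 28000 * (m2 * k) + 28000 * k := by ring
    rw [e] at rm2b
    norm_num at hkn
    linarith
  have g0 : 0 ≤ m1 * m2 * k := mul_nonneg (mul_nonneg hm1 hm2) hk0
  have g1 : (m1 * m2 * k) * (0.99 * k) ≤ E := by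
    rw [hE]; exact mul_le_mul_of_nonneg_left hL g0
  have g2 : (0.07134 * n) * (0.03566 * n) ≤ (m1 * k) * (m2 * k) :=
    mul_le_mul f1 f2 (mul_nonneg (by norm_num) hn) (mul_nonneg hm1 hk0)
  have g3 : (m1 * m2 * k) * (0.99 * k) = 0.99 * ((m1 * k) * (m2 * k)) := by ring
  have g4 : (0.07134 * n) * (0.03566 * n) = 0.07134 * 0.03566 * n ^ 2 := by ring
  rw [g3] at g1
  rw [g4] at g2
  have hn2 : 0 ≤ n ^ 2 := sq_nonneg n
  norm_num at g1 g2 ⊢
  linarith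

theorem final_aux {n E lk ln s : ℝ} (hn : 0 ≤ n) (hln : 600 ≤ ln) (hs : 0 ≤ s)
    (hE : 0.002518 * n ^ 2 ≤ E) (hlk : ln ≤ 2 * (11 * Real.log 2 + lk))
    (hl : E * lk ≤ 3 * s * Real.log 2) : n ^ 2 * ln / 1700 ≤ s := by
  have hlog2 := Real.log_two_lt_d9
  have hlog2' := Real.log_two_gt_d9
  have h12 : 0.487 * ln ≤ lk := by
    norm_num at hlog2 ⊢
    linarith
  have hln0 : 0 ≤ 0.487 * ln := by norm_num; linarith
  have hE0 : 0 ≤ E := le_trans (mul_nonneg (by norm_num) (sq_nonneg n)) hE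
  have h13 : (0.002518 * n ^ 2) * (0.487 * ln) ≤ 3 * s * Real.log 2 :=
    le_trans (mul_le_mul hE h12 hln0 hE0) hl
  have h14 : 3 * s * Real.log 2 ≤ 3 * s * 0.6931471808 :=
    mul_le_mul_of_nonneg_left hlog2.le (by linarith)
  have h15 : (0.002518 * n ^ 2) * (0.487 * ln) = 0.002518 * 0.487 * (n ^ 2 * ln) := by ring
  have h16 : 0 ≤ n ^ 2 * ln := mul_nonneg (sq_nonneg n) (by linarith)
  rw [h15] at h13
  have h17 : 0.002518 * 0.487 * (n ^ 2 * ln) ≤ 3 * s * 0.6931471808 := le_trans h13 h14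
  norm_num at h17
  linarith

theorem numeric : ∃ n0 : ℕ, ∀ n : ℕ, n0 ≤ n → ∃ m1 m2 k kap : ℕ, 3 ≤ kap ∧ kap ≤ k ∧
    2 + m1 * (k + 1) + m2 * (2 * k + 1) + (m1 * k + m2 * (2 * k)) * 6 + k * kap ≤ n ∧
    ∀ s : ℕ, (kap - 1) ^ (m1 * m2 * k * (k - (kap - 1))) ≤ 2 ^ (3 * s) →
      (n : ℝ) ^ 2 * Real.log n / 1700 ≤ s := by
  refine ⟨⌈Real.exp 600⌉₊, fun n hn => ?_⟩
  have hn0 : Real.exp 600 ≤ (n : ℝ) := Nat.ceil_le.mp hn
  have hnpos : (0 : ℝ) < n := lt_of_lt_of_le (Real.exp_pos _) hn0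
  have hlog : (600 : ℝ) ≤ Real.log n := by
    rw [Real.le_log_iff_exp_le hnpos]; exact hn0
  have hbig : (10 : ℝ) ^ 10 ≤ n := by
    refine le_trans ?_ hn0
    have h1 : (2 : ℝ) ≤ Real.exp 1 := by
      have := Real.add_one_le_exp (1 : ℝ); linarith
    have h2 : Real.exp 600 = (Real.exp 1) ^ 600 := by
      rw [← Real.exp_nat_mul]; norm_num
    rw [h2]
    calc (10 : ℝ) ^ 10 ≤ 2 ^ 34 := by norm_num
      _ ≤ 2 ^ 600 := pow_le_pow_right₀ (by norm_num) (by norm_num)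
      _ ≤ (Real.exp 1) ^ 600 := pow_le_pow_left₀ (by norm_num) h1 _
  have hbigN : 10 ^ 10 ≤ n := by exact_mod_cast hbig
  -- the parameter k
  obtain ⟨r, hr⟩ : ∃ r, r = Nat.sqrt n := ⟨_, rfl⟩
  have hr1 : r * r ≤ n := by rw [hr]; exact Nat.sqrt_le n
  have hr2 : n < (r + 1) * (r + 1) := by rw [hr]; exact Nat.lt_succ_sqrt n
  have hr3 : 10 ^ 5 ≤ r := by
    rw [hr, Nat.le_sqrt]; norm_num; exact hbigN
  obtain ⟨k, hk⟩ : ∃ k, k = r / 10 := ⟨_, rfl⟩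
  have hk1 : 10 * k ≤ r := by rw [hk]; exact Nat.mul_div_le r 10
  have hk2 : r < 10 * (k + 1) := by omega
  have hk3 : 10 ^ 4 ≤ k := by omega
  obtain ⟨kap, hkap⟩ : ∃ kap, kap = k / 100 := ⟨_, rfl⟩
  have hkap1 : 100 * kap ≤ k := by rw [hkap]; exact Nat.mul_div_le k 100
  have hkap2 : k < 100 * (kap + 1) := by omega
  have hkap3 : 100 ≤ kap := by omega
  obtain ⟨m1, hm1⟩ : ∃ m1, m1 = (999 * n) / (14000 * k) := ⟨_, rfl⟩
  obtain ⟨m2, hm2⟩ : ∃ m2, m2 = (999 * n) / (28000 * k) := ⟨_, rfl⟩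
  have hm1a : 14000 * k * m1 ≤ 999 * n := by rw [hm1]; exact Nat.mul_div_le _ _
  have hm1b : 999 * n < 14000 * k * (m1 + 1) := by
    have := Nat.lt_mul_div_succ (999 * n) (show 0 < 14000 * k by omega)
    simpa [hm1] using this
  have hm2a : 28000 * k * m2 ≤ 999 * n := by rw [hm2]; exact Nat.mul_div_le _ _
  have hm2b : 999 * n < 28000 * k * (m2 + 1) := by
    have := Nat.lt_mul_div_succ (999 * n) (show 0 < 28000 * k by omega)
    simpa [hm2] using this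
  clear hk hkap hm1 hm2
  -- real versions
  have rk1 : (10 : ℝ) * k ≤ r := by exact_mod_cast hk1
  have rk3 : (10 : ℝ) ^ 4 ≤ k := by exact_mod_cast hk3
  have rk0 : (0 : ℝ) ≤ k := Nat.cast_nonneg _
  have rr1 : (r : ℝ) * r ≤ n := by exact_mod_cast hr1
  have rkk : 100 * ((k : ℝ) * k) ≤ n := by
    have h : (10 * (k : ℝ)) * (10 * k) ≤ r * r :=
      mul_le_mul rk1 rk1 (by positivity) (Nat.cast_nonneg _)
    have h' : (10 * (k : ℝ)) * (10 * k) = 100 * ((k : ℝ) * k) := by ring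
    rw [h'] at h
    exact le_trans h rr1
  have rkap1 : 100 * (kap : ℝ) ≤ k := by exact_mod_cast hkap1
  have rm1a : 14000 * (k : ℝ) * m1 ≤ 999 * n := by exact_mod_cast hm1a
  have rm1b : 999 * (n : ℝ) < 14000 * k * (m1 + 1) := by exact_mod_cast hm1b
  have rm2a : 28000 * (k : ℝ) * m2 ≤ 999 * n := by exact_mod_cast hm2a
  have rm2b : 999 * (n : ℝ) < 28000 * k * (m2 + 1) := by exact_mod_cast hm2b
  have hkn : 10 ^ 6 * (k : ℝ) ≤ n := by
    have h : (10 : ℝ) ^ 4 * k ≤ k * k := mul_le_mul_of_nonneg_right rk3 rk0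
    have h' : (10 : ℝ) ^ 6 * k = 100 * (10 ^ 4 * k) := by ring
    rw [h']; linarith
  refine ⟨m1, m2, k, kap, by omega, by omega, ?_, ?_⟩
  · have goal := size_aux (n := n) (k := k) (kap := kap) (m1 := m1) (m2 := m2) hnpos.le
      (Nat.cast_nonneg _) (Nat.cast_nonneg _) (Nat.cast_nonneg _) rk3 rkk rkap1 hbig rm1a rm2a
    exact_mod_cast goal
  · intro s hs
    -- logarithms
    obtain ⟨E, hE⟩ : ∃ E, E = m1 * m2 * k * (k - (kap - 1)) := ⟨_, rfl⟩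
    rw [← hE] at hs
    have hs' : ((kap - 1 : ℕ) : ℝ) ^ E ≤ 2 ^ (3 * s) := by exact_mod_cast hs
    have hkap0 : (0 : ℝ) < ((kap - 1 : ℕ) : ℝ) := by
      have : 0 < kap - 1 := by omega
      exact_mod_cast this
    have hl : (E : ℝ) * Real.log ((kap - 1 : ℕ) : ℝ) ≤ 3 * s * Real.log 2 := by
      have h := Real.log_le_log (pow_pos hkap0 _) hs'
      rw [Real.log_pow, Real.log_pow] at h
      push_cast at h ⊢
      linarith
    -- lower bound for E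
    have f3 : (0.99 : ℝ) * k ≤ ((k - (kap - 1) : ℕ) : ℝ) := by
      have h1 : 99 * k ≤ 100 * (k - (kap - 1)) := by omega
      have h2 : 99 * (k : ℝ) ≤ 100 * ((k - (kap - 1) : ℕ) : ℝ) := by exact_mod_cast h1
      norm_num
      linarith
    have hEr : (E : ℝ) = (m1 * m2 * k) * ((k - (kap - 1) : ℕ) : ℝ) := by
      rw [hE]; push_cast; ring
    have f4 : (0.002518 : ℝ) * (n : ℝ) ^ 2 ≤ E :=
      exponent_aux hnpos.le rk0 (Nat.cast_nonneg _) (Nat.cast_nonneg _) hkn f3 hEr rm1b rm2b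
    -- lower bound for the logarithm
    have h5 : (n : ℝ) ≤ (2000 * ((kap - 1 : ℕ) : ℝ)) ^ 2 := by
      have h6 : r + 1 ≤ 2000 * (kap - 1) := by omega
      have h7 : (r + 1) * (r + 1) ≤ (2000 * (kap - 1)) * (2000 * (kap - 1)) := Nat.mul_le_mul h6 h6
      have h8 : n ≤ (2000 * (kap - 1)) * (2000 * (kap - 1)) := le_trans hr2.le h7
      have h9 : (n : ℝ) ≤ (2000 * ((kap - 1 : ℕ) : ℝ)) * (2000 * ((kap - 1 : ℕ) : ℝ)) := by
        exact_mod_cast h8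
      rw [sq]; exact h9
    have h10 : Real.log n ≤ 2 * (Real.log 2000 + Real.log ((kap - 1 : ℕ) : ℝ)) := by
      have h := Real.log_le_log hnpos h5
      rw [Real.log_pow, Real.log_mul (by norm_num) hkap0.ne'] at h
      exact_mod_cast h
    have h11 : Real.log 2000 ≤ 11 * Real.log 2 := by
      have : Real.log 2000 ≤ Real.log (2 ^ 11) := Real.log_le_log (by norm_num) (by norm_num)
      rw [Real.log_pow] at this
      exact_mod_cast this
    exact final_aux hnpos.le hlog (Nat.cast_nonneg _) f4 (by linarith) hl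

end Pool.Agent.Work.MP_499dc6_lc.H21
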