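import Mathlib

set_option autoImplicit false
set_option linter.unusedSectionVars false
set_option linter.style.haveILetI false

open Finset MvPolynomial

namespace Pool.Agent.Work.MP_499dc6_lc.Bez

variable {ι : Type*} [Fintype ι] [DecidableEq ι]

/-- exponents of degree at most `d` -/
noncomputable def expo (ι : Type*) [Fintype ι] (d : ℕ) : Finset (ι →₀ ℕ) :=
  (Finsupp.finite_of_degree_le (σ := ι) d).toFinset

lemma mem_expo {d : ℕ} {a : ι →₀ ℕ} : a ∈ expo ι d ↔ a.degree ≤ d := by
  unfold expo
  rw [Set.Finite.mem_toFinset]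
  rfl

lemma support_subset_expo {d : ℕ} {p : MvPolynomial ι ℂ} (hp : p.totalDegree ≤ d) :
    p.support ⊆ expo ι d := by
  intro a ha
  rw [mem_expo]
  exact (le_totalDegree ha).trans hp

/-- a linear combination of point evaluations, on monomials -/
noncomputable def mom (Z : Finset (ι → ℂ)) (c : (ι → ℂ) → ℂ) (a : ι →₀ ℕ) : ℂ :=
  ∑ z ∈ Z, c z * eval z (monomial a 1)

lemma sum_eval_eq {d : ℕ} (Z : Finset (ι → ℂ)) (c : (ι → ℂ) → ℂ) (p : MvPolynomial ι ℂ)
    (hp : p.totalDegree ≤ d) :
    ∑ z ∈ Z, c z * eval z p = ∑ a ∈ expo ι d, p.coeff a * mom Z c a := by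
  have h1 : ∀ z, eval z p = ∑ a ∈ expo ι d, p.coeff a * eval z (monomial a 1) := by
    intro z
    conv_lhs => rw [p.as_sum]
    rw [map_sum]
    have h2 : ∀ a, eval z (monomial a (p.coeff a)) = p.coeff a * eval z (monomial a 1) := by
      intro a
      rw [eval_monomial, eval_monomial]
      ring
    rw [sum_congr rfl fun a _ => h2 a]
    apply sum_subset (support_subset_expo hp)
    intro a _ ha
    rw [notMem_support_iff.mp ha, zero_mul]
  simp only [mom, mul_sum]
  rw [sum_comm]
  refine sum_congr rfl fun z _ => ?_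
  rw [h1 z, mul_sum]
  refine sum_congr rfl fun a _ => ?_
  ring

/-- the correction polynomial attached to an exponent -/
noncomputable def corr (F : ι → MvPolynomial ι ℂ) (a : ι →₀ ℕ) : MvPolynomial ι ℂ :=
  open Classical in
  if h : ∃ i, 2 ≤ a i then monomial (a - Finsupp.single h.choose 2) 1 * F h.choose else 0

lemma corr_degree (F : ι → MvPolynomial ι ℂ) (hF : ∀ i, (F i).totalDegree ≤ 2) {d : ℕ}
    {a : ι →₀ ℕ} (ha : a.degree ≤ d) : (corr F a).totalDegree ≤ d := by
  classical
  unfold corr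
  split_ifs with h
  · refine (totalDegree_mul _ _).trans ?_
    have h1 : (monomial (a - Finsupp.single h.choose 2) (1 : ℂ)).totalDegree ≤
        (a - Finsupp.single h.choose 2).degree := totalDegree_monomial_le _ _
    have h2 : (a - Finsupp.single h.choose 2).degree + 2 = a.degree := by
      have h3 : a - Finsupp.single h.choose 2 + Finsupp.single h.choose 2 = a := by
        apply tsub_add_cancel_of_le
        rw [Finsupp.single_le_iff]
        exact h.choose_spec
      conv_rhs => rw [← h3, map_add]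
      simp
    have h3 := hF h.choose
    omega
  · simp

lemma eval_corr (F : ι → MvPolynomial ι ℂ) (τ : ℂ) (z : ι → ℂ)
    (hz : ∀ i, z i ^ 2 + τ * eval z (F i) = 0) (a : ι →₀ ℕ) (ha : ∃ i, 2 ≤ a i) :
    eval z (monomial a 1) + τ * eval z (corr F a) = 0 := by
  classical
  unfold corr
  rw [dif_pos ha, map_mul]
  have h3 : a - Finsupp.single ha.choose 2 + Finsupp.single ha.choose 2 = a := by
    apply tsub_add_cancel_of_le
    rw [Finsupp.single_le_iff]
    exact ha.choose_spec
  have h4 : eval z (monomial a (1 : ℂ)) =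
      eval z (monomial (a - Finsupp.single ha.choose 2) 1) * z ha.choose ^ 2 := by
    conv_lhs => rw [← h3]
    have h5 : monomial (a - Finsupp.single ha.choose 2 + Finsupp.single ha.choose 2) (1 : ℂ) =
        monomial (a - Finsupp.single ha.choose 2) 1 * monomial (Finsupp.single ha.choose 2) 1 := by
      rw [monomial_mul, one_mul]
    rw [h5, map_mul]
    congr 1
    rw [eval_monomial]
    simp
  rw [h4]
  have := hz ha.choose
  linear_combination (eval z (monomial (a - Finsupp.single ha.choose 2) 1)) * this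

/-- the perturbation matrix -/
noncomputable def nn (F : ι → MvPolynomial ι ℂ) (d : ℕ) : Matrix (expo ι d) (expo ι d) ℂ :=
  fun a b => (corr F a).coeff b

/-- determinant of the perturbed identity -/
noncomputable def dd (F : ι → MvPolynomial ι ℂ) (d : ℕ) : Polynomial ℂ :=
  (1 + (Polynomial.X : Polynomial ℂ) • (nn F d).map Polynomial.C).det

lemma dd_eval (F : ι → MvPolynomial ι ℂ) (d : ℕ) (τ : ℂ) :
    (dd F d).eval τ = (1 + τ • nn F d).det := by
  unfold dd
  rw [← Polynomial.coe_evalRingHom, RingHom.map_det]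
  congr 1
  ext a b
  simp only [RingHom.mapMatrix_apply, Matrix.map_apply, Matrix.add_apply, Matrix.smul_apply,
    smul_eq_mul, Polynomial.coe_evalRingHom, Polynomial.eval_add, Polynomial.eval_mul,
    Polynomial.eval_X, Polynomial.eval_C]
  congr 1
  rw [Matrix.one_apply, Matrix.one_apply]
  split_ifs <;> simp

lemma dd_ne_zero (F : ι → MvPolynomial ι ℂ) (d : ℕ) : dd F d ≠ 0 := by
  intro h
  have h1 := dd_eval F d 0
  rw [h] at h1
  simp at h1

lemma exists_interp (Z : Finset (ι → ℂ)) (z0 : ι → ℂ) :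
    ∃ p : MvPolynomial ι ℂ, p.totalDegree ≤ (Z.erase z0).card ∧ eval z0 p ≠ 0 ∧
      ∀ z ∈ Z.erase z0, eval z p = 0 := by
  classical
  have h : ∀ z ∈ Z.erase z0, ∃ i, z i ≠ z0 i := by
    intro z hz
    by_contra hcon
    push Not at hcon
    exact (mem_erase.mp hz).1 (funext hcon)
  rcases isEmpty_or_nonempty ι with hι | hι
  · refine ⟨1, by simp, by simp, ?_⟩
    intro z hz
    obtain ⟨i, _⟩ := h z hz
    exact (hι.false i).elim
  choose! i hi using h
  refine ⟨∏ z ∈ Z.erase z0, (X (i z) - C (z (i z))), ?_, ?_, ?_⟩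
  · refine (totalDegree_finsetProd _ _).trans ?_
    have : ∀ z ∈ Z.erase z0, (X (i z) - C (z (i z)) : MvPolynomial ι ℂ).totalDegree ≤ 1 := by
      intro z _
      refine (totalDegree_sub _ _).trans ?_
      rw [totalDegree_X, totalDegree_C]
      simp
    refine (sum_le_sum this).trans ?_
    simp
  · rw [map_prod, prod_ne_zero_iff]
    intro z hz
    rw [map_sub, eval_X, eval_C, sub_ne_zero]
    exact (hi z hz).symm
  · intro z hz
    rw [map_prod]
    apply prod_eq_zero hz
    simp

lemma card_le_of_good (F : ι → MvPolynomial ι ℂ) (hF : ∀ i, (F i).totalDegree ≤ 2) (d : ℕ)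
    (τ : ℂ) (hτ : (dd F d).eval τ ≠ 0) (Z : Finset (ι → ℂ)) (hZd : Z.card ≤ d + 1)
    (hZ : ∀ z ∈ Z, ∀ i, z i ^ 2 + τ * eval z (F i) = 0) : Z.card ≤ 2 ^ Fintype.card ι := by
  classical
  by_contra hlt
  push Not at hlt
  -- a relation among the evaluations on squarefree monomials
  let Λ : (Z → ℂ) →ₗ[ℂ] (Finset ι → ℂ) :=
    { toFun := fun c T => ∑ z : Z, c z * ∏ i ∈ T, (z : ι → ℂ) i
      map_add' := by
        intro c c'
        ext T
        simp [add_mul, sum_add_distrib]
      map_smul' := by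
        intro r c
        ext T
        simp [mul_sum, mul_assoc] }
  have hker : LinearMap.ker Λ ≠ ⊥ := by
    apply LinearMap.ker_ne_bot_of_finrank_lt
    simpa using hlt
  obtain ⟨c, hc, hc0⟩ := (Submodule.ne_bot_iff _).mp hker
  have hcT : ∀ T : Finset ι, ∑ z : Z, c z * ∏ i ∈ T, (z : ι → ℂ) i = 0 := by
    intro T
    exact congrFun (LinearMap.mem_ker.mp hc) T
  let c' : (ι → ℂ) → ℂ := fun z => if h : z ∈ Z then c ⟨z, h⟩ else 0
  have hsum : ∀ f : (ι → ℂ) → ℂ, ∑ z ∈ Z, c' z * f z = ∑ z : Z, c z * f z := by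
    intro f
    rw [← sum_coe_sort Z (fun z => c' z * f z)]
    refine sum_congr rfl fun z _ => ?_
    simp [c']
  let u : expo ι d → ℂ := fun a => mom Z c' a
  have hu : (1 + τ • nn F d).mulVec u = 0 := by
    ext a
    rw [Matrix.add_mulVec, Matrix.one_mulVec, Matrix.smul_mulVec, Pi.add_apply, Pi.smul_apply,
      Pi.zero_apply, smul_eq_mul]
    have h1 : (nn F d).mulVec u a = ∑ z ∈ Z, c' z * eval z (corr F a) := by
      rw [sum_eval_eq Z c' _ (corr_degree F hF (mem_expo.mp a.2)), Matrix.mulVec, dotProduct,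
        ← sum_coe_sort (expo ι d) (fun b => (corr F a).coeff b * mom Z c' b)]
      rfl
    rw [h1]
    have h2 : u a = ∑ z ∈ Z, c' z * eval z (monomial (a : ι →₀ ℕ) 1) := rfl
    rw [h2]
    by_cases ha : ∃ i, 2 ≤ (a : ι →₀ ℕ) i
    · rw [mul_sum, ← sum_add_distrib]
      refine sum_eq_zero fun z hz => ?_
      have := eval_corr F τ z (hZ z hz) a ha
      linear_combination c' z * this
    · have h3 : corr F a = 0 := by
        unfold corr
        rw [dif_neg ha]
      rw [h3]
      simp only [map_zero, mul_zero, sum_const_zero, add_zero]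
      push Not at ha
      rw [hsum]
      rw [← hcT (a : ι →₀ ℕ).support]
      refine sum_congr rfl fun z _ => ?_
      congr 1
      rw [eval_monomial, one_mul, Finsupp.prod]
      refine prod_congr rfl fun i hi => ?_
      have h4 : (a : ι →₀ ℕ) i = 1 := by
        have h5 := ha i
        have h6 := Finsupp.mem_support_iff.mp hi
        omega
      rw [h4, pow_one]
  have hu0 : u = 0 := by
    by_contra hne
    apply hτ
    rw [dd_eval]
    exact Matrix.exists_mulVec_eq_zero_iff.mp ⟨u, hne, hu⟩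
  apply hc0
  ext ⟨z0, hz0⟩
  obtain ⟨p, hp, hp0, hpz⟩ := exists_interp Z z0
  have h1 := sum_eval_eq (d := d) Z c' p (by
    rw [card_erase_of_mem hz0] at hp
    omega)
  have h2 : ∑ a ∈ expo ι d, p.coeff a * mom Z c' a = 0 := by
    refine sum_eq_zero fun a ha => ?_
    have := congrFun hu0 ⟨a, ha⟩
    change mom Z c' a = 0 at this
    rw [this, mul_zero]
  rw [h2, ← add_sum_erase Z _ hz0, sum_eq_zero (s := Z.erase z0)] at h1
  · rw [add_zero] at h1
    have h3 := (mul_eq_zero.mp h1).resolve_right hp0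
    simpa [c', hz0] using h3
  · intro z hz
    rw [hpz z hz, mul_zero]

end Pool.Agent.Work.MP_499dc6_lc.Bez
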