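import Pool.Agent.Work.MP_499dc6_lc.BezA

set_option autoImplicit false
set_option linter.unusedSectionVars false
set_option linter.style.haveILetI false

open Finset MvPolynomial Topology

namespace Pool.Agent.Work.MP_499dc6_lc.Bez

variable {ι : Type*} [Fintype ι] [DecidableEq ι]

/-- the differential of a polynomial at a point -/
noncomputable def dif (p : MvPolynomial ι ℂ) (z : ι → ℂ) : (ι → ℂ) →L[ℂ] ℂ :=
  ∑ j, eval z (pderiv j p) • ContinuousLinearMap.proj j

lemma dif_apply (p : MvPolynomial ι ℂ) (z y : ι → ℂ) :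
    dif p z y = ∑ j, eval z (pderiv j p) * y j := by
  simp [dif]

lemma hasStrictFDerivAt_eval (p : MvPolynomial ι ℂ) (z : ι → ℂ) :
    HasStrictFDerivAt (fun x => eval x p) (dif p z) z := by
  induction p using MvPolynomial.induction_on with
  | C a =>
    have h : dif (C a : MvPolynomial ι ℂ) z = 0 := by
      ext y
      rw [dif_apply]
      simp
    rw [h]
    simpa using hasStrictFDerivAt_const a z
  | add p q hp hq =>
    have h : dif (p + q) z = dif p z + dif q z := by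
      ext y
      rw [add_apply, dif_apply, dif_apply, dif_apply, ← sum_add_distrib]
      refine sum_congr rfl fun j _ => ?_
      rw [map_add, map_add]
      ring
    have h2 : (fun x => eval x (p + q)) = (fun x => eval x p) + (fun x => eval x q) := by
      ext x
      simp
    rw [h, h2]
    exact hp.add hq
  | mul_X p i hp =>
    have h : dif (p * X i) z = (eval z p) • (ContinuousLinearMap.proj i : (ι → ℂ) →L[ℂ] ℂ)
        + (z i) • dif p z := by
      ext y
      rw [add_apply, smul_apply,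
        smul_apply, dif_apply, dif_apply, ContinuousLinearMap.proj_apply,
        smul_eq_mul, smul_eq_mul, mul_sum]
      have h1 : ∀ j, eval z (pderiv j (p * X i)) * y j =
          (if j = i then eval z p * y i else 0) + z i * (eval z (pderiv j p) * y j) := by
        intro j
        rw [pderiv_mul, map_add, map_mul, map_mul, eval_X, pderiv_X]
        by_cases hj : j = i
        · subst hj
          simp
          ring
        · rw [if_neg hj, Pi.single_apply, if_neg (fun h => hj h.symm)]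
          simp
          ring
      rw [sum_congr rfl fun j _ => h1 j, sum_add_distrib]
      simp
    rw [h]
    have h2 : HasStrictFDerivAt (fun x : ι → ℂ => x i)
        (ContinuousLinearMap.proj i : (ι → ℂ) →L[ℂ] ℂ) z :=
      (ContinuousLinearMap.proj i : (ι → ℂ) →L[ℂ] ℂ).hasStrictFDerivAt
    have h3 := hp.mul h2
    have h4 : (fun x => eval x (p * X i)) = (fun x => eval x p) * (fun x => x i) := by
      ext x
      simp
    rw [h4]
    exact h3

/-- nondegenerate zero -/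
def NonDeg (F : ι → MvPolynomial ι ℂ) (z : ι → ℂ) : Prop :=
  ∀ y : ι → ℂ, (∀ i, ∑ j, eval z (pderiv j (F i)) * y j = 0) → y = 0

/-- the perturbed map -/
noncomputable def pmap (F : ι → MvPolynomial ι ℂ) (w : (ι → ℂ) × ℂ) : (ι → ℂ) × ℂ :=
  (fun i => eval w.1 (F i) + w.2 * w.1 i ^ 2, w.2)

/-- its derivative at `(z,0)` -/
noncomputable def pder (F : ι → MvPolynomial ι ℂ) (z : ι → ℂ) :
    ((ι → ℂ) × ℂ) →L[ℂ] ((ι → ℂ) × ℂ) :=
  (ContinuousLinearMap.pi fun i => (dif (F i) z).comp (ContinuousLinearMap.fst ℂ _ _)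
    + (z i ^ 2) • ContinuousLinearMap.snd ℂ _ _).prod (ContinuousLinearMap.snd ℂ _ _)

lemma hasStrictFDerivAt_pmap (F : ι → MvPolynomial ι ℂ) (z : ι → ℂ) :
    HasStrictFDerivAt (pmap F) (pder F z) (z, 0) := by
  unfold pmap pder
  refine HasStrictFDerivAt.prodMk ?_ hasStrictFDerivAt_snd
  rw [hasStrictFDerivAt_pi]
  intro i
  have h1 : HasStrictFDerivAt (fun w : (ι → ℂ) × ℂ => eval w.1 (F i))
      ((dif (F i) z).comp (ContinuousLinearMap.fst ℂ (ι → ℂ) ℂ)) (z, 0) :=
    HasStrictFDerivAt.comp (g := fun x => eval x (F i)) (f := Prod.fst) (z, (0 : ℂ))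
      (hasStrictFDerivAt_eval (F i) z) hasStrictFDerivAt_fst
  have h2 : HasStrictFDerivAt (fun w : (ι → ℂ) × ℂ => w.1 i ^ 2)
      ((2 * z i) • (ContinuousLinearMap.proj i : (ι → ℂ) →L[ℂ] ℂ).comp
        (ContinuousLinearMap.fst ℂ (ι → ℂ) ℂ)) (z, 0) := by
    have h3 : HasStrictFDerivAt (fun w : (ι → ℂ) × ℂ => w.1 i)
        ((ContinuousLinearMap.proj i : (ι → ℂ) →L[ℂ] ℂ).comp
        (ContinuousLinearMap.fst ℂ (ι → ℂ) ℂ)) (z, 0) :=
      ((ContinuousLinearMap.proj i : (ι → ℂ) →L[ℂ] ℂ).comp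
        (ContinuousLinearMap.fst ℂ (ι → ℂ) ℂ)).hasStrictFDerivAt
    have h4 := h3.pow 2
    simpa using h4
  have h5 := h1.add ((hasStrictFDerivAt_snd (𝕜 := ℂ) (p := (z, (0 : ℂ)))).mul h2)
  have h6 : (fun w : (ι → ℂ) × ℂ => eval w.1 (F i) + w.2 * w.1 i ^ 2) =
      (fun w : (ι → ℂ) × ℂ => eval w.1 (F i)) + (Prod.snd * fun w : (ι → ℂ) × ℂ => w.1 i ^ 2) := rfl
  rw [h6]
  convert h5 using 1
  simp

lemma pder_surj (F : ι → MvPolynomial ι ℂ) (z : ι → ℂ) (h : NonDeg F z) :
    (pder F z).range = ⊤ := by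
  -- the Jacobian is injective hence surjective
  let J : (ι → ℂ) →ₗ[ℂ] (ι → ℂ) := LinearMap.pi fun i => (dif (F i) z : (ι → ℂ) →ₗ[ℂ] ℂ)
  have hJ : ∀ y i, J y i = ∑ j, eval z (pderiv j (F i)) * y j := by
    intro y i
    change dif (F i) z y = _
    rw [dif_apply]
  have hinj : Function.Injective J := by
    rw [← LinearMap.ker_eq_bot, LinearMap.ker_eq_bot']
    intro y hy
    apply h
    intro i
    rw [← hJ, hy]
    rfl
  have hsurj : Function.Surjective J := LinearMap.injective_iff_surjective.mp hinj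
  rw [eq_top_iff]
  rintro ⟨w, e⟩ _
  obtain ⟨y, hy⟩ := hsurj (fun i => w i - z i ^ 2 * e)
  refine ⟨(y, e), ?_⟩
  change ((fun i => dif (F i) z y + z i ^ 2 * e), e) = (w, e)
  congr 1
  ext i
  have := congrFun hy i
  rw [hJ] at this
  rw [dif_apply, this]
  ring

/-- A system of `k` equations of degree at most two in `k` unknowns has at most `2 ^ k`
nondegenerate zeros. -/
theorem bezout_two (F : ι → MvPolynomial ι ℂ) (hF : ∀ i, (F i).totalDegree ≤ 2)
    (Z : Finset (ι → ℂ)) (hZ : ∀ z ∈ Z, (∀ i, eval z (F i) = 0) ∧ NonDeg F z) :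
    Z.card ≤ 2 ^ Fintype.card ι := by
  classical
  obtain ⟨U, hU, hUd⟩ := (Z.finite_toSet).t2_separation
  have h1 : ∀ z ∈ Z, ∀ᶠ ε : ℂ in 𝓝 0, ∃ x ∈ U z, ∀ i, eval x (F i) + ε * x i ^ 2 = 0 := by
    intro z hz
    have h2 := (hasStrictFDerivAt_pmap F z).map_nhds_eq_of_surj (pder_surj F z (hZ z hz).2)
    have h3 : pmap F (z, 0) = (0, 0) := by
      unfold pmap
      congr 1
      ext i
      simp [(hZ z hz).1 i]
    rw [h3] at h2
    have h4 : (U z) ×ˢ (Set.univ : Set ℂ) ∈ 𝓝 (z, (0 : ℂ)) :=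
      prod_mem_nhds ((hU z).2.mem_nhds (hU z).1) Filter.univ_mem
    have h5 : pmap F '' ((U z) ×ˢ (Set.univ : Set ℂ)) ∈ 𝓝 ((0 : ι → ℂ), (0 : ℂ)) := by
      rw [← h2]
      exact Filter.image_mem_map h4
    have h6 : Filter.Tendsto (fun ε : ℂ => ((0 : ι → ℂ), ε)) (𝓝 0) (𝓝 ((0 : ι → ℂ), (0 : ℂ))) :=
      (Continuous.prodMk_right (0 : ι → ℂ)).tendsto 0
    filter_upwards [h6 h5] with ε hε
    obtain ⟨⟨x, e⟩, ⟨hx, -⟩, hxe⟩ := hε
    refine ⟨x, hx, ?_⟩
    intro i
    have h7 : e = ε := congrArg Prod.snd hxe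
    have h8 := congrFun (congrArg Prod.fst hxe) i
    subst h7
    exact h8
  have h2 : ∀ᶠ ε : ℂ in 𝓝 0, ∀ z ∈ Z, ∃ x ∈ U z, ∀ i, eval x (F i) + ε * x i ^ 2 = 0 :=
    (Filter.eventually_all_finset Z).mpr h1
  have h3 : ∀ᶠ ε : ℂ in 𝓝 0, ε ∉ (((dd F Z.card).roots.toFinset.image fun t => t⁻¹).erase 0) := by
    have hcl : IsClosed ((((dd F Z.card).roots.toFinset.image fun t => t⁻¹).erase 0 : Finset ℂ) :
      Set ℂ) := Set.Finite.isClosed (Finset.finite_toSet _)
    have : (0 : ℂ) ∉ ((((dd F Z.card).roots.toFinset.image fun t => t⁻¹).erase 0 : Finset ℂ) :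
      Set ℂ) := by simp
    exact hcl.isOpen_compl.mem_nhds this
  have h4 : ∀ᶠ ε : ℂ in 𝓝[≠] 0, ε ≠ 0 := self_mem_nhdsWithin
  obtain ⟨ε, ⟨h2, h3⟩, h4⟩ := (((h2.and h3).filter_mono nhdsWithin_le_nhds).and h4).exists
  have hτ : (dd F Z.card).eval ε⁻¹ ≠ 0 := by
    intro h
    apply h3
    rw [mem_erase]
    refine ⟨h4, ?_⟩
    rw [mem_image]
    refine ⟨ε⁻¹, ?_, inv_inv ε⟩
    rw [Multiset.mem_toFinset, Polynomial.mem_roots (dd_ne_zero _ _)]
    exact h
  choose! x hx using h2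
  have hinj : Set.InjOn x Z := by
    intro z hz z' hz' hxx
    by_contra hne
    have := hUd hz hz' hne
    rw [Function.onFun, Set.disjoint_left] at this
    exact this (hx z hz).1 (hxx ▸ (hx z' hz').1)
  have h5 := card_le_of_good F hF Z.card ε⁻¹ hτ (Z.image x)
    (card_image_le.trans (Nat.le_succ _)) (by
      intro w hw i
      obtain ⟨z, hz, rfl⟩ := mem_image.mp hw
      have := (hx z hz).2 i
      field_simp
      linear_combination this)
  rwa [card_image_of_injOn hinj] at h5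

end Pool.Agent.Work.MP_499dc6_lc.Bez
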