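import Mathlib

set_option autoImplicit false
set_option linter.unusedSectionVars false

open Finset Equiv Polynomial

namespace Pool.Agent.Work.MP_499dc6_lc.Dc

variable {R : Type*} [CommRing R] {α : Type*} [Fintype α] [DecidableEq α]

/-- The permanent of a square array, written with rows first. -/
def per (M : α → α → R) : R := ∑ σ : Perm α, ∏ i, M i (σ i)

/-- An array with one extra row and column, corner entry `a`, other new entries `c`. -/
def bord (a c : R) (Y : α → α → R) : Option α → Option α → R :=
  fun i j => i.elim (j.elim a (fun _ => c)) (fun i' => j.elim c (fun j' => Y i' j'))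

@[simp] lemma bord_nn (a c : R) (Y : α → α → R) : bord a c Y none none = a := rfl
@[simp] lemma bord_ns (a c : R) (Y : α → α → R) (j : α) : bord a c Y none (some j) = c := rfl
@[simp] lemma bord_sn (a c : R) (Y : α → α → R) (i : α) : bord a c Y (some i) none = c := rfl
@[simp] lemma bord_ss (a c : R) (Y : α → α → R) (i j : α) :
    bord a c Y (some i) (some j) = Y i j := rfl

lemma per_bord (a c : R) (Y : α → α → R) :
    per (bord a c Y) = a * per Y
      + c * c * ∑ σ : Perm α, ∑ k, ∏ l ∈ univ.erase k, Y l (σ l) := by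
  unfold per
  rw [← Equiv.sum_comp Equiv.Perm.decomposeOption.symm, Fintype.sum_prod_type,
    Fintype.sum_option]
  congr 1
  · rw [mul_sum]
    refine sum_congr rfl fun σ _ => ?_
    rw [Fintype.prod_option]
    simp
  · rw [sum_comm, mul_sum]
    refine sum_congr rfl fun σ _ => ?_
    rw [← Equiv.sum_comp σ, mul_sum]
    refine sum_congr rfl fun k _ => ?_
    rw [Fintype.prod_option]
    simp only [Perm.decomposeOption_symm_apply, Perm.coe_mul, Function.comp_apply,
      optionCongr_apply, Option.map_none, swap_apply_left, bord_ns, Option.map_some]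
    rw [← mul_prod_erase univ _ (mem_univ k)]
    simp only [swap_apply_right, bord_sn]
    rw [mul_assoc]
    congr 2
    refine prod_congr rfl fun l hl => ?_
    have hlk : l ≠ k := (mem_erase.mp hl).1
    rw [swap_apply_of_ne_of_ne (by simp) (by simpa using hlk)]
    simp

/-- `∑ σ ∏ (Y l (σ l) + X)`. -/
noncomputable def Hp (Y : α → α → R) : R[X] := ∑ σ : Perm α, ∏ l, (C (Y l (σ l)) + X)

lemma Hp_eval (Y : α → α → R) : (Hp Y).eval 0 = per Y := by
  simp [Hp, per, eval_finsetSum, eval_prod]

lemma derivative_Hp (Y : α → α → R) :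
    derivative (Hp Y) = ∑ σ : Perm α, ∑ k, ∏ l ∈ univ.erase k, (C (Y l (σ l)) + X) := by
  unfold Hp
  rw [derivative_sum]
  refine sum_congr rfl fun σ _ => ?_
  rw [derivative_prod_finset]
  simp

lemma per_bord_one (a : R) (Y : α → α → R) :
    per (bord a 1 Y) = a * (Hp Y).eval 0 + (derivative (Hp Y)).eval 0 := by
  rw [per_bord, Hp_eval, derivative_Hp]
  simp [eval_finsetSum, eval_prod]

lemma Hp_bord (b : R) (Y : α → α → R) :
    Hp (bord b 1 Y) = (C b + X) * Hp Y + (1 + X) * (1 + X) * derivative (Hp Y) := by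
  have h1 : Hp (bord b 1 Y) =
      per (bord (C b + X) (1 + X) (fun i j => C (Y i j) + X : α → α → R[X])) := by
    unfold Hp per
    refine sum_congr rfl fun σ _ => prod_congr rfl fun l _ => ?_
    rcases l with _ | l
    · rcases h : σ none with _ | m <;> simp
    · rcases h : σ (some l) with _ | m <;> simp
  rw [h1, per_bord, derivative_Hp]
  rfl

lemma per_bord_bord (a b : R) (Y : α → α → R) :
    per (bord a 1 (bord b 1 Y)) = (a * b + 1) * (Hp Y).eval 0
      + (a + b + 2) * (derivative (Hp Y)).eval 0
      + (derivative (derivative (Hp Y))).eval 0 := by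
  rw [per_bord_one, Hp_bord]
  simp
  ring

lemma Hp_one_add (v : α → α → R) :
    Hp (fun i j => 1 + v i j) =
      ∑ σ : Perm α, ∑ S : Finset α, C (∏ l ∈ S, v l (σ l)) * (1 + X) ^ (univ \ S).card := by
  unfold Hp
  refine sum_congr rfl fun σ _ => ?_
  have : ∀ l, (C (1 + v l (σ l)) + X : R[X]) = C (v l (σ l)) + (1 + X) := by
    intro l; simp; ring
  simp_rw [this]
  rw [prod_add, powerset_univ]
  refine sum_congr rfl fun S _ => ?_
  simp

/-- The key expansion of the permanent around the base point. -/
lemma per_base (a b : R) (v : α → α → R) :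
    per (bord a 1 (bord b 1 (fun i j => 1 + v i j))) =
      ∑ σ : Perm α, ∑ S : Finset α,
        ((a * b + 1) + (a + b + 2) * ((univ \ S).card : R)
          + ((univ \ S).card : R) * (((univ \ S).card : R) - 1)) * ∏ l ∈ S, v l (σ l) := by
  rw [per_bord_bord, Hp_one_add]
  simp only [derivative_sum, eval_finsetSum, mul_sum, ← sum_add_distrib]
  refine sum_congr rfl fun σ _ => sum_congr rfl fun S _ => ?_
  generalize (univ \ S).card = k
  have h1 : derivative (C (∏ l ∈ S, v l (σ l)) * (1 + X) ^ k) =
      C (∏ l ∈ S, v l (σ l)) * (C (k : R) * (1 + X) ^ (k - 1)) := by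
    rw [derivative_C_mul, derivative_pow]
    simp
  have h2 : derivative (C (∏ l ∈ S, v l (σ l)) * (C (k : R) * (1 + X) ^ (k - 1))) =
      C (∏ l ∈ S, v l (σ l)) * (C (k : R) * (C ((k - 1 : ℕ) : R) * (1 + X) ^ (k - 1 - 1))) := by
    rw [derivative_C_mul, derivative_C_mul, derivative_pow]
    simp
  rw [h1, h2]
  have h3 : (k : R) * ((k - 1 : ℕ) : R) = (k : R) * ((k : R) - 1) := by
    rcases k with _ | k
    · simp
    · simp
  simp only [eval_mul, eval_C, eval_pow, eval_add, eval_one, eval_X, add_zero, one_pow, mul_one]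
  rw [h3]
  ring

end Pool.Agent.Work.MP_499dc6_lc.Dc
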