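import Pool.Agent.Work.MP_499dc6_lc.DcA

set_option autoImplicit false
set_option linter.unusedSectionVars false

open Finset Equiv Polynomial

namespace Pool.Agent.Work.MP_499dc6_lc.Dc

variable {K : Type*} [Field K] [CharZero K] {α : Type*} [Fintype α] [DecidableEq α]

/-- The permanent at the bordered base point plus `v`. -/
def gg (a b : K) (v : α → α → K) : K := per (bord a 1 (bord b 1 (fun i j => 1 + v i j)))

/-- The numerical conditions on the two corner entries. -/
def Good (α : Type*) [Fintype α] (a b : K) : Prop :=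
  a + b + 2 = 3 - 2 * (Fintype.card α : K) ∧
    a * b + 1 = (Fintype.card α : K) ^ 2 - 2 * (Fintype.card α : K)

lemma gg_eq {a b : K} (h : Good α a b) (v : α → α → K) :
    gg a b v = ∑ σ : Perm α, ∑ S : Finset α,
      ((S.card : K) * ((S.card : K) - 2)) * ∏ l ∈ S, v l (σ l) := by
  unfold gg
  rw [per_base]
  refine sum_congr rfl fun σ _ => sum_congr rfl fun S _ => ?_
  have hc : ((univ \ S).card : K) = (Fintype.card α : K) - S.card := by
    rw [← Finset.compl_eq_univ_sdiff, Finset.card_compl, Nat.cast_sub (Finset.card_le_univ S)]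
  rw [hc, h.1, h.2]
  ring

/-- moment of a permutation at one point -/
lemma sum_perm_apply_eq (F : α → K) (i j : α) :
    ∑ σ : Perm α, F (σ i) = ∑ σ : Perm α, F (σ j) := by
  rw [← Equiv.sum_comp (Equiv.mulRight (swap i j))]
  simp

/-- The constant `ν! / ν`. -/
noncomputable def cc (K : Type*) [Field K] (α : Type*) [Fintype α] : K :=
  ((Fintype.card α).factorial : K) / (Fintype.card α : K)

lemma cc_ne_zero [Nonempty α] : cc K α ≠ 0 := by
  unfold cc
  have h1 : ((Fintype.card α).factorial : K) ≠ 0 := by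
    exact_mod_cast (Nat.factorial_ne_zero _)
  have h2 : (Fintype.card α : K) ≠ 0 := by
    exact_mod_cast Fintype.card_ne_zero
  exact div_ne_zero h1 h2

lemma sum_perm_apply (F : α → K) (i : α) :
    ∑ σ : Perm α, F (σ i) = cc K α * ∑ j, F j := by
  have h2 : (Fintype.card α : K) ≠ 0 := by
    haveI : Nonempty α := ⟨i⟩
    exact_mod_cast Fintype.card_ne_zero
  have h : (Fintype.card α : K) * ∑ σ : Perm α, F (σ i) =
      ((Fintype.card α).factorial : K) * ∑ j, F j := by
    have h3 : ∑ k : α, ∑ σ : Perm α, F (σ k) = (Fintype.card α : K) * ∑ σ : Perm α, F (σ i) := by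
      rw [sum_congr rfl fun k _ => sum_perm_apply_eq F k i]
      simp
    rw [← h3, sum_comm]
    rw [sum_congr rfl fun σ _ => Equiv.sum_comp σ F]
    simp [Fintype.card_perm]
  unfold cc
  field_simp
  rw [mul_comm] at h
  linear_combination h

lemma pair_formula {i a : α} (hia : i ≠ a) (H F : α → K) (hF : ∑ j, F j = 0) :
    ((Fintype.card α : K) - 1) * ∑ σ : Perm α, H (σ i) * F (σ a) =
      - ∑ σ : Perm α, H (σ i) * F (σ i) := by
  have h0 : ∑ x : α, ∑ σ : Perm α, H (σ i) * F (σ x) = 0 := by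
    rw [sum_comm]
    refine sum_eq_zero fun σ _ => ?_
    rw [← mul_sum, Equiv.sum_comp σ F, hF, mul_zero]
  have h1 : ∀ x ∈ univ.erase i, ∑ σ : Perm α, H (σ i) * F (σ x) =
      ∑ σ : Perm α, H (σ i) * F (σ a) := by
    intro x hx
    have hxi : x ≠ i := (mem_erase.mp hx).1
    rw [← Equiv.sum_comp (Equiv.mulRight (swap x a))]
    refine sum_congr rfl fun σ _ => ?_
    simp [Perm.mul_apply, swap_apply_of_ne_of_ne hxi.symm hia]
  rw [← add_sum_erase univ _ (mem_univ i), sum_congr rfl h1, sum_const,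
    card_erase_of_mem (mem_univ i), card_univ, nsmul_eq_mul,
    Nat.cast_sub (Fintype.card_pos_iff.mpr ⟨i⟩)] at h0
  push_cast at h0
  linear_combination h0

lemma triple_formula {i a b : α} (hia : i ≠ a) (hib : i ≠ b) (hab : a ≠ b)
    (u F G : α → K) (hu : ∑ j, u j = 0) (hF : ∑ j, F j = 0) (hG : ∑ j, G j = 0) :
    ((Fintype.card α : K) - 1) * ((Fintype.card α : K) - 2) *
      ∑ σ : Perm α, u (σ i) * (F (σ a) * G (σ b)) =
      2 * (cc K α * ∑ j, u j * F j * G j) := by
  have h0 : ∑ x : α, ∑ σ : Perm α, u (σ i) * (F (σ a) * G (σ x)) = 0 := by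
    rw [sum_comm]
    refine sum_eq_zero fun σ _ => ?_
    rw [← mul_sum, ← mul_sum, Equiv.sum_comp σ G, hG, mul_zero, mul_zero]
  have h1 : ∀ x ∈ (univ.erase i).erase a, ∑ σ : Perm α, u (σ i) * (F (σ a) * G (σ x)) =
      ∑ σ : Perm α, u (σ i) * (F (σ a) * G (σ b)) := by
    intro x hx
    have hxa : x ≠ a := (mem_erase.mp hx).1
    have hxi : x ≠ i := (mem_erase.mp (mem_erase.mp hx).2).1
    rw [← Equiv.sum_comp (Equiv.mulRight (swap x b))]
    refine sum_congr rfl fun σ _ => ?_
    simp [Perm.mul_apply, swap_apply_of_ne_of_ne hxi.symm hib,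
      swap_apply_of_ne_of_ne hxa.symm hab]
  have hai : a ∈ univ.erase i := mem_erase.mpr ⟨hia.symm, mem_univ a⟩
  have hcard : 2 ≤ Fintype.card α := by
    rw [← card_univ, ← Finset.card_pair hia]
    exact card_le_card (subset_univ _)
  rw [← add_sum_erase univ _ (mem_univ i), ← add_sum_erase _ _ hai, sum_congr rfl h1, sum_const,
    card_erase_of_mem hai, card_erase_of_mem (mem_univ i), card_univ, nsmul_eq_mul] at h0
  have hcast : ((Fintype.card α - 1 - 1 : ℕ) : K) = (Fintype.card α : K) - 2 := by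
    rw [Nat.sub_sub, Nat.cast_sub (by omega)]
    norm_num
  rw [hcast] at h0
  have h2 := pair_formula (K := K) hia (fun j => u j * G j) F hF
  have h3 := pair_formula (K := K) hia.symm (fun j => F j * G j) u hu
  have h4 : ∑ σ : Perm α, (fun j => u j * G j) (σ i) * F (σ i) =
      cc K α * ∑ j, u j * F j * G j := by
    have := sum_perm_apply (K := K) (fun j => u j * F j * G j) i
    rw [← this]
    refine sum_congr rfl fun σ _ => ?_
    ring
  have h5 : ∑ σ : Perm α, (fun j => F j * G j) (σ a) * u (σ a) =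
      cc K α * ∑ j, u j * F j * G j := by
    have := sum_perm_apply (K := K) (fun j => u j * F j * G j) a
    rw [← this]
    refine sum_congr rfl fun σ _ => ?_
    ring
  rw [h4] at h2
  rw [h5] at h3
  have h6 : ∑ σ : Perm α, u (σ i) * (F (σ a) * G (σ i)) =
      ∑ σ : Perm α, (fun j => u j * G j) (σ i) * F (σ a) :=
    sum_congr rfl fun σ _ => by ring
  have h7 : ∑ σ : Perm α, u (σ i) * (F (σ a) * G (σ a)) =
      ∑ σ : Perm α, (fun j => F j * G j) (σ a) * u (σ i) :=
    sum_congr rfl fun σ _ => by ring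
  rw [h6, h7] at h0
  linear_combination ((Fintype.card α : K) - 1) * h0 - h2 - h3

/-- total sum -/
def tot (v : α → α → K) : K := ∑ i, ∑ j, v i j

/-- The polynomial `t ↦ gg (t v)`. -/
noncomputable def gpoly (v : α → α → K) : K[X] :=
  ∑ σ : Perm α, ∑ S : Finset α,
    C (((S.card : K) * ((S.card : K) - 2)) * ∏ l ∈ S, v l (σ l)) * X ^ S.card

lemma gpoly_eval {a b : K} (h : Good α a b) (v : α → α → K) (t : K) :
    (gpoly v).eval t = gg a b (fun i j => t * v i j) := by
  rw [gg_eq h]
  unfold gpoly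
  simp only [eval_finsetSum, eval_mul, eval_C, eval_pow, eval_X]
  refine sum_congr rfl fun σ _ => sum_congr rfl fun S _ => ?_
  rw [prod_mul_distrib, prod_const]
  ring

lemma gpoly_coeff_zero (v : α → α → K) : (gpoly v).coeff 0 = 0 := by
  unfold gpoly
  rw [finsetSum_coeff]
  refine sum_eq_zero fun σ _ => ?_
  rw [finsetSum_coeff]
  refine sum_eq_zero fun S _ => ?_
  rw [coeff_C_mul, coeff_X_pow]
  split_ifs with h
  · rw [← h]; simp
  · simp

lemma gpoly_coeff_two (v : α → α → K) : (gpoly v).coeff 2 = 0 := by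
  unfold gpoly
  rw [finsetSum_coeff]
  refine sum_eq_zero fun σ _ => ?_
  rw [finsetSum_coeff]
  refine sum_eq_zero fun S _ => ?_
  rw [coeff_C_mul, coeff_X_pow]
  split_ifs with h
  · rw [← h]; simp
  · simp

lemma gpoly_coeff_one (v : α → α → K) : (gpoly v).coeff 1 = - (cc K α * tot v) := by
  unfold gpoly
  rw [finsetSum_coeff]
  have h1 : ∀ σ : Perm α, (∑ S : Finset α,
      C (((S.card : K) * ((S.card : K) - 2)) * ∏ l ∈ S, v l (σ l)) * X ^ S.card).coeff 1 =
      - ∑ l, v l (σ l) := by
    intro σ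
    rw [finsetSum_coeff]
    simp only [coeff_C_mul, coeff_X_pow]
    have h2 : ∀ S : Finset α, ((S.card : K) * ((S.card : K) - 2)) * (∏ l ∈ S, v l (σ l)) *
        (if 1 = S.card then 1 else 0) =
        if S ∈ powersetCard 1 (univ : Finset α) then - ∏ l ∈ S, v l (σ l) else 0 := by
      intro S
      by_cases hS : S.card = 1
      · rw [if_pos hS.symm, if_pos (by simp [mem_powersetCard, hS]), hS]
        push_cast; ring
      · rw [if_neg (fun h => hS h.symm), if_neg (by simp [mem_powersetCard, hS])]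
        simp
    rw [sum_congr rfl fun S _ => h2 S, ← sum_filter]
    have h3 : (univ.filter fun S : Finset α => S ∈ powersetCard 1 (univ : Finset α)) =
        powersetCard 1 univ := by
      ext S; simp
    rw [h3, powersetCard_one, sum_map]
    simp
  rw [sum_congr rfl fun σ _ => h1 σ]
  rw [sum_neg_distrib, sum_comm]
  rw [sum_congr rfl fun i _ => sum_perm_apply (K := K) (v i) i]
  rw [← mul_sum]
  rfl

lemma gg_expand {a b : K} (h : Good α a b) (v : α → α → K) :
    ∃ H : K[X], ∀ t : K, gg a b (fun i j => t * v i j) = - (cc K α * tot v) * t + t ^ 3 * H.eval t := by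
  have hd : X ^ 3 ∣ gpoly v - C (- (cc K α * tot v)) * X := by
    rw [X_pow_dvd_iff]
    intro d hd
    interval_cases d
    · simp [gpoly_coeff_zero]
    · simp [gpoly_coeff_one]
    · simp [gpoly_coeff_two, coeff_X]
  obtain ⟨H, hH⟩ := hd
  refine ⟨H, fun t => ?_⟩
  rw [← gpoly_eval h]
  have := congrArg (eval t) hH
  simp only [eval_sub, eval_mul, eval_C, eval_X, eval_pow] at this
  linear_combination this

end Pool.Agent.Work.MP_499dc6_lc.Dc
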