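import Pool.Agent.Work.MP_499dc6_lc.DcB

set_option autoImplicit false
set_option linter.unusedSectionVars false

open Finset Equiv Polynomial

namespace Pool.Agent.Work.MP_499dc6_lc.Dc

variable {K : Type*} [Field K] [CharZero K] {α : Type*} [Fintype α] [DecidableEq α]

lemma sum_sum_erase (s : Finset α) (y : α → K) :
    ∑ a ∈ s, ∑ b ∈ s.erase a, y a * y b = (∑ a ∈ s, y a) ^ 2 - ∑ a ∈ s, y a ^ 2 := by
  have h : ∀ a ∈ s, ∑ b ∈ s.erase a, y a * y b = y a * (∑ b ∈ s, y b) - y a ^ 2 := by
    intro a ha
    rw [← mul_sum, ← add_sum_erase s y ha]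
    ring
  rw [sum_congr rfl h, sum_sub_distrib, ← sum_mul]
  ring

lemma two_mul_powersetCard_two (s : Finset α) (y : α → K) :
    2 * ∑ S ∈ powersetCard 2 s, ∏ l ∈ S, y l = (∑ a ∈ s, y a) ^ 2 - ∑ a ∈ s, y a ^ 2 := by
  induction s using Finset.induction_on with
  | empty =>
    rw [powersetCard_eq_empty.mpr (by simp)]
    simp
  | insert x s hx ih =>
    rw [powersetCard_succ_insert hx, sum_union, mul_add, ih, powersetCard_one]
    · have h1 : ∑ S ∈ (s.map ⟨singleton, singleton_injective⟩).image (insert x), ∏ l ∈ S, y l =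
          ∑ a ∈ s, y x * y a := by
        rw [sum_image, sum_map]
        · refine sum_congr rfl fun a ha => ?_
          have : x ≠ a := fun h => hx (h ▸ ha)
          simp [prod_pair this]
        · intro S hS T hT hST
          simp only [coe_map, Function.Embedding.coeFn_mk, Set.mem_image, mem_coe] at hS hT
          obtain ⟨a, ha, rfl⟩ := hS
          obtain ⟨b, hb, rfl⟩ := hT
          have hxa : x ∉ ({a} : Finset α) := by
            simp only [mem_singleton]; rintro rfl; exact hx ha
          have hxb : x ∉ ({b} : Finset α) := by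
            simp only [mem_singleton]; rintro rfl; exact hx hb
          have := congrArg (fun T => T.erase x) hST
          simpa [erase_insert hxa, erase_insert hxb] using this
      rw [h1, sum_insert hx, sum_insert hx, ← mul_sum]
      ring
    · rw [disjoint_left]
      intro S hS hS'
      rw [mem_image] at hS'
      obtain ⟨T, _, rfl⟩ := hS'
      exact hx ((mem_powersetCard.mp hS).1 (mem_insert_self x T))

/-- The polynomial `t ↦ gg` of `t x` with row `i` replaced by `u`. -/
noncomputable def rpoly (i : α) (u : α → K) (x : α → α → K) : K[X] :=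
  ∑ σ : Perm α, ∑ S : Finset α,
    C (((S.card : K) * ((S.card : K) - 2)) * ∏ l ∈ S, (if l = i then u (σ l) else x l (σ l)))
      * X ^ (S.erase i).card

lemma rpoly_eval {a b : K} (h : Good α a b) (i : α) (u : α → K) (x : α → α → K) (t : K) :
    (rpoly i u x).eval t = gg a b (fun k j => if k = i then u j else t * x k j) := by
  rw [gg_eq h]
  unfold rpoly
  simp only [eval_finsetSum, eval_mul, eval_C, eval_pow, eval_X]
  refine sum_congr rfl fun σ _ => sum_congr rfl fun S _ => ?_
  have h1 : ∏ l ∈ S, (if l = i then u (σ l) else t * x l (σ l)) =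
      (∏ l ∈ S, (if l = i then u (σ l) else x l (σ l))) * ∏ l ∈ S, (if l = i then 1 else t) := by
    rw [← prod_mul_distrib]
    refine prod_congr rfl fun l _ => ?_
    split_ifs <;> ring
  have h2 : ∏ l ∈ S, (if l = i then 1 else t) = t ^ (S.erase i).card := by
    rw [prod_ite, prod_const_one, prod_const, one_mul]
    congr 2
    ext l; simp [and_comm]
  rw [h1, h2]
  ring

lemma rpoly_coeff_two (i : α) (u : α → K) (x : α → α → K) :
    (rpoly i u x).coeff 2 = 3 * ∑ σ : Perm α, u (σ i) *
      ∑ S ∈ powersetCard 2 (univ.erase i), ∏ l ∈ S, x l (σ l) := by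
  unfold rpoly
  rw [finsetSum_coeff, mul_sum]
  refine sum_congr rfl fun σ _ => ?_
  rw [finsetSum_coeff]
  simp only [coeff_C_mul, coeff_X_pow]
  have hu : (univ : Finset (Finset α)) = (insert i (univ.erase i)).powerset := by
    rw [insert_erase (mem_univ i), powerset_univ]
  rw [hu, sum_powerset_insert (notMem_erase i univ)]
  have h1 : ∑ t ∈ (univ.erase i).powerset, ((t.card : K) * ((t.card : K) - 2)) *
      (∏ l ∈ t, (if l = i then u (σ l) else x l (σ l))) *
        (if 2 = (t.erase i).card then 1 else 0) = 0 := by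
    refine sum_eq_zero fun t ht => ?_
    have hit : i ∉ t := fun h => notMem_erase i univ ((mem_powerset.mp ht) h)
    rw [erase_eq_of_notMem hit]
    split_ifs with hc
    · rw [← hc]; simp
    · simp
  rw [h1, zero_add, powersetCard_eq_filter, sum_filter, mul_sum, mul_sum]
  refine sum_congr rfl fun t ht => ?_
  have hit : i ∉ t := fun h => notMem_erase i univ ((mem_powerset.mp ht) h)
  rw [erase_insert hit, card_insert_of_notMem hit]
  by_cases hc : t.card = 2
  · rw [if_pos hc.symm, if_pos hc, hc, prod_insert hit]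
    have h3 : ∏ l ∈ t, (if l = i then u (σ l) else x l (σ l)) = ∏ l ∈ t, x l (σ l) := by
      refine prod_congr rfl fun l hl => ?_
      rw [if_neg]
      rintro rfl
      exact hit hl
    rw [h3]
    rw [if_pos rfl]
    push_cast
    ring
  · rw [if_neg (fun h => hc h.symm), if_neg hc]
    ring

/-- Consequence of the vanishing of the cubic term. -/
lemma cubic_row {a b : K} (h : Good α a b)
    (i : α) (u : α → K) (hu : ∑ j, u j = 0)
    (x : α → α → K) (hr : ∀ k, ∑ j, x k j = 0) (hc : ∀ j, ∑ k, x k j = 0)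
    (hv : ∀ t : K, gg a b (fun k j => if k = i then u j else t * x k j) = 0) :
    ∑ j, u j * (2 * x i j ^ 2 - ∑ k, x k j ^ 2) = 0 := by
  have h0 : rpoly i u x = 0 := by
    apply Polynomial.funext
    intro t
    rw [rpoly_eval h, hv, eval_zero]
  have h1 := rpoly_coeff_two i u x
  rw [h0, coeff_zero] at h1
  have h2 : ∑ σ : Perm α, u (σ i) *
      ∑ a ∈ univ.erase i, ∑ b ∈ (univ.erase i).erase a, x a (σ a) * x b (σ b) = 0 := by
    have h3 : ∀ σ : Perm α, u (σ i) *
      ∑ a ∈ univ.erase i, ∑ b ∈ (univ.erase i).erase a, x a (σ a) * x b (σ b) =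
      2 * (u (σ i) * ∑ S ∈ powersetCard 2 (univ.erase i), ∏ l ∈ S, x l (σ l)) := by
      intro σ
      have h4 := two_mul_powersetCard_two (K := K) (univ.erase i) (fun l => x l (σ l))
      have h5 := sum_sum_erase (K := K) (univ.erase i) (fun l => x l (σ l))
      rw [h5, ← h4]
      ring
    rw [sum_congr rfl fun σ _ => h3 σ, ← mul_sum]
    linear_combination (-2 / 3 : K) * h1
  have h3 : ∑ a ∈ univ.erase i, ∑ b ∈ (univ.erase i).erase a,
      ∑ σ : Perm α, u (σ i) * (x a (σ a) * x b (σ b)) = 0 := by
    rw [← h2]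
    simp only [mul_sum]
    rw [sum_comm' (s := univ) (t := fun _ => univ.erase i) (t' := univ.erase i)
      (s' := fun _ => univ) (by simp)]
    refine sum_congr rfl fun a _ => ?_
    rw [sum_comm]
  have h4 : ∀ a ∈ univ.erase i, ∀ b ∈ (univ.erase i).erase a,
      ((Fintype.card α : K) - 1) * ((Fintype.card α : K) - 2) *
        ∑ σ : Perm α, u (σ i) * (x a (σ a) * x b (σ b)) =
      2 * cc K α * ∑ j, u j * (x a j * x b j) := by
    intro a ha b hb
    have hia : i ≠ a := (mem_erase.mp ha).1.symm
    have hba : b ≠ a := (mem_erase.mp hb).1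
    have hib : i ≠ b := (mem_erase.mp (mem_erase.mp hb).2).1.symm
    rw [triple_formula hia hib hba.symm u (x a) (x b) hu (hr a) (hr b), mul_assoc]
    congr 2
    refine sum_congr rfl fun j _ => ?_
    ring
  have h5 : 2 * cc K α * ∑ a ∈ univ.erase i, ∑ b ∈ (univ.erase i).erase a,
      ∑ j, u j * (x a j * x b j) = 0 := by
    rw [mul_sum]
    simp only [mul_sum (a := 2 * cc K α)]
    calc _ = ∑ a ∈ univ.erase i, ∑ b ∈ (univ.erase i).erase a,
        ((Fintype.card α : K) - 1) * ((Fintype.card α : K) - 2) *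
        ∑ σ : Perm α, u (σ i) * (x a (σ a) * x b (σ b)) := by
          refine sum_congr rfl fun a ha => sum_congr rfl fun b hb => ?_
          rw [h4 a ha b hb, mul_sum]
      _ = _ := by
          simp only [← mul_sum]
          rw [h3, mul_zero]
  have hcc : (2 * cc K α) ≠ 0 := by
    haveI : Nonempty α := ⟨i⟩
    exact mul_ne_zero two_ne_zero cc_ne_zero
  have h6 := (mul_eq_zero.mp h5).resolve_left hcc
  rw [← h6]
  have h7 : ∑ a ∈ univ.erase i, ∑ b ∈ (univ.erase i).erase a, ∑ j, u j * (x a j * x b j) =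
      ∑ j, u j * ∑ a ∈ univ.erase i, ∑ b ∈ (univ.erase i).erase a, x a j * x b j := by
    simp only [mul_sum]
    rw [sum_comm' (s := univ) (t := fun _ => univ.erase i) (t' := univ.erase i)
      (s' := fun _ => univ) (by simp)]
    refine sum_congr rfl fun a _ => ?_
    rw [sum_comm]
  rw [h7]
  refine sum_congr rfl fun j _ => ?_
  rw [sum_sum_erase (K := K) (univ.erase i) (fun a => x a j)]
  have h8 : ∑ a ∈ univ.erase i, x a j = - x i j := by
    have := hc j
    rw [← add_sum_erase univ _ (mem_univ i)] at this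
    linear_combination this
  have h9 : ∑ a ∈ univ.erase i, x a j ^ 2 = (∑ k, x k j ^ 2) - x i j ^ 2 := by
    rw [← add_sum_erase univ (fun k => x k j ^ 2) (mem_univ i)]
    ring
  rw [h8, h9]
  ring

end Pool.Agent.Work.MP_499dc6_lc.Dc
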