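import Mathlib

set_option autoImplicit false
set_option linter.unusedSectionVars false
set_option linter.style.haveILetI false

open Finset Polynomial Matrix

namespace Pool.Agent.Work.MP_499dc6_lc.Dc

variable {K : Type*} [Field K] {m : Type*} [Fintype m] [DecidableEq m]

/-- the pencil `E + X N` over the polynomial ring -/
noncomputable def pen (E N : Matrix m m K) : Matrix m m K[X] := E.map C + (X : K[X]) • N.map C

lemma pen_map (E N : Matrix m m K) (s : K) :
    (pen E N).map (evalRingHom s) = E + s • N := by
  ext i j
  simp [pen]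
  exact mul_comm _ _

lemma det_row_zero (E N : Matrix m m K) (i0 : m) (hE : ∀ j, E i0 j = 0) :
    ∃ Q : K[X], (∀ s : K, (E + s • N).det = s * Q.eval s) ∧
      Q.eval 0 = (updateRow E i0 (N i0)).det := by
  refine ⟨(updateRow (pen E N) i0 (fun j => C (N i0 j))).det, ?_, ?_⟩
  · intro s
    have h1 : ((updateRow (pen E N) i0 (fun j => C (N i0 j))).det).eval s =
        (updateRow (E + s • N) i0 (N i0)).det := by
      rw [← coe_evalRingHom, RingHom.map_det]
      congr 1
      rw [RingHom.mapMatrix_apply, map_updateRow, pen_map]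
      congr 1
      ext j
      simp
    rw [h1, ← det_updateRow_smul]
    congr 1
    conv_lhs => rw [← updateRow_eq_self (E + s • N) i0]
    congr 1
    ext j
    simp [hE]
  · rw [← coe_evalRingHom, RingHom.map_det]
    congr 1
    rw [RingHom.mapMatrix_apply, map_updateRow, pen_map]
    simp only [zero_smul, add_zero]
    congr 1
    ext j
    simp

lemma det_row_col_zero (E N : Matrix m m K) (i0 : m) (hE : ∀ j, E i0 j = 0)
    (hE' : ∀ j, E j i0 = 0) (hN : N i0 i0 = 0) :
    ∃ Q : K[X], (∀ s : K, (E + s • N).det = s ^ 2 * Q.eval s) ∧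
      Q.eval 0 = (updateCol (updateRow E i0 (N i0)) i0 (fun j => N j i0)).det := by
  have key : ∀ s : K, ((updateCol (updateRow (pen E N) i0 (fun j => C (N i0 j))) i0
      (fun j => C (N j i0))).det).eval s =
      (updateCol (updateRow (E + s • N) i0 (N i0)) i0 (fun j => N j i0)).det := by
    intro s
    rw [← coe_evalRingHom, RingHom.map_det]
    congr 1
    rw [RingHom.mapMatrix_apply, map_updateCol, map_updateRow, pen_map]
    congr 1
    · congr 1
      ext j
      simp
    · ext j
      simp
  refine ⟨_, ?_, (key 0).trans ?_⟩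
  · intro s
    rw [key, sq, mul_assoc, ← det_updateCol_smul]
    have h2 : updateCol (updateRow (E + s • N) i0 (N i0)) i0 (s • fun j => N j i0) =
        updateRow (E + s • N) i0 (N i0) := by
      ext a b
      by_cases hb : b = i0
      · subst hb
        rw [updateCol_self]
        by_cases ha : a = b
        · subst ha
          simp [hN]
        · simp [updateRow_ne ha, hE']
      · rw [updateCol_ne hb]
    rw [h2, ← det_updateRow_smul]
    congr 1
    conv_lhs => rw [← updateRow_eq_self (E + s • N) i0]
    congr 1
    ext j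
    simp [hE]
  · simp

lemma det_two_rows_zero (E N : Matrix m m K) (i0 i1 : m) (h01 : i0 ≠ i1) (hE : ∀ j, E i0 j = 0)
    (hE' : ∀ j, E i1 j = 0) :
    ∃ Q : K[X], (∀ s : K, (E + s • N).det = s ^ 2 * Q.eval s) := by
  obtain ⟨Q, hQ, hQ0⟩ := det_row_zero E N i0 hE
  have h0 : Q.eval 0 = 0 := by
    rw [hQ0]
    apply det_eq_zero_of_row_eq_zero i1
    intro j
    rw [updateRow_ne h01.symm, hE']
  have hX : X ∣ Q := by
    rw [X_dvd_iff, coeff_zero_eq_eval_zero, h0]
  obtain ⟨P, hP⟩ := hX
  refine ⟨P, fun s => ?_⟩
  rw [hQ, hP]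
  simp
  ring

lemma det_updateRow_diagonal (D : m → K) (i0 : m) (r : m → K) :
    (updateRow (diagonal D) i0 r).det = r i0 * ∏ j ∈ univ.erase i0, D j := by
  rw [← cramer_transpose_apply, cramer_eq_adjugate_mulVec, diagonal_transpose, adjugate_diagonal,
    mulVec_diagonal]
  ring

lemma det_bordered (D : m → K) (i0 : m) (hD : ∀ j, j ≠ i0 → D j ≠ 0) (r c : m → K)
    (hr : r i0 = 0) (hc : c i0 = 0)
    (h : (updateCol (updateRow (diagonal D) i0 r) i0 c).det = 0) :
    ∑ j, r j * (c j / D j) = 0 := by
  obtain ⟨v, hv, hv0⟩ := exists_mulVec_eq_zero_iff.mpr h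
  have h1 : ∀ j, j ≠ i0 → v j = - (c j / D j) * v i0 := by
    intro j hj
    have := congrFun hv0 j
    rw [mulVec, dotProduct, ← add_sum_erase univ _ (mem_univ i0), ← add_sum_erase _ _
      (mem_erase.mpr ⟨hj, mem_univ j⟩)] at this
    rw [sum_eq_zero] at this
    · rw [updateCol_self, updateCol_ne hj, updateRow_ne hj, diagonal_apply_eq] at this
      have hDj := hD j hj
      simp only [Pi.zero_apply, add_zero] at this
      field_simp
      linear_combination this
    · intro k hk
      have hkj : k ≠ j := (mem_erase.mp hk).1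
      have hki : k ≠ i0 := (mem_erase.mp (mem_erase.mp hk).2).1
      rw [updateCol_ne hki, updateRow_ne hj, diagonal_apply_ne _ hkj.symm, zero_mul]
  have h2 := congrFun hv0 i0
  rw [mulVec, dotProduct] at h2
  have h3 : ∀ j, (updateCol (updateRow (diagonal D) i0 r) i0 c) i0 j * v j =
      - v i0 * (r j * (c j / D j)) := by
    intro j
    by_cases hj : j = i0
    · subst hj
      rw [updateCol_self, hc, hr]
      ring
    · rw [updateCol_ne hj, updateRow_self, h1 j hj]
      ring
  rw [sum_congr rfl fun j _ => h3 j, ← mul_sum] at h2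
  simp only [Pi.zero_apply] at h2
  rcases mul_eq_zero.mp h2 with h4 | h4
  · exfalso
    apply hv
    have h5 : v i0 = 0 := by simpa using h4
    ext j
    by_cases hj : j = i0
    · subst hj; simpa using h5
    · rw [h1 j hj, h5]; simp
  · exact h4

/-- orthogonal subspaces -/
lemma finrank_orth {J : Type*} [Fintype J] (A B : Submodule K (J → K))
    (h : ∀ a ∈ A, ∀ b ∈ B, ∑ j, a j * b j = 0) :
    Module.finrank K A + Module.finrank K B ≤ Fintype.card J := by
  classical
  have h0 := Subspace.finrank_add_finrank_dualAnnihilator_eq A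
  rw [Module.finrank_fintype_fun_eq_card] at h0
  rw [← h0]
  refine Nat.add_le_add_left ?_ _
  let T : (J → K) →ₗ[K] Module.Dual K (J → K) :=
    { toFun := fun b =>
        { toFun := fun a => ∑ j, a j * b j
          map_add' := by
            intro x y
            simp [add_mul, sum_add_distrib]
          map_smul' := by
            intro c x
            simp [mul_assoc, mul_sum] }
      map_add' := by
        intro x y
        ext
        simp [mul_add, sum_add_distrib]
      map_smul' := by
        intro c x
        ext
        simp [mul_left_comm, mul_sum] }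
  have hT : ∀ b a, T b a = ∑ j, a j * b j := fun _ _ => rfl
  have hB : ∀ b : B, T b ∈ A.dualAnnihilator := by
    intro b
    rw [Submodule.mem_dualAnnihilator]
    intro a ha
    rw [hT]
    exact h a ha b b.2
  let T' : B →ₗ[K] A.dualAnnihilator := (T.comp B.subtype).codRestrict _ hB
  apply LinearMap.finrank_le_finrank_of_injective (f := T')
  intro b b' hbb
  have h1 : T b = T b' := congrArg Subtype.val hbb
  ext j
  have h2 := congrArg (fun φ => φ (Pi.single j 1)) h1
  simpa [hT, Pi.single_apply] using h2

lemma iso_pair {J : Type*} [Fintype J] {V : Type*} [AddCommGroup V] [Module K V]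
    [FiniteDimensional K V] (ρ κ : V →ₗ[K] (J → K)) (D : J → K)
    (hD : ∀ j, D j ≠ 0) (h : ∀ v, ∑ j, ρ v j * (κ v j / D j) = 0) :
    Module.finrank K V ≤ Module.finrank K (LinearMap.ker ρ ⊓ LinearMap.ker κ : Submodule K V)
      + Fintype.card J := by
  classical
  let κ' : V →ₗ[K] (J → K) :=
    { toFun := fun v j => κ v j / D j
      map_add' := by
        intro x y
        ext j
        simp [add_div]
      map_smul' := by
        intro c x
        ext j
        simp [mul_div_assoc] }
  have hκ' : ∀ v j, κ' v j = κ v j / D j := fun _ _ => rfl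
  have hker : LinearMap.ker κ' = LinearMap.ker κ := by
    ext v
    rw [LinearMap.mem_ker, LinearMap.mem_ker]
    constructor
    · intro hv
      ext j
      have := congrFun hv j
      rw [hκ', Pi.zero_apply, div_eq_zero_iff] at this
      simpa using this.resolve_right (hD j)
    · intro hv
      ext j
      rw [hκ', hv]
      simp
  have hpol : ∀ v w, κ v = 0 → ∑ j, ρ v j * (κ w j / D j) = 0 := by
    intro v w hv
    have h1 := h (v + w)
    have h2 := h w
    rw [map_add, map_add, hv, zero_add] at h1
    simp only [Pi.add_apply, add_mul, sum_add_distrib] at h1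
    rw [h2, add_zero] at h1
    exact h1
  have horth := finrank_orth (Submodule.map ρ (LinearMap.ker κ)) (LinearMap.range κ') (by
    rintro a ⟨v, hv, rfl⟩ b ⟨w, rfl⟩
    exact hpol v w hv)
  have h1 := LinearMap.finrank_range_add_finrank_ker κ'
  have h2 := LinearMap.finrank_range_add_finrank_ker (ρ.domRestrict (LinearMap.ker κ))
  rw [LinearMap.range_domRestrict] at h2
  have h3 : Module.finrank K (LinearMap.ker (ρ.domRestrict (LinearMap.ker κ))) ≤
      Module.finrank K (LinearMap.ker ρ ⊓ LinearMap.ker κ : Submodule K V) := by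
    let f : LinearMap.ker (ρ.domRestrict (LinearMap.ker κ)) →ₗ[K]
        (LinearMap.ker ρ ⊓ LinearMap.ker κ : Submodule K V) :=
      ((LinearMap.ker κ).subtype.comp (LinearMap.ker
        (ρ.domRestrict (LinearMap.ker κ))).subtype).codRestrict _ (by
          intro c
          rw [Submodule.mem_inf]
          exact ⟨LinearMap.mem_ker.mp c.2, c.1.2⟩)
    apply LinearMap.finrank_le_finrank_of_injective (f := f)
    intro x y hxy
    have := congrArg Subtype.val hxy
    exact Subtype.ext (Subtype.ext this)
  rw [hker] at h1
  omega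

end Pool.Agent.Work.MP_499dc6_lc.Dc
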