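import Pool.Agent.Work.MP_499dc6_lc.DcC
import Pool.Agent.Work.MP_499dc6_lc.DcD

set_option autoImplicit false
set_option linter.unusedSectionVars false
set_option linter.style.haveILetI false

open Finset Polynomial

namespace Pool.Agent.Work.MP_499dc6_lc.Dc

variable {K : Type*} [Field K] [CharZero K] {α : Type*} [Fintype α] [DecidableEq α]
  {m : Type*} [Fintype m] [DecidableEq m]

/-- linearity of the permanent in a row -/
lemma per_row {β : Type*} [Fintype β] [DecidableEq β] (X : β → β → K) (r : β) (y : β → K) (s : K) :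
    per (fun k l => X k l + s * (if k = r then y l else 0)) =
      per X + s * per (fun k l => if k = r then y l else X k l) := by
  unfold per
  rw [mul_sum, ← sum_add_distrib]
  refine sum_congr rfl fun σ _ => ?_
  rw [← mul_prod_erase univ _ (mem_univ r), ← mul_prod_erase univ _ (mem_univ r),
    ← mul_prod_erase univ (fun k => if k = r then y (σ k) else X k (σ k)) (mem_univ r)]
  have h1 : ∏ x ∈ univ.erase r, (X x (σ x) + s * (if x = r then y (σ x) else 0)) =
      ∏ x ∈ univ.erase r, X x (σ x) := by
    refine prod_congr rfl fun x hx => ?_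
    rw [if_neg (mem_erase.mp hx).1]
    ring
  have h2 : ∏ x ∈ univ.erase r, (if x = r then y (σ x) else X x (σ x)) =
      ∏ x ∈ univ.erase r, X x (σ x) := by
    refine prod_congr rfl fun x hx => ?_
    rw [if_neg (mem_erase.mp hx).1]
  beta_reduce
  rw [h1, h2, if_pos rfl, if_pos rfl]
  ring

lemma per_transpose {β : Type*} [Fintype β] [DecidableEq β] (X : β → β → K) :
    per (fun k l => X l k) = per X := by
  unfold per
  rw [← Equiv.sum_comp (Equiv.inv (Equiv.Perm β))]
  refine sum_congr rfl fun σ _ => ?_
  rw [← Equiv.prod_comp σ]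
  simp

/-- The base point. -/
def base (a b : K) : Option (Option α) → Option (Option α) → K :=
  bord a 1 (bord b 1 (fun _ _ => 1))

/-- Embedding of the block. -/
def blk : (α → α → K) →ₗ[K] (Option (Option α) → Option (Option α) → K) where
  toFun v := bord 0 0 (bord 0 0 v)
  map_add' := by
    intro v w
    ext i j
    rcases i with _ | _ | i <;> rcases j with _ | _ | j <;> simp
  map_smul' := by
    intro c v
    ext i j
    rcases i with _ | _ | i <;> rcases j with _ | _ | j <;> simp

/-- A row of the base point plus `u`. -/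
def rdir (i : α) (u : α → K) : Option (Option α) → Option (Option α) → K :=
  fun k l => if k = some (some i) then l.elim 1 (fun l' => l'.elim 1 (fun l'' => 1 + u l'')) else 0

lemma base_blk (a b t : K) (v : α → α → K) :
    base a b + t • blk v = bord a 1 (bord b 1 (fun i j => 1 + t * v i j)) := by
  ext i j
  rcases i with _ | _ | i <;> rcases j with _ | _ | j <;> simp [base, blk]

lemma per_base_blk (a b t : K) (v : α → α → K) :
    per (base a b + t • blk v) = gg a b (fun i j => t * v i j) := by
  rw [base_blk]
  rfl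

lemma per_base_blk_rdir (a b t s : K) (v : α → α → K) (i : α) (u : α → K) :
    per (base a b + t • blk v + s • rdir i u) = gg a b (fun i j => t * v i j) +
      s * gg a b (fun k j => if k = i then u j else t * v k j) := by
  have h1 : (base a b + t • blk v + s • rdir i u) =
      (fun k l => (base a b + t • blk v : Option (Option α) → Option (Option α) → K) k l +
      s * (if k = some (some i) then
        (l.elim 1 (fun l' => l'.elim 1 (fun l'' => 1 + u l''))) else 0)) := by
    ext k l
    simp [rdir]
  rw [h1, per_row, per_base_blk]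
  congr 2
  unfold gg
  congr 1
  rw [base_blk]
  ext k l
  rcases k with _ | _ | k <;> rcases l with _ | _ | l <;> simp
  split_ifs <;> rfl

lemma gg_zero {a b : K} (h : Good α a b) : gg a b (fun _ _ : α => 0) = 0 := by
  obtain ⟨H, hH⟩ := gg_expand h (fun _ _ : α => (0 : K))
  have := hH 0
  simpa using this

lemma gg_row {a b : K} (h : Good α a b) (i : α) (u : α → K) (hu : ∑ j, u j = 0) :
    gg a b (fun k j => if k = i then u j else 0) = 0 := by
  rw [gg_eq h]
  have h1 : ∀ σ : Equiv.Perm α, ∑ S : Finset α, ((S.card : K) * ((S.card : K) - 2)) *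
      ∏ l ∈ S, (if l = i then u (σ l) else 0) = - u (σ i) := by
    intro σ
    rw [Finset.sum_eq_single {i}]
    · simp
      ring
    · intro S _ hS
      by_cases h0 : S = ∅
      · subst h0; simp
      · have : ∃ l ∈ S, l ≠ i := by
          by_contra hcon
          push Not at hcon
          apply hS
          ext l
          constructor
          · intro hl
            simpa using hcon l hl
          · intro hl
            obtain ⟨k, hk⟩ := Finset.nonempty_iff_ne_empty.mpr h0
            have := hcon k hk
            rw [mem_singleton] at hl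
            rw [hl, ← this]
            exact hk
        obtain ⟨l, hl, hli⟩ := this
        rw [prod_eq_zero hl (if_neg hli), mul_zero]
    · intro h
      exact absurd (mem_univ _) h
  rw [sum_congr rfl fun σ _ => h1 σ, sum_neg_distrib, sum_perm_apply, hu]
  simp

lemma poly_low (c e : K) (P Q : K[X]) (h : ∀ s : K, c + e * s + s ^ 2 * P.eval s = s ^ 2 * Q.eval s) :
    c = 0 ∧ e = 0 := by
  have h1 : C c + C e * X + X ^ 2 * P = X ^ 2 * Q := by
    apply Polynomial.funext
    intro s
    simpa using h s
  have h2 := congrArg (fun p => p.coeff 0) h1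
  have h3 := congrArg (fun p => p.coeff 1) h1
  simp only [coeff_add, coeff_X_pow_mul', coeff_C_mul, coeff_C, coeff_X] at h2 h3
  norm_num at h2 h3
  exact ⟨h2, h3⟩

lemma poly_eval_zero (Q P : K[X]) (h : ∀ s : K, s * Q.eval s = s ^ 2 * P.eval s) :
    Q.eval 0 = 0 := by
  have h1 : X * Q = X * (X * P) := by
    apply Polynomial.funext
    intro s
    simp only [eval_mul, eval_X]
    rw [h s]
    ring
  have h2 := mul_left_cancel₀ X_ne_zero h1
  rw [h2]
  simp

section main

variable {a b : K} (hg : Good α a b) (D : m → K)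
  (L : (Option (Option α) → Option (Option α) → K) →ₗ[K] Matrix m m K)
  (hdet : ∀ w, per (base a b + w) = (Matrix.diagonal D + L w).det)

include hg hdet

lemma det_blk (t : K) (v : α → α → K) :
    (Matrix.diagonal D + t • L (blk v)).det = gg a b (fun i j => t * v i j) := by
  rw [← map_smul, ← hdet, per_base_blk]

lemma exists_zero : ∃ i0, D i0 = 0 := by
  have h1 := det_blk hg D L hdet 0 (fun _ _ => 0)
  simp only [zero_smul, add_zero, mul_zero] at h1
  rw [gg_zero hg, Matrix.det_diagonal, prod_eq_zero_iff] at h1
  obtain ⟨i, _, hi⟩ := h1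
  exact ⟨i, hi⟩

lemma ne_zero_of_ne [Nonempty α] {i0 : m} (h0 : D i0 = 0) (j : m) (hj : j ≠ i0) : D j ≠ 0 := by
  intro hDj
  obtain ⟨Q, hQ⟩ := det_two_rows_zero (Matrix.diagonal D) (L (blk fun _ _ => 1)) i0 j hj.symm
    (by
      intro l
      by_cases hl : i0 = l
      · subst hl; simpa using h0
      · exact Matrix.diagonal_apply_ne _ hl)
    (by
      intro l
      by_cases hl : j = l
      · subst hl; simpa using hDj
      · exact Matrix.diagonal_apply_ne _ hl)
  obtain ⟨H, hH⟩ := gg_expand hg (fun _ _ : α => (1 : K))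
  have h1 := poly_low 0 (- (cc K α * tot (fun _ _ : α => (1 : K)))) (X * H) Q (by
    intro s
    rw [← hQ, det_blk hg D L hdet, hH]
    simp
    ring)
  have h2 := h1.2
  rw [neg_eq_zero, mul_eq_zero] at h2
  rcases h2 with h2 | h2
  · exact cc_ne_zero h2
  · simp only [tot, sum_const, card_univ, nsmul_eq_mul, mul_one, mul_eq_zero, or_self] at h2
    exact Fintype.card_ne_zero (by exact_mod_cast h2)

lemma corner_zero [Nonempty α] {i0 : m} (h0 : D i0 = 0)
    (w : Option (Option α) → Option (Option α) → K) (P : K[X])
    (hP : ∀ s : K, per (base a b + s • w) = s ^ 2 * P.eval s) : L w i0 i0 = 0 := by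
  obtain ⟨Q, hQ, hQ0⟩ := det_row_zero (Matrix.diagonal D) (L w) i0
    (by
      intro l
      by_cases hl : i0 = l
      · subst hl; simpa using h0
      · exact Matrix.diagonal_apply_ne _ hl)
  have h1 := poly_eval_zero Q P (by
    intro s
    rw [← hQ, ← map_smul, ← hdet, hP])
  rw [hQ0, det_updateRow_diagonal, mul_eq_zero] at h1
  rcases h1 with h1 | h1
  · exact h1
  · exfalso
    rw [prod_eq_zero_iff] at h1
    obtain ⟨j, hj, hDj⟩ := h1
    exact ne_zero_of_ne hg D L hdet h0 j (mem_erase.mp hj).1 hDj

lemma corner_blk [Nonempty α] {i0 : m} (h0 : D i0 = 0) (v : α → α → K) (hv : tot v = 0) :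
    L (blk v) i0 i0 = 0 := by
  obtain ⟨H, hH⟩ := gg_expand hg v
  refine corner_zero hg D L hdet h0 (blk v) (X * H) ?_
  intro s
  rw [per_base_blk, hH, hv]
  simp
  ring

lemma isotropic [Nonempty α] {i0 : m} (h0 : D i0 = 0) (v : α → α → K) (hv : tot v = 0) :
    ∑ j, L (blk v) i0 j * (L (blk v) j i0 / D j) = 0 := by
  have hc := corner_blk hg D L hdet h0 v hv
  obtain ⟨Q, hQ, hQ0⟩ := det_row_col_zero (Matrix.diagonal D) (L (blk v)) i0
    (by
      intro l
      by_cases hl : i0 = l
      · subst hl; simpa using h0
      · exact Matrix.diagonal_apply_ne _ hl)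
    (by
      intro l
      by_cases hl : l = i0
      · subst hl; simpa using h0
      · exact Matrix.diagonal_apply_ne _ hl) hc
  refine det_bordered D i0 (ne_zero_of_ne hg D L hdet h0) _ _ hc hc ?_
  rw [← hQ0]
  obtain ⟨H, hH⟩ := gg_expand hg v
  refine poly_eval_zero Q H ?_
  intro s
  by_cases hs : s = 0
  · subst hs; simp
  · have h1 := hQ s
    rw [det_blk hg D L hdet, hH, hv] at h1
    have h2 : s * (s * Q.eval s) = s * (s ^ 2 * H.eval s) := by
      linear_combination -h1
    exact mul_left_cancel₀ hs h2

lemma corner_rdir [Nonempty α] {i0 : m} (h0 : D i0 = 0) (i : α) (u : α → K) (hu : ∑ j, u j = 0) :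
    L (rdir i u) i0 i0 = 0 := by
  refine corner_zero hg D L hdet h0 (rdir i u) 0 ?_
  intro s
  have h1 := per_base_blk_rdir a b 0 s (fun _ _ => 0) i u
  simp only [zero_smul, add_zero, mul_zero] at h1
  rw [h1, gg_zero hg, gg_row hg i u hu]
  simp

lemma vanish [Nonempty α] {i0 : m} (h0 : D i0 = 0) (x : α → α → K)
    (h1 : ∀ j, L (blk x) i0 j = 0) (h2 : ∀ j, L (blk x) j i0 = 0)
    (i : α) (u : α → K) (hu : ∑ j, u j = 0) (t : K) :
    gg a b (fun k j => if k = i then u j else t * x k j) = 0 := by
  obtain ⟨Q, hQ, -⟩ := det_row_col_zero (Matrix.diagonal D + t • L (blk x)) (L (rdir i u)) i0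
    (by
      intro l
      rw [Matrix.add_apply, Matrix.smul_apply, h1]
      by_cases hl : i0 = l
      · subst hl; simpa using h0
      · rw [Matrix.diagonal_apply_ne _ hl]; simp)
    (by
      intro l
      rw [Matrix.add_apply, Matrix.smul_apply, h2]
      by_cases hl : l = i0
      · subst hl; simpa using h0
      · rw [Matrix.diagonal_apply_ne _ hl]; simp) (corner_rdir hg D L hdet h0 i u hu)
  refine (poly_low (gg a b (fun i j => t * x i j))
    (gg a b (fun k j => if k = i then u j else t * x k j)) 0 Q ?_).2
  intro s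
  have h3 : Matrix.diagonal D + t • L (blk x) + s • L (rdir i u) =
      Matrix.diagonal D + L (t • blk x + s • rdir i u) := by
    rw [map_add, map_smul, map_smul, add_assoc]
  rw [← hQ, h3, ← hdet, ← add_assoc, per_base_blk_rdir]
  simp
  ring

lemma row_sum [Nonempty α] {i0 : m} (h0 : D i0 = 0) (x : α → α → K) (hx : tot x = 0)
    (h1 : ∀ j, L (blk x) i0 j = 0) (h2 : ∀ j, L (blk x) j i0 = 0) (i : α) :
    ∑ j, x i j = 0 := by
  obtain ⟨H, hH⟩ := gg_expand hg (fun k j => if k = i then 0 else x k j)
  have h3 := (poly_low 0 (- (cc K α * tot (fun k j => if k = i then 0 else x k j))) (X * H) 0 (by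
    intro s
    have h4 := hH s
    have h5 := vanish hg D L hdet h0 x h1 h2 i (fun _ => 0) (by simp) s
    have h6 : (fun k j => s * (if k = i then 0 else x k j)) =
        (fun k j => if k = i then 0 else s * x k j) := by
      ext k j
      split_ifs <;> simp
    rw [h6, h5] at h4
    simp only [eval_mul, eval_X, eval_zero, mul_zero, zero_add]
    linear_combination -h4)).2
  rw [neg_eq_zero, mul_eq_zero] at h3
  have h4 := h3.resolve_left cc_ne_zero
  have h5 : tot (fun k j => if k = i then 0 else x k j) = tot x - ∑ j, x i j := by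
    unfold tot
    rw [← add_sum_erase univ _ (mem_univ i), ← add_sum_erase univ (fun i => ∑ j, x i j)
      (mem_univ i)]
    have h6 : ∑ k ∈ univ.erase i, ∑ j, (if k = i then 0 else x k j) =
        ∑ k ∈ univ.erase i, ∑ j, x k j := by
      refine sum_congr rfl fun k hk => ?_
      simp [(mem_erase.mp hk).1]
    rw [h6]
    simp
  rw [h5, hx] at h4
  linear_combination -h4

end main

lemma base_symm (a b : K) (k l : Option (Option α)) : base a b k l = base a b l k := by
  rcases k with _ | _ | k <;> rcases l with _ | _ | l <;> rfl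

/-- transposition as a linear map -/
def tr (β : Type*) : (β → β → K) →ₗ[K] (β → β → K) where
  toFun v := fun k l => v l k
  map_add' := fun _ _ => rfl
  map_smul' := fun _ _ => rfl

lemma tr_blk (v : α → α → K) : tr (Option (Option α)) (blk v) = blk (tr α v) := by
  ext k l
  rcases k with _ | _ | k <;> rcases l with _ | _ | l <;> rfl

lemma hdet_tr {a b : K} (D : m → K)
    (L : (Option (Option α) → Option (Option α) → K) →ₗ[K] Matrix m m K)
    (hdet : ∀ w, per (base a b + w) = (Matrix.diagonal D + L w).det) :
    ∀ w, per (base a b + w) = (Matrix.diagonal D + (L.comp (tr _)) w).det := by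
  intro w
  rw [LinearMap.comp_apply, ← hdet, ← per_transpose]
  congr 1
  ext k l
  simp only [Pi.add_apply]
  rw [base_symm]
  rfl

/-- the squares are constant -/
lemma sq_const (hcard : Fintype.card α ≠ 2) (q : α → α → K)
    (h1 : ∀ i (u : α → K), ∑ j, u j = 0 → ∑ j, u j * (2 * q i j - ∑ k, q k j) = 0)
    (i j j' : α) : q i j = q i j' := by
  have h2 : ∀ i j j', 2 * q i j - ∑ k, q k j = 2 * q i j' - ∑ k, q k j' := by
    intro i j j'
    by_cases hjj : j = j'
    · subst hjj; rfl
    · have h3 := h1 i (fun l => (if l = j then 1 else 0) - (if l = j' then 1 else 0)) (by simp)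
      simp only [sub_mul, ite_mul, one_mul, zero_mul, sum_sub_distrib, sum_ite_eq', mem_univ,
        if_true] at h3
      linear_combination h3
  have h3 : (2 - (Fintype.card α : K)) * (∑ k, q k j) = (2 - (Fintype.card α : K)) *
      (∑ k, q k j') := by
    have h4 : ∑ i, (2 * q i j - ∑ k, q k j) = ∑ i, (2 * q i j' - ∑ k, q k j') :=
      sum_congr rfl fun i _ => h2 i j j'
    simp only [sum_sub_distrib, ← mul_sum, sum_const, card_univ, nsmul_eq_mul] at h4
    linear_combination h4
  have h4 : (2 - (Fintype.card α : K)) ≠ 0 := by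
    intro h5
    apply hcard
    have : (Fintype.card α : K) = (2 : ℕ) := by
      push_cast
      linear_combination -h5
    exact_mod_cast this
  have h5 := mul_left_cancel₀ h4 h3
  have h6 := h2 i j j'
  rw [h5] at h6
  have h7 : (2 : K) * q i j = 2 * q i j' := by linear_combination h6
  exact mul_left_cancel₀ two_ne_zero h7

lemma finrank_le_of_sq (F : Submodule K (α → α → K))
    (hF : ∀ x ∈ F, ∀ i j i' j', x i j ^ 2 = x i' j' ^ 2) : Module.finrank K F ≤ 1 := by
  by_cases h : ∀ x ∈ F, x = 0
  · have : F = ⊥ := by
      rw [eq_bot_iff]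
      intro x hx
      rw [Submodule.mem_bot]
      exact h x hx
    rw [this]
    simp
  · push Not at h
    obtain ⟨x, hx, hx0⟩ := h
    have h1 : ∃ i j, x i j ≠ 0 := by
      by_contra hcon
      push Not at hcon
      apply hx0
      ext i j
      exact hcon i j
    obtain ⟨i, j, hij⟩ := h1
    refine finrank_le_one (⟨x, hx⟩ : F) ?_
    rintro ⟨y, hy⟩
    refine ⟨y i j / x i j, ?_⟩
    ext k l
    have h2 := hF _ (F.sub_mem hy (F.smul_mem (y i j / x i j) hx)) k l i j
    have h3 : (y - (y i j / x i j) • x) i j = 0 := by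
      simp only [Pi.sub_apply, Pi.smul_apply, smul_eq_mul]
      field_simp
      ring
    rw [h3] at h2
    have h4 : (y - (y i j / x i j) • x) k l = 0 := by
      apply pow_eq_zero_iff (two_ne_zero) |>.mp
      rw [h2]
      simp
    simp only [Pi.sub_apply, Pi.smul_apply, smul_eq_mul] at h4
    simp only [Submodule.coe_smul, Pi.smul_apply, smul_eq_mul]
    linear_combination -h4

end Pool.Agent.Work.MP_499dc6_lc.Dc
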