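import Pool.Agent.Work.MP_499dc6_lc.DcE

set_option autoImplicit false
set_option linter.unusedSectionVars false
set_option linter.style.haveILetI false

open Finset Polynomial

namespace Pool.Agent.Work.MP_499dc6_lc.Dc

variable {K : Type*} [Field K] [CharZero K] {α : Type*} [Fintype α] [DecidableEq α]
  {m : Type*} [Fintype m] [DecidableEq m]

/-- total sum as a linear map -/
def totL (K α : Type*) [Field K] [Fintype α] : (α → α → K) →ₗ[K] K where
  toFun v := ∑ i, ∑ j, v i j
  map_add' := by
    intro v w
    simp [sum_add_distrib]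
  map_smul' := by
    intro c v
    simp [mul_sum]

lemma finrank_arr : Module.finrank K (α → α → K) = Fintype.card α ^ 2 := by
  rw [Module.finrank_pi_fintype]
  simp [sq]

/-- The arrays of total sum zero. -/
def TT (K α : Type*) [Field K] [Fintype α] : Submodule K (α → α → K) := LinearMap.ker (totL K α)

lemma mem_TT (v : α → α → K) : v ∈ TT K α ↔ tot v = 0 := LinearMap.mem_ker

lemma finrank_TT : Fintype.card α ^ 2 ≤ Module.finrank K (TT K α) + 1 := by
  have h1 := LinearMap.finrank_range_add_finrank_ker (totL K α)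
  rw [finrank_arr] at h1
  have h2 : Module.finrank K (LinearMap.range (totL K α)) ≤ 1 := by
    refine (Submodule.finrank_le _).trans ?_
    simp
  change _ ≤ Module.finrank K (LinearMap.ker (totL K α)) + 1
  omega

/-- On the directions where both the row and the column vanish, the space is at most a line. -/
lemma finrank_le_one_of_vanish {a b : K} (hg : Good α a b) (hcard : 3 ≤ Fintype.card α) (D : m → K)
    (L : (Option (Option α) → Option (Option α) → K) →ₗ[K] Matrix m m K)
    (hdet : ∀ w, per (base a b + w) = (Matrix.diagonal D + L w).det)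
    {i0 : m} (h0 : D i0 = 0) (F : Submodule K (α → α → K))
    (hF : ∀ x ∈ F, tot x = 0 ∧ (∀ j, L (blk x) i0 j = 0) ∧ (∀ j, L (blk x) j i0 = 0)) :
    Module.finrank K F ≤ 1 := by
  haveI : Nonempty α := Fintype.card_pos_iff.mp (by omega)
  apply finrank_le_of_sq
  intro x' hx'
  obtain ⟨hx0, hxr, hxc⟩ := hF x' hx'
  have hv := vanish hg D L hdet h0 x' hxr hxc
  have hr := row_sum hg D L hdet h0 x' hx0 hxr hxc
  have hdet' := hdet_tr D L hdet
  have htr : ∀ k l, (L.comp (tr _)) (blk (tr α x')) k l = L (blk x') k l := by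
    intro k l
    rw [LinearMap.comp_apply, tr_blk]
    rfl
  have hx0' : tot (tr α x') = 0 := by
    rw [← hx0]
    exact sum_comm
  have hxr' : ∀ j, (L.comp (tr _)) (blk (tr α x')) i0 j = 0 := by
    intro j
    rw [htr, hxr]
  have hxc' : ∀ j, (L.comp (tr _)) (blk (tr α x')) j i0 = 0 := by
    intro j
    rw [htr, hxc]
  have hv' := vanish hg D _ hdet' h0 (tr α x') hxr' hxc'
  have hr' := row_sum hg D _ hdet' h0 (tr α x') hx0' hxr' hxc'
  have hc2 : Fintype.card α ≠ 2 := by omega
  have hq1 := sq_const hc2 (fun i j => x' i j ^ 2) (fun i u hu =>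
    cubic_row hg i u hu x' hr hr' (fun t => hv i u hu t))
  have hq2 := sq_const hc2 (fun i j => x' j i ^ 2) (fun i u hu =>
    cubic_row hg i u hu (tr α x') hr' hr (fun t => hv' i u hu t))
  intro i j i' j'
  rw [hq1 i j j']
  exact hq2 j' i i'

/-- Row `i0` of the linear part on the block, off the diagonal. -/
def rowL (L : (Option (Option α) → Option (Option α) → K) →ₗ[K] Matrix m m K) (i0 : m) :
    TT K α →ₗ[K] ({j : m // j ≠ i0} → K) where
  toFun := fun v j => L (blk v) i0 j
  map_add' := by
    intro v w
    ext j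
    simp
  map_smul' := by
    intro c v
    ext j
    simp

/-- Column `i0` of the linear part on the block, off the diagonal. -/
def colL (L : (Option (Option α) → Option (Option α) → K) →ₗ[K] Matrix m m K) (i0 : m) :
    TT K α →ₗ[K] ({j : m // j ≠ i0} → K) where
  toFun := fun v j => L (blk v) j i0
  map_add' := by
    intro v w
    ext j
    simp
  map_smul' := by
    intro c v
    ext j
    simp

lemma iso_sub [Nonempty α] {a b : K} (hg : Good α a b) (D : m → K)
    (L : (Option (Option α) → Option (Option α) → K) →ₗ[K] Matrix m m K)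
    (hdet : ∀ w, per (base a b + w) = (Matrix.diagonal D + L w).det)
    {i0 : m} (h0 : D i0 = 0) (v : TT K α) :
    ∑ j, rowL L i0 v j * (colL L i0 v j / D j) = 0 := by
  have h1 := isotropic hg D L hdet h0 v ((mem_TT _).mp v.2)
  rw [← add_sum_erase univ _ (mem_univ i0), corner_blk hg D L hdet h0 v ((mem_TT _).mp v.2),
    zero_mul, zero_add] at h1
  have h2 := sum_subtype (F := inferInstance) (p := fun j => j ≠ i0) (univ.erase i0) (by simp)
    (fun j => L (blk v) i0 j * (L (blk v) j i0 / D j))
  exact h2.symm.trans h1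

lemma finrank_ker_le {a b : K} (hg : Good α a b) (hcard : 3 ≤ Fintype.card α) (D : m → K)
    (L : (Option (Option α) → Option (Option α) → K) →ₗ[K] Matrix m m K)
    (hdet : ∀ w, per (base a b + w) = (Matrix.diagonal D + L w).det)
    {i0 : m} (h0 : D i0 = 0) :
    Module.finrank K (LinearMap.ker (rowL L i0) ⊓ LinearMap.ker (colL L i0) :
      Submodule K (TT K α)) ≤ 1 := by
  haveI : Nonempty α := Fintype.card_pos_iff.mp (by omega)
  rw [← Submodule.finrank_map_subtype_eq]
  apply finrank_le_one_of_vanish hg hcard D L hdet h0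
  rintro x ⟨⟨x', hx'⟩, hx, rfl⟩
  have hx0 : tot x' = 0 := (mem_TT _).mp hx'
  refine ⟨hx0, ?_, ?_⟩
  · intro j
    by_cases hj : j = i0
    · subst hj
      exact corner_blk hg D L hdet h0 x' hx0
    · exact congrFun (LinearMap.mem_ker.mp (Submodule.mem_inf.mp hx).1) ⟨j, hj⟩
  · intro j
    by_cases hj : j = i0
    · subst hj
      exact corner_blk hg D L hdet h0 x' hx0
    · exact congrFun (LinearMap.mem_ker.mp (Submodule.mem_inf.mp hx).2) ⟨j, hj⟩

lemma card_ne (i0 : m) : Fintype.card {j : m // j ≠ i0} + 1 = Fintype.card m := by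
  have hm : 1 ≤ Fintype.card m := Fintype.card_pos_iff.mpr ⟨i0⟩
  have : Fintype.card {j : m // j ≠ i0} = Fintype.card m - 1 := by
    simp [Fintype.card_subtype_compl]
  omega

theorem main_bound {a b : K} (hg : Good α a b) (hcard : 3 ≤ Fintype.card α) (D : m → K)
    (L : (Option (Option α) → Option (Option α) → K) →ₗ[K] Matrix m m K)
    (hdet : ∀ w, per (base a b + w) = (Matrix.diagonal D + L w).det) :
    Fintype.card α ^ 2 ≤ Fintype.card m + 1 := by
  haveI : Nonempty α := Fintype.card_pos_iff.mp (by omega)
  obtain ⟨i0, h0⟩ := exists_zero hg D L hdet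
  have hne := ne_zero_of_ne hg D L hdet h0
  have hiso := iso_pair (rowL L i0) (colL L i0) (fun j => D j) (fun j => hne j j.2)
    (iso_sub hg D L hdet h0)
  have hF := finrank_ker_le hg hcard D L hdet h0
  have h1 := card_ne i0
  have h2 := finrank_TT (K := K) (α := α)
  omega

theorem sym_bound {a b : K} (hg : Good α a b) (hcard : 3 ≤ Fintype.card α) (D : m → K)
    (L : (Option (Option α) → Option (Option α) → K) →ₗ[K] Matrix m m K)
    (hdet : ∀ w, per (base a b + w) = (Matrix.diagonal D + L w).det)
    (hsym : ∀ w i j, L w i j = L w j i) :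
    2 * Fintype.card α ^ 2 ≤ Fintype.card m + 3 := by
  haveI : Nonempty α := Fintype.card_pos_iff.mp (by omega)
  obtain ⟨i0, h0⟩ := exists_zero hg D L hdet
  have hne := ne_zero_of_ne hg D L hdet h0
  have hiso := iso_sub hg D L hdet h0
  have hF := finrank_ker_le hg hcard D L hdet h0
  have h1 := card_ne i0
  have h2 := finrank_TT (K := K) (α := α)
  have hrc : colL L i0 = rowL L i0 := by
    ext v j
    exact hsym _ _ _
  rw [hrc] at hiso hF
  rw [inf_idem] at hF
  -- the image of the row map is totally isotropic
  have hpol : ∀ v w : TT K α, ∑ j, rowL L i0 v j * (rowL L i0 w j / D j) = 0 := by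
    intro v w
    have e1 := hiso v
    have e2 := hiso w
    have e3 := hiso (v + w)
    rw [map_add] at e3
    have e4 : ∑ j, (rowL L i0 v + rowL L i0 w) j * ((rowL L i0 v + rowL L i0 w) j / D j) =
        ∑ j, rowL L i0 v j * (rowL L i0 v j / D j) + ∑ j, rowL L i0 w j * (rowL L i0 w j / D j)
        + 2 * ∑ j, rowL L i0 v j * (rowL L i0 w j / D j) := by
      rw [mul_sum, ← sum_add_distrib, ← sum_add_distrib]
      refine sum_congr rfl fun j _ => ?_
      simp only [Pi.add_apply]
      ring
    rw [e4, e1, e2, zero_add, zero_add] at e3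
    exact (mul_eq_zero.mp e3).resolve_left two_ne_zero
  let sc : ({j : m // j ≠ i0} → K) →ₗ[K] ({j : m // j ≠ i0} → K) :=
    { toFun := fun y j => y j / D j
      map_add' := by
        intro x y
        ext j
        simp [add_div]
      map_smul' := by
        intro c x
        ext j
        simp [mul_div_assoc] }
  have hsc : Function.Injective sc := by
    intro x y hxy
    ext j
    have := congrFun hxy j
    change x j / D j = y j / D j at this
    exact (div_left_inj' (hne j j.2)).mp this
  have h3 := finrank_orth (LinearMap.range (rowL L i0))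
    (Submodule.map sc (LinearMap.range (rowL L i0))) (by
      rintro x ⟨v, rfl⟩ y ⟨_, ⟨w, rfl⟩, rfl⟩
      exact hpol v w)
  have h4 : Module.finrank K (Submodule.map sc (LinearMap.range (rowL L i0))) =
      Module.finrank K (LinearMap.range (rowL L i0)) :=
    LinearEquiv.finrank_eq (Submodule.equivMapOfInjective sc hsc _).symm
  have h5 := LinearMap.finrank_range_add_finrank_ker (rowL L i0)
  omega

end Pool.Agent.Work.MP_499dc6_lc.Dc
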