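import Pool.Agent.Work.MP_499dc6_lc.DcF

set_option autoImplicit false
set_option linter.unusedSectionVars false
set_option linter.style.haveILetI false

open Finset

namespace Pool.Agent.Work.MP_499dc6_lc.Dc

section affine

variable {K : Type*} [Field K] {ι : Type*} [Fintype ι] [DecidableEq ι]

/-- A polynomial of degree at most one is affine. -/
lemma eq_affine (p : MvPolynomial ι K) (hp : p.totalDegree ≤ 1) :
    p = MvPolynomial.C (p.coeff 0) +
      ∑ i, MvPolynomial.C (p.coeff (Finsupp.single i 1)) * MvPolynomial.X i := by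
  ext d
  rw [MvPolynomial.coeff_add, MvPolynomial.coeff_C, MvPolynomial.coeff_sum]
  simp only [MvPolynomial.coeff_C_mul, MvPolynomial.coeff_X]
  by_cases h0 : d = 0
  · subst h0
    simp
  · rw [if_neg (Ne.symm h0), zero_add]
    by_cases h1 : ∃ i, d = Finsupp.single i 1
    · obtain ⟨i, rfl⟩ := h1
      rw [Finset.sum_eq_single i]
      · simp
      · intro j _ hj
        rw [if_neg, mul_zero]
        intro h
        exact hj (Finsupp.single_left_injective one_ne_zero h)
      · intro h
        exact absurd (mem_univ i) h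
    · push Not at h1
      rw [sum_eq_zero]
      · by_contra hne
        have h2 := MvPolynomial.le_totalDegree (MvPolynomial.mem_support_iff.mpr hne)
        have h3 : d.sum (fun _ e => e) ≤ 1 := h2.trans hp
        have h4 : d.degree ≤ 1 := h3
        rcases Nat.le_one_iff_eq_zero_or_eq_one.mp h4 with h5 | h5
        · exact h0 ((Finsupp.degree_eq_zero_iff d).mp h5)
        · have h6 : d ∈ Set.range (fun a : ι => Finsupp.single a 1) := by
            rw [Finsupp.range_single_one]
            exact h5
          obtain ⟨i, hi⟩ := h6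
          exact h1 i hi.symm
      · intro i _
        rw [if_neg (fun h => h1 i h.symm), mul_zero]

lemma eval_affine (p : MvPolynomial ι K) (hp : p.totalDegree ≤ 1) (x : ι → K) :
    MvPolynomial.eval x p = p.coeff 0 + ∑ i, p.coeff (Finsupp.single i 1) * x i := by
  conv_lhs => rw [eq_affine p hp]
  simp

end affine

section final

variable {K : Type*} [Field K] [CharZero K] {α : Type*} [Fintype α] [DecidableEq α]
  {m : Type*} [Fintype m] [DecidableEq m]

/-- Affine data extracted from a matrix of affine polynomials. -/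
lemma exists_linear {n : Type*} [Fintype n] [DecidableEq n]
    (M : Matrix m m (MvPolynomial (n × n) K)) (hdeg : ∀ i j, (M i j).totalDegree ≤ 1)
    (hdet : M.det = ∑ σ : Equiv.Perm n, ∏ i, MvPolynomial.X (i, σ i))
    (e : n ≃ Option (Option α)) (B : Option (Option α) → Option (Option α) → K) :
    ∃ (A0 : Matrix m m K) (L : (Option (Option α) → Option (Option α) → K) →ₗ[K] Matrix m m K),
      (∀ w, per (B + w) = (A0 + L w).det) ∧
      (M.IsSymm → A0.IsSymm ∧ ∀ w, (L w).IsSymm) := by
  let ev : (Option (Option α) → Option (Option α) → K) → (n × n → K) :=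
    fun w ij => w (e ij.1) (e ij.2)
  let L : (Option (Option α) → Option (Option α) → K) →ₗ[K] Matrix m m K :=
    { toFun := fun w => Matrix.of fun i j =>
        ∑ k, (M i j).coeff (Finsupp.single k 1) * ev w k
      map_add' := by
        intro v w
        ext i j
        simp [ev, mul_add, sum_add_distrib]
      map_smul' := by
        intro c v
        ext i j
        simp [ev, mul_sum, mul_left_comm] }
  have hL : ∀ w i j, L w i j = ∑ k, (M i j).coeff (Finsupp.single k 1) * ev w k :=
    fun _ _ _ => rfl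
  refine ⟨M.map (MvPolynomial.eval (ev B)), L, ?_, ?_⟩
  · intro w
    have h1 : M.map (MvPolynomial.eval (ev B)) + L w =
        M.map (MvPolynomial.eval (ev (B + w))) := by
      ext i j
      rw [Matrix.add_apply, Matrix.map_apply, Matrix.map_apply, hL, eval_affine _ (hdeg i j),
        eval_affine _ (hdeg i j)]
      have : ∀ k, ev (B + w) k = ev B k + ev w k := fun _ => rfl
      simp only [this, mul_add, sum_add_distrib]
      ring
    have h2 : (M.map (MvPolynomial.eval (ev (B + w)))).det =
        MvPolynomial.eval (ev (B + w)) M.det := by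
      rw [RingHom.map_det]
      rfl
    rw [h1, h2, hdet, map_sum]
    unfold per
    rw [← Equiv.sum_comp (Equiv.permCongr e)]
    refine sum_congr rfl fun σ _ => ?_
    rw [map_prod, ← Equiv.prod_comp e]
    refine prod_congr rfl fun i _ => ?_
    rw [MvPolynomial.eval_X]
    simp [ev]
  · intro hs
    have hs' : ∀ i j, M i j = M j i := fun i j => (hs.apply i j).symm
    refine ⟨?_, ?_⟩
    · ext i j
      rw [Matrix.transpose_apply, Matrix.map_apply, Matrix.map_apply, hs']
    · intro w
      ext i j
      rw [Matrix.transpose_apply, hL, hL, hs']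

/-- Over an algebraically closed field the corner entries exist. -/
lemma exists_good [IsAlgClosed K] : ∃ a b : K, Good α a b := by
  have h1 : ∃ a : K, a ^ 2 + (2 * (Fintype.card α : K) - 1) * a
      + ((Fintype.card α : K) ^ 2 - 2 * (Fintype.card α : K) - 1) = 0 := by
    have h2 : (Polynomial.C (1 : K) * Polynomial.X ^ 2
        + Polynomial.C (2 * (Fintype.card α : K) - 1) * Polynomial.X
        + Polynomial.C ((Fintype.card α : K) ^ 2 - 2 * (Fintype.card α : K) - 1)).degree ≠ 0 := by
      rw [Polynomial.degree_quadratic one_ne_zero]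
      decide
    obtain ⟨a, ha⟩ := IsAlgClosed.exists_root _ h2
    refine ⟨a, ?_⟩
    simpa using ha
  obtain ⟨a, ha⟩ := h1
  refine ⟨a, 1 - 2 * (Fintype.card α : K) - a, ?_, ?_⟩
  · ring
  · linear_combination -ha

/-- Determinantal complexity, evaluated form. -/
theorem dc_closed [IsAlgClosed K] {n : Type*} [Fintype n] [DecidableEq n]
    (M : Matrix m m (MvPolynomial (n × n) K)) (hdeg : ∀ i j, (M i j).totalDegree ≤ 1)
    (hdet : M.det = ∑ σ : Equiv.Perm n, ∏ i, MvPolynomial.X (i, σ i))
    (e : n ≃ Option (Option α)) (hcard : 3 ≤ Fintype.card α) :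
    Fintype.card α ^ 2 ≤ Fintype.card m + 1 := by
  obtain ⟨a, b, hg⟩ := exists_good (K := K) (α := α)
  obtain ⟨A0, L, hL, -⟩ := exists_linear M hdeg hdet e (base a b)
  obtain ⟨l1, l2, D, hD⟩ :=
    Matrix.Pivot.exists_list_transvec_mul_mul_list_transvec_eq_diagonal A0
  let P := (l1.map Matrix.TransvectionStruct.toMatrix).prod
  let Q := (l2.map Matrix.TransvectionStruct.toMatrix).prod
  let L' : (Option (Option α) → Option (Option α) → K) →ₗ[K] Matrix m m K :=
    (LinearMap.mulLeft K P).comp ((LinearMap.mulRight K Q).comp L)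
  refine main_bound hg hcard D L' ?_
  intro w
  have h1 : Matrix.diagonal D + L' w = P * (A0 + L w) * Q := by
    rw [← hD]
    simp only [L', LinearMap.comp_apply, LinearMap.mulLeft_apply, LinearMap.mulRight_apply]
    rw [Matrix.mul_add, Matrix.add_mul, Matrix.mul_assoc P (L w) Q]
  rw [h1, Matrix.det_mul, Matrix.det_mul, ← hL]
  simp [P, Q]

/-- Congruence diagonalisation with a determinant one matrix. -/
lemma exists_congr [Nonempty m] (A0 : Matrix m m K) (hA : A0.IsSymm) :
    ∃ (P : Matrix m m K) (D : m → K), P.det = 1 ∧ P.transpose * A0 * P = Matrix.diagonal D := by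
  classical
  haveI : Invertible (2 : K) := invertibleOfNonzero two_ne_zero
  have hB : LinearMap.IsSymm (Matrix.toBilin' A0) := by
    constructor
    intro x y
    rw [RingHom.id_apply, Matrix.toBilin'_apply', Matrix.toBilin'_apply',
      ← Matrix.dotProduct_transpose_mulVec, hA.eq]
  obtain ⟨v, hv⟩ := LinearMap.BilinForm.exists_orthogonal_basis hB
  have hcard : Fintype.card (Fin (Module.finrank K (m → K))) = Fintype.card m := by simp
  let e := Fintype.equivOfCardEq hcard
  let v' := v.reindex e
  let P1 : Matrix m m K := (Pi.basisFun K m).toMatrix v'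
  have hP1 : P1.det ≠ 0 := by
    have := (Pi.basisFun K m).isUnit_det v'
    rw [Module.Basis.det_apply] at this
    exact this.ne_zero
  have hdiag : ∀ i j, i ≠ j → (P1.transpose * A0 * P1) i j = 0 := by
    intro i j hij
    have h1 : (P1.transpose * A0 * P1) i j = Matrix.toBilin' A0 (v' i) (v' j) := by
      rw [Matrix.toBilin'_apply', Matrix.mul_assoc, Matrix.mul_apply']
      congr 1
    rw [h1]
    have h2 := LinearMap.isOrthoᵢ_def.mp hv (e.symm i) (e.symm j)
      (fun h => hij (e.symm.injective h))
    simpa [v'] using h2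
  obtain ⟨i1⟩ := ‹Nonempty m›
  let s : m → K := fun i => if i = i1 then P1.det⁻¹ else 1
  refine ⟨P1 * Matrix.diagonal s, fun i => s i * (P1.transpose * A0 * P1) i i * s i, ?_, ?_⟩
  · rw [Matrix.det_mul, Matrix.det_diagonal, prod_ite_eq' univ i1 (fun _ => P1.det⁻¹),
      if_pos (mem_univ i1), mul_inv_cancel₀ hP1]
  · rw [Matrix.transpose_mul, Matrix.diagonal_transpose]
    have h3 : Matrix.diagonal s * P1.transpose * A0 * (P1 * Matrix.diagonal s) =
        Matrix.diagonal s * (P1.transpose * A0 * P1) * Matrix.diagonal s := by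
      simp only [Matrix.mul_assoc]
    rw [h3]
    ext i j
    rw [Matrix.mul_diagonal, Matrix.diagonal_mul]
    by_cases hij : i = j
    · subst hij
      simp
    · rw [hdiag i j hij, Matrix.diagonal_apply_ne _ hij]
      ring

/-- Symmetric determinantal complexity, evaluated form. -/
theorem sdc_closed [IsAlgClosed K] {n : Type*} [Fintype n] [DecidableEq n]
    (M : Matrix m m (MvPolynomial (n × n) K)) (hdeg : ∀ i j, (M i j).totalDegree ≤ 1)
    (hsym : M.IsSymm)
    (hdet : M.det = ∑ σ : Equiv.Perm n, ∏ i, MvPolynomial.X (i, σ i))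
    (e : n ≃ Option (Option α)) (hcard : 3 ≤ Fintype.card α) :
    2 * Fintype.card α ^ 2 ≤ Fintype.card m + 3 := by
  obtain ⟨a, b, hg⟩ := exists_good (K := K) (α := α)
  obtain ⟨A0, L, hL, hLs⟩ := exists_linear M hdeg hdet e (base a b)
  obtain ⟨hA0, hLs⟩ := hLs hsym
  haveI : Nonempty m := by
    by_contra hne
    rw [not_nonempty_iff] at hne
    have h1 := hL 0
    rw [Matrix.det_isEmpty, add_zero] at h1
    have h2 := per_base_blk a b 0 (fun _ _ : α => (0 : K))
    simp only [zero_smul, add_zero, mul_zero] at h2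
    rw [h2, gg_zero hg] at h1
    exact zero_ne_one h1
  obtain ⟨P, D, hP, hD⟩ := exists_congr A0 hA0
  let L' : (Option (Option α) → Option (Option α) → K) →ₗ[K] Matrix m m K :=
    (LinearMap.mulLeft K P.transpose).comp ((LinearMap.mulRight K P).comp L)
  have hL' : ∀ w, L' w = P.transpose * L w * P := by
    intro w
    simp only [L', LinearMap.comp_apply, LinearMap.mulLeft_apply, LinearMap.mulRight_apply]
    rw [Matrix.mul_assoc]
  refine sym_bound hg hcard D L' ?_ ?_
  · intro w
    have h1 : Matrix.diagonal D + L' w = P.transpose * (A0 + L w) * P := by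
      rw [← hD, hL', Matrix.mul_add, Matrix.add_mul]
    rw [h1, Matrix.det_mul, Matrix.det_mul, ← hL, Matrix.det_transpose, hP]
    ring
  · intro w i j
    have h1 : (L' w).transpose = L' w := by
      rw [hL', Matrix.transpose_mul, Matrix.transpose_mul, Matrix.transpose_transpose,
        (hLs w).eq, Matrix.mul_assoc]
    conv_lhs => rw [← h1]
    rfl

lemma base_change {n : Type*} [Fintype n] [DecidableEq n]
    (M : Matrix m m (MvPolynomial (n × n) K)) (hdeg : ∀ i j, (M i j).totalDegree ≤ 1)
    (hdet : M.det = ∑ σ : Equiv.Perm n, ∏ i, MvPolynomial.X (i, σ i)) :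
    ∃ M' : Matrix m m (MvPolynomial (n × n) (AlgebraicClosure K)),
      (∀ i j, (M' i j).totalDegree ≤ 1) ∧
      M'.det = ∑ σ : Equiv.Perm n, ∏ i, MvPolynomial.X (i, σ i) ∧ (M.IsSymm → M'.IsSymm) := by
  refine ⟨M.map (MvPolynomial.map (algebraMap K (AlgebraicClosure K))), ?_, ?_, ?_⟩
  · intro i j
    exact (Finset.sup_mono (MvPolynomial.support_map_subset _ _)).trans (hdeg i j)
  · have h1 : (M.map (MvPolynomial.map (algebraMap K (AlgebraicClosure K)))).det =
        MvPolynomial.map (algebraMap K (AlgebraicClosure K)) M.det := by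
      rw [RingHom.map_det]
      rfl
    rw [h1, hdet, map_sum]
    refine sum_congr rfl fun σ _ => ?_
    rw [map_prod]
    refine prod_congr rfl fun i _ => ?_
    rw [MvPolynomial.map_X]
  · intro hs
    exact hs.map _

end final

/-- `dc(perm_n) ≥ (n-2)^2 - 1` over every field of characteristic zero. -/
theorem dc_bound {K : Type*} [Field K] [CharZero K] {n m : ℕ} (hn : 5 ≤ n)
    (M : Matrix (Fin m) (Fin m) (MvPolynomial (Fin n × Fin n) K))
    (hdeg : ∀ i j, (M i j).totalDegree ≤ 1)
    (hdet : M.det = ∑ σ : Equiv.Perm (Fin n), ∏ i, MvPolynomial.X (i, σ i)) :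
    n ^ 2 + 3 ≤ m + 4 * n := by
  obtain ⟨M', h1, h2, -⟩ := base_change M hdeg hdet
  obtain ⟨ν, rfl⟩ := Nat.exists_eq_add_of_le hn
  have e : Fin (5 + ν) ≃ Option (Option (Fin (3 + ν))) := Fintype.equivOfCardEq (by
    simp
    ring)
  have h3 := dc_closed M' h1 h2 e (by simp)
  simp only [Fintype.card_fin] at h3
  nlinarith

/-- Symmetric version: `sdc(perm_n) ≥ 2 (n-2)^2 - 3`. -/
theorem sdc_bound {K : Type*} [Field K] [CharZero K] {n m : ℕ} (hn : 5 ≤ n)
    (M : Matrix (Fin m) (Fin m) (MvPolynomial (Fin n × Fin n) K)) (hsym : M.IsSymm)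
    (hdeg : ∀ i j, (M i j).totalDegree ≤ 1)
    (hdet : M.det = ∑ σ : Equiv.Perm (Fin n), ∏ i, MvPolynomial.X (i, σ i)) :
    2 * n ^ 2 + 5 ≤ m + 8 * n := by
  obtain ⟨M', h1, h2, h4⟩ := base_change M hdeg hdet
  obtain ⟨ν, rfl⟩ := Nat.exists_eq_add_of_le hn
  have e : Fin (5 + ν) ≃ Option (Option (Fin (3 + ν))) := Fintype.equivOfCardEq (by
    simp
    ring)
  have h3 := sdc_closed M' h1 (h4 hsym) h2 e (by simp)
  simp only [Fintype.card_fin] at h3
  nlinarith

end Pool.Agent.Work.MP_499dc6_lc.Dc
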