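import Pool.Agent.Work.MP_499dc6_lc.H21Block

set_option autoImplicit false

open Finset

namespace Pool.Agent.Work.MP_499dc6_lc.H21

universe u v w

namespace Cells

lemma mod_add_inj {n a b c : ℕ} (ha : a < n) (hb : b < n) (h : (a + c) % n = (b + c) % n) :
    a = b := by
  have h1 : a ≡ b [MOD n] := Nat.ModEq.add_right_cancel' c h
  exact Nat.ModEq.eq_of_lt_of_lt h1 ha hb

lemma block_lt {n r t k : ℕ} (ht : t < n / (2 * r)) (hk : k < 2 * r) : 2 * r * t + k < n := by
  have h1 : 2 * r * (t + 1) ≤ 2 * r * (n / (2 * r)) := Nat.mul_le_mul_left _ ht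
  have h2 : 2 * r * (n / (2 * r)) ≤ n := Nat.mul_div_le n (2 * r)
  rw [Nat.mul_add] at h1
  omega

/-- The tile with shift `c` and number `t`. -/
def tile (n r c t : ℕ) (hn : 0 < n) (ht : t < n / (2 * r)) : Cells n r where
  r1 k := ⟨(2 * r * t + k) % n, Nat.mod_lt _ hn⟩
  r2 k := ⟨(2 * r * t + r + k) % n, Nat.mod_lt _ hn⟩
  c1 k := ⟨(2 * r * t + k + c) % n, Nat.mod_lt _ hn⟩
  c2 k := ⟨(2 * r * t + r + k + c) % n, Nat.mod_lt _ hn⟩
  r1inj := by
    intro j hj k hk h
    rw [mem_range] at hj hk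
    have h' := Fin.mk.inj_iff.1 h
    have e1 := block_lt (k := j) ht (by omega)
    have e2 := block_lt (k := k) ht (by omega)
    rw [Nat.mod_eq_of_lt e1, Nat.mod_eq_of_lt e2] at h'
    omega
  r2inj := by
    intro j hj k hk h
    rw [mem_range] at hj hk
    have h' := Fin.mk.inj_iff.1 h
    have e1 := block_lt (k := r + j) ht (by omega)
    have e2 := block_lt (k := r + k) ht (by omega)
    rw [← Nat.add_assoc] at e1 e2
    rw [Nat.mod_eq_of_lt e1, Nat.mod_eq_of_lt e2] at h'
    omega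
  c1inj := by
    intro j hj k hk h
    rw [mem_range] at hj hk
    have h' := Fin.mk.inj_iff.1 h
    have e1 := block_lt (k := j) ht (by omega)
    have e2 := block_lt (k := k) ht (by omega)
    have := mod_add_inj e1 e2 h'
    omega
  c2inj := by
    intro j hj k hk h
    rw [mem_range] at hj hk
    have h' := Fin.mk.inj_iff.1 h
    have e1 := block_lt (k := r + j) ht (by omega)
    have e2 := block_lt (k := r + k) ht (by omega)
    rw [← Nat.add_assoc] at e1 e2
    have := mod_add_inj e1 e2 h'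
    omega
  rdis := by
    intro j hj k hk h
    rw [mem_range] at hj hk
    have h' := Fin.mk.inj_iff.1 h
    have e1 := block_lt (k := j) ht (by omega)
    have e2 := block_lt (k := r + k) ht (by omega)
    rw [← Nat.add_assoc] at e2
    rw [Nat.mod_eq_of_lt e1, Nat.mod_eq_of_lt e2] at h'
    omega
  cdis := by
    intro j hj k hk h
    rw [mem_range] at hj hk
    have h' := Fin.mk.inj_iff.1 h
    have e1 := block_lt (k := j) ht (by omega)
    have e2 := block_lt (k := r + k) ht (by omega)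
    rw [← Nat.add_assoc] at e2
    have := mod_add_inj e1 e2 h'
    omega

lemma mem_tile {n r c t : ℕ} (hn : 0 < n) (ht : t < n / (2 * r)) {e : Fin n × Fin n}
    (he : e ∈ (tile n r c t hn ht).cells) :
    t = (e.1 : ℕ) / (2 * r) ∧ (e.2 : ℕ) = ((e.1 : ℕ) + c) % n := by
  unfold cells at he
  rw [mem_union, mem_image, mem_image] at he
  rcases he with ⟨k, hk, hk'⟩ | ⟨k, hk, hk'⟩
  · rw [mem_range] at hk
    have e1 := block_lt (k := k) ht (by omega)
    subst hk'
    simp only [tile]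
    rw [Nat.mod_eq_of_lt e1]
    refine ⟨?_, rfl⟩
    symm
    apply Nat.div_eq_of_lt_le
    · rw [Nat.mul_comm t]
      omega
    · rw [Nat.mul_comm (t + 1), Nat.mul_add]
      omega
  · rw [mem_range] at hk
    have e1 := block_lt (k := r + k) ht (by omega)
    rw [← Nat.add_assoc] at e1
    subst hk'
    simp only [tile]
    rw [Nat.mod_eq_of_lt e1]
    refine ⟨?_, rfl⟩
    symm
    apply Nat.div_eq_of_lt_le
    · rw [Nat.mul_comm t]
      omega
    · rw [Nat.mul_comm (t + 1), Nat.mul_add]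
      omega

/-- The set of cells of the tile with index `p`. -/
noncomputable def tileSet (n r : ℕ) (hn : 0 < n) (p : ℕ × ℕ) : Finset (Fin n × Fin n) :=
  if h : p.2 < n / (2 * r) then (tile n r p.1 p.2 hn h).cells else ∅

lemma tileSet_disjoint (n r : ℕ) (hn : 0 < n) :
    ∀ a ∈ range n ×ˢ range (n / (2 * r)), ∀ b ∈ range n ×ˢ range (n / (2 * r)), a ≠ b →
      Disjoint (tileSet n r hn a) (tileSet n r hn b) := by
  rintro ⟨c, t⟩ ha ⟨c', t'⟩ hb hab
  rw [mem_product, mem_range, mem_range] at ha hb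
  rw [Finset.disjoint_left]
  intro e he he'
  unfold tileSet at he he'
  rw [dif_pos ha.2] at he
  rw [dif_pos hb.2] at he'
  have h1 := mem_tile hn ha.2 he
  have h2 := mem_tile hn hb.2 he'
  apply hab
  have e1 : t = t' := h1.1.trans h2.1.symm
  have e2 : (c + (e.1 : ℕ)) % n = (c' + (e.1 : ℕ)) % n := by
    rw [Nat.add_comm c, Nat.add_comm c']
    exact h1.2.symm.trans h2.2
  have e3 : c = c' := mod_add_inj ha.1 hb.1 e2
  rw [e1, e3]

end Cells

/-- The bound for every width of the tiles. -/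
theorem formula_bound {K : Type u} [Field K] [CharZero K] {n r : ℕ}
    (hn : 2 * r + 2 ≤ n) (hr : n - 2 * r ≤ 2 ^ r) (F : Formula K (Fin n × Fin n))
    (hF : F.eval = permPoly K n) :
    n * (n / (2 * r)) * ((n - 2 * r) ^ 2 + 2) ≤ 4 * F.varLeaves := by
  classical
  have hn0 : 0 < n := by omega
  have h1 := Formula.occ_sum (range n ×ˢ range (n / (2 * r))) (Cells.tileSet n r hn0)
    (Cells.tileSet_disjoint n r hn0) F
  have h2 : ∀ p ∈ range n ×ˢ range (n / (2 * r)),
      (n - 2 * r) ^ 2 + 2 ≤ 4 * F.occ (Cells.tileSet n r hn0 p) := by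
    rintro ⟨c, t⟩ hp
    rw [mem_product, mem_range, mem_range] at hp
    unfold Cells.tileSet
    rw [dif_pos hp.2]
    have h3 := block_bound (Cells.tile n r c t hn0 hp.2) (by omega) hr F hF
    have h4 : 2 ^ 2 ≤ (n - 2 * r) ^ 2 := Nat.pow_le_pow_left (by omega) 2
    dsimp only
    generalize (n - 2 * r) ^ 2 = Q at h3 h4 ⊢
    omega
  have h5 := Finset.sum_le_sum h2
  rw [Finset.sum_const, card_product, card_range, card_range, smul_eq_mul, ← Finset.mul_sum] at h5
  exact h5.trans (Nat.mul_le_mul_left _ h1)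

lemma le_two_pow_div (n : ℕ) (hn : 70 ≤ n) : n ≤ 2 ^ (n / 10) := by
  have h : ∀ k : ℕ, 7 ≤ k → 10 * k + 9 ≤ 2 ^ k := by
    intro k hk
    induction k, hk using Nat.le_induction with
    | base => norm_num
    | succ k hk ih =>
      rw [pow_succ]
      omega
  have h1 := h (n / 10) (by omega)
  omega

lemma ten_clog_le (n : ℕ) (hn : 70 ≤ n) : 10 * Nat.clog 2 n ≤ n := by
  have h1 : Nat.clog 2 n ≤ n / 10 := by
    rw [Nat.clog_le_iff_le_pow (by norm_num)]
    exact le_two_pow_div n hn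
  omega

/-- Arithmetic for the final step. -/
lemma cube_bound {n L : ℕ} (h : 10 * L ≤ n) : n ^ 3 ≤ 2 * (n - 2 * L) ^ 3 := by
  have h1 : 4 * n ≤ 5 * (n - 2 * L) := by omega
  have h2 : (4 * n) ^ 3 ≤ (5 * (n - 2 * L)) ^ 3 := Nat.pow_le_pow_left h1 3
  rw [mul_pow, mul_pow] at h2
  generalize n ^ 3 = a at h2 ⊢
  generalize (n - 2 * L) ^ 3 = b at h2 ⊢
  omega

/-- The final form of the bound. -/
theorem formula_bound_clog {K : Type u} [Field K] [CharZero K] {n : ℕ} (hn : 70 ≤ n)
    (F : Formula K (Fin n × Fin n)) (hF : F.eval = permPoly K n) :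
    n ^ 4 ≤ 16 * Nat.clog 2 n * F.varLeaves := by
  set L := Nat.clog 2 n with hL
  have h10 : 10 * L ≤ n := ten_clog_le n hn
  have hL1 : n ≤ 2 ^ L := Nat.le_pow_clog (by norm_num) n
  have hL0 : 0 < L := Nat.clog_pos (by norm_num) (by omega)
  have h1 := formula_bound (r := L) (by omega) (by omega) F hF
  have h2 := cube_bound h10
  have h3 : n - 2 * L ≤ 2 * L * (n / (2 * L)) := by
    have := Nat.lt_mul_div_succ n (b := 2 * L) (by omega)
    rw [Nat.mul_add] at this
    omega
  calc n ^ 4 = n * n ^ 3 := by ring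
    _ ≤ n * (2 * (n - 2 * L) ^ 3) := Nat.mul_le_mul_left _ h2
    _ = 2 * n * (n - 2 * L) * (n - 2 * L) ^ 2 := by ring
    _ ≤ 2 * n * (2 * L * (n / (2 * L))) * ((n - 2 * L) ^ 2 + 2) :=
        Nat.mul_le_mul (Nat.mul_le_mul_left _ h3) (Nat.le_add_right _ _)
    _ = 4 * L * (n * (n / (2 * L)) * ((n - 2 * L) ^ 2 + 2)) := by ring
    _ ≤ 4 * L * (4 * F.varLeaves) := Nat.mul_le_mul_left _ h1
    _ = 16 * L * F.varLeaves := by ring

end Pool.Agent.Work.MP_499dc6_lc.H21
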