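import Pool.Agent.Work.MP_499dc6_lc.H21Gadget

set_option autoImplicit false

open Finset

namespace Pool.Agent.Work.MP_499dc6_lc.H21

universe u v w

/-- The permanent polynomial. -/
noncomputable def permPoly (K : Type w) [CommRing K] (n : ℕ) : MvPolynomial (Fin n × Fin n) K :=
  ∑ σ : Equiv.Perm (Fin n), ∏ k : Fin n, MvPolynomial.X (k, σ k)

namespace Cells

variable {n r : ℕ} (G : Cells n r)

/-- The cells of the block. -/
def cells : Finset (Fin n × Fin n) :=
  (range r).image (fun k => (G.r1 k, G.c1 k)) ∪ (range r).image (fun k => (G.r2 k, G.c2 k))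

lemma exists_code (S : Finset (Fin n)) (hS : S.card ≤ 2 ^ r) :
    ∃ c : Fin n → Finset ℕ, (∀ a ∈ S, ∀ b ∈ S, c a = c b → a = b) ∧ ∀ a ∈ S, c a ⊆ range r := by
  classical
  have hcard : Fintype.card S ≤ Fintype.card (range r).powerset := by
    simpa using hS
  obtain ⟨f⟩ := Function.Embedding.nonempty_of_card_le hcard
  refine ⟨fun i => if h : i ∈ S then (f ⟨i, h⟩ : Finset ℕ) else ∅, ?_, ?_⟩
  · intro a ha b hb h
    simp only [ha, hb, dif_pos] at h
    have := f.injective (Subtype.ext h)
    exact congrArg Subtype.val this
  · intro a ha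
    simp only [ha, dif_pos]
    exact mem_powerset.1 (f ⟨a, ha⟩).2

variable {K : Type w} [Field K]

/-- The entries outside the block do not depend on the parameters. -/
lemma M0_indep (cR cC : Fin n → Finset ℕ) (y z y' z' : ℕ → K) (e : Fin n × Fin n)
    (he : e ∉ G.cells) : G.M0 cR cC y z e.1 e.2 = G.M0 cR cC y' z' e.1 e.2 := by
  obtain ⟨i, j⟩ := e
  unfold cells at he
  rw [mem_union, not_or] at he
  simp only [mem_image, not_exists, not_and] at he
  unfold M0
  by_cases hj : j ∈ (range r).image G.c1
  · rw [if_pos hj, if_pos hj]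
    rw [mem_image] at hj
    obtain ⟨k, hk, rfl⟩ := hj
    rw [G.kC_c1 hk]
    unfold colM
    by_cases hi : i ∈ G.A
    · rw [if_pos hi, if_pos hi]
    · rw [if_neg hi, if_neg hi]
      have : i ≠ G.r1 k := by
        intro h
        exact he.1 k hk (by rw [h])
      rw [if_neg this, if_neg this]
  · rw [if_neg hj, if_neg hj]
    by_cases hi : i ∈ (range r).image G.r2
    · rw [if_pos hi, if_pos hi]
      rw [mem_image] at hi
      obtain ⟨k, hk, rfl⟩ := hi
      rw [G.kR_r2 hk]
      unfold colM
      by_cases hj' : j ∈ G.B
      · rw [if_pos hj', if_pos hj']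
      · rw [if_neg hj', if_neg hj']
        have : j ≠ G.c2 k := by
          intro h
          exact he.2 k hk (by rw [h])
        rw [if_neg this, if_neg this]
    · rw [if_neg hi, if_neg hi]

lemma MM_indep (cR cC : Fin n → Finset ℕ) (y z y' z' : ℕ → K) (e : Fin n × Fin n)
    (he : e ∉ G.cells) : G.MM cR cC y z e.1 e.2 = G.MM cR cC y' z' e.1 e.2 := by
  unfold MM
  rw [G.M0_indep cR cC y z y' z' e he]

lemma snd_MM_block (cR cC : Fin n → Finset ℕ) (y z : ℕ → K) (e : Fin n × Fin n)
    (he : e ∈ G.cells) : (G.MM cR cC y z e.1 e.2).snd = 0 := by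
  funext p
  rw [G.snd_MM, if_neg]
  · rfl
  · rintro ⟨h1, -⟩
    have hp := p.1.2
    rw [h1] at hp
    unfold A at hp
    rw [mem_sdiff, mem_union] at hp
    unfold cells at he
    rw [mem_union, mem_image, mem_image] at he
    rcases he with ⟨k, hk, hk'⟩ | ⟨k, hk, hk'⟩
    · apply hp.2
      left
      rw [← hk']
      exact mem_image_of_mem _ hk
    · apply hp.2
      right
      rw [← hk']
      exact mem_image_of_mem _ hk

lemma aeval_permPoly {R : Type*} [CommRing R] [Algebra K R] (s : Fin n × Fin n → R) :
    MvPolynomial.aeval s (permPoly K n) = ∑ σ : Equiv.Perm (Fin n), ∏ k, s (k, σ k) := by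
  unfold permPoly
  rw [map_sum]
  apply Finset.sum_congr rfl
  intro σ _
  rw [map_prod]
  apply Finset.prod_congr rfl
  intro k _
  rw [MvPolynomial.aeval_X]

end Cells

/-- Arithmetic formulas over `K` in variables `ι`: trees whose leaves are variables or constants
and whose inner nodes are additions or multiplications. -/
inductive Formula (K : Type u) (ι : Type v) : Type (max u v)
  | var : ι → Formula K ι
  | const : K → Formula K ι
  | add : Formula K ι → Formula K ι → Formula K ι
  | mul : Formula K ι → Formula K ι → Formula K ι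

namespace Formula

/-- The polynomial computed by a formula. -/
noncomputable def eval {K : Type u} {ι : Type v} [CommRing K] :
    Formula K ι → MvPolynomial ι K
  | var e => MvPolynomial.X e
  | const c => MvPolynomial.C c
  | add F G => F.eval + G.eval
  | mul F G => F.eval * G.eval

/-- The number of leaves labelled by variables. -/
def varLeaves {K : Type u} {ι : Type v} : Formula K ι → ℕ
  | var _ => 1
  | const _ => 0
  | add F G => F.varLeaves + G.varLeaves
  | mul F G => F.varLeaves + G.varLeaves

/-- The number of leaves labelled by variables of a set. -/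
def occ {K : Type u} {ι : Type v} [DecidableEq ι] (Y : Finset ι) : Formula K ι → ℕ
  | var e => if e ∈ Y then 1 else 0
  | const _ => 0
  | add F G => F.occ Y + G.occ Y
  | mul F G => F.occ Y + G.occ Y

lemma occ_sum {K : Type u} {ι : Type v} [DecidableEq ι] {T : Type*} (s : Finset T)
    (Y : T → Finset ι) (hY : ∀ a ∈ s, ∀ b ∈ s, a ≠ b → Disjoint (Y a) (Y b)) (F : Formula K ι) :
    ∑ t ∈ s, F.occ (Y t) ≤ F.varLeaves := by
  classical
  induction F with
  | var e =>
    simp only [occ, varLeaves]
    rw [← Finset.card_filter, Finset.card_le_one]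
    intro a ha b hb
    rw [Finset.mem_filter] at ha hb
    by_contra hab
    exact Finset.disjoint_left.1 (hY a ha.1 b hb.1 hab) ha.2 hb.2
  | const c => simp [occ, varLeaves]
  | add F G ihF ihG =>
    simp only [occ, varLeaves]
    rw [Finset.sum_add_distrib]
    omega
  | mul F G ihF ihG =>
    simp only [occ, varLeaves]
    rw [Finset.sum_add_distrib]
    omega

variable {K : Type u} [Field K] {ι : Type v} [DecidableEq ι]

/-- Kalorkoti's argument. -/
lemma kalorkoti {V : Type w} [AddCommGroup V] [Module K V] [Module Kᵐᵒᵖ V]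
    [IsCentralScalar K V] [FiniteDimensional K V] {T : Type*} (Y : Finset ι)
    (s : T → ι → TrivSqZeroExt K V) (t0 : T)
    (hY : ∀ e ∈ Y, ∀ t, (s t e).snd = 0) (hN : ∀ e, e ∉ Y → ∀ t t', s t e = s t' e)
    (F : Formula K ι) :
    ∃ (W : Submodule K V) (a b : TrivSqZeroExt K V) (h : T → TrivSqZeroExt K V),
      Module.finrank K W ≤ 4 * (F.occ Y - 1) ∧ (∀ t, (h t).snd ∈ W) ∧
      (∀ t, MvPolynomial.aeval (s t) F.eval = a * h t + b) ∧
      (F.occ Y = 0 → ∀ t, h t = 0) := by
  classical
  induction F with
  | var e =>
    by_cases he : e ∈ Y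
    · refine ⟨⊥, 1, 0, fun t => s t e, ?_, ?_, ?_, ?_⟩
      · rw [finrank_bot]
        exact Nat.zero_le _
      · intro t
        rw [hY e he t]
        exact Submodule.zero_mem _
      · intro t
        simp [eval]
      · intro h
        simp [occ, he] at h
    · refine ⟨⊥, 0, s t0 e, fun _ => 0, ?_, ?_, ?_, ?_⟩
      · rw [finrank_bot]
        exact Nat.zero_le _
      · intro t
        exact Submodule.zero_mem _
      · intro t
        simp only [eval, MvPolynomial.aeval_X, mul_zero, zero_add]
        exact hN e he t t0
      · intro _ _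
        rfl
  | const c =>
    refine ⟨⊥, 0, algebraMap K _ c, fun _ => 0, ?_, ?_, ?_, ?_⟩
    · rw [finrank_bot]
      exact Nat.zero_le _
    · intro t
      exact Submodule.zero_mem _
    · intro t
      simp [eval]
    · intro _ _
      rfl
  | add F G ihF ihG =>
    obtain ⟨W1, a1, b1, h1, hW1, hh1, he1, hz1⟩ := ihF
    obtain ⟨W2, a2, b2, h2, hW2, hh2, he2, hz2⟩ := ihG
    by_cases hF : F.occ Y = 0
    · refine ⟨W2, a2, b1 + b2, h2, ?_, hh2, ?_, ?_⟩
      · simp only [occ, hF, zero_add]
        exact hW2
      · intro t
        simp only [eval, map_add]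
        rw [he1, he2, hz1 hF]
        ring
      · intro h
        simp only [occ] at h
        exact hz2 (by omega)
    · by_cases hG : G.occ Y = 0
      · refine ⟨W1, a1, b1 + b2, h1, ?_, hh1, ?_, ?_⟩
        · simp only [occ, hG, add_zero]
          exact hW1
        · intro t
          simp only [eval, map_add]
          rw [he1, he2, hz2 hG]
          ring
        · intro h
          simp only [occ] at h
          exact hz1 (by omega)
      · let S : Finset V := {a1.snd, a2.snd}
        refine ⟨(W1 ⊔ W2) ⊔ Submodule.span K (S : Set V), 1, b1 + b2,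
          fun t => a1 * h1 t + a2 * h2 t, ?_, ?_, ?_, ?_⟩
        · have e1 := Submodule.finrank_add_le_finrank_add_finrank (W1 ⊔ W2)
            (Submodule.span K (S : Set V))
          have e2 := Submodule.finrank_add_le_finrank_add_finrank W1 W2
          have e3 : Module.finrank K (Submodule.span K (S : Set V)) ≤ S.card :=
            finrank_span_finset_le_card (R := K) S
          have e4 : S.card ≤ 2 := Finset.card_le_two
          simp only [occ]
          omega
        · intro t
          have m1 : (h1 t).snd ∈ (W1 ⊔ W2) ⊔ Submodule.span K (S : Set V) :=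
            Submodule.mem_sup_left (Submodule.mem_sup_left (hh1 t))
          have m2 : (h2 t).snd ∈ (W1 ⊔ W2) ⊔ Submodule.span K (S : Set V) :=
            Submodule.mem_sup_left (Submodule.mem_sup_right (hh2 t))
          have m3 : a1.snd ∈ (W1 ⊔ W2) ⊔ Submodule.span K (S : Set V) :=
            Submodule.mem_sup_right (Submodule.subset_span (by simp [S]))
          have m4 : a2.snd ∈ (W1 ⊔ W2) ⊔ Submodule.span K (S : Set V) :=
            Submodule.mem_sup_right (Submodule.subset_span (by simp [S]))
          rw [TrivSqZeroExt.snd_add, TrivSqZeroExt.snd_mul, TrivSqZeroExt.snd_mul]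
          simp only [op_smul_eq_smul]
          exact Submodule.add_mem _
            (Submodule.add_mem _ (Submodule.smul_mem _ _ m1) (Submodule.smul_mem _ _ m3))
            (Submodule.add_mem _ (Submodule.smul_mem _ _ m2) (Submodule.smul_mem _ _ m4))
        · intro t
          simp only [eval, map_add]
          rw [he1, he2]
          ring
        · intro h
          simp only [occ] at h
          omega
  | mul F G ihF ihG =>
    obtain ⟨W1, a1, b1, h1, hW1, hh1, he1, hz1⟩ := ihF
    obtain ⟨W2, a2, b2, h2, hW2, hh2, he2, hz2⟩ := ihG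
    by_cases hF : F.occ Y = 0
    · refine ⟨W2, b1 * a2, b1 * b2, h2, ?_, hh2, ?_, ?_⟩
      · simp only [occ, hF, zero_add]
        exact hW2
      · intro t
        simp only [eval, map_mul]
        rw [he1, he2, hz1 hF]
        ring
      · intro h
        simp only [occ] at h
        exact hz2 (by omega)
    · by_cases hG : G.occ Y = 0
      · refine ⟨W1, a1 * b2, b1 * b2, h1, ?_, hh1, ?_, ?_⟩
        · simp only [occ, hG, add_zero]
          exact hW1
        · intro t
          simp only [eval, map_mul]
          rw [he1, he2, hz2 hG]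
          ring
        · intro h
          simp only [occ] at h
          exact hz1 (by omega)
      · let S : Finset V := {a1.snd, b1.snd, a2.snd, b2.snd}
        refine ⟨(W1 ⊔ W2) ⊔ Submodule.span K (S : Set V), 1, 0,
          fun t => (a1 * h1 t + b1) * (a2 * h2 t + b2), ?_, ?_, ?_, ?_⟩
        · have e1 := Submodule.finrank_add_le_finrank_add_finrank (W1 ⊔ W2)
            (Submodule.span K (S : Set V))
          have e2 := Submodule.finrank_add_le_finrank_add_finrank W1 W2
          have e3 : Module.finrank K (Submodule.span K (S : Set V)) ≤ S.card :=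
            finrank_span_finset_le_card (R := K) S
          have e4 : S.card ≤ 4 := Finset.card_le_four
          simp only [occ]
          omega
        · intro t
          have m1 : (h1 t).snd ∈ (W1 ⊔ W2) ⊔ Submodule.span K (S : Set V) :=
            Submodule.mem_sup_left (Submodule.mem_sup_left (hh1 t))
          have m2 : (h2 t).snd ∈ (W1 ⊔ W2) ⊔ Submodule.span K (S : Set V) :=
            Submodule.mem_sup_left (Submodule.mem_sup_right (hh2 t))
          have m3 : a1.snd ∈ (W1 ⊔ W2) ⊔ Submodule.span K (S : Set V) :=
            Submodule.mem_sup_right (Submodule.subset_span (by simp [S]))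
          have m4 : a2.snd ∈ (W1 ⊔ W2) ⊔ Submodule.span K (S : Set V) :=
            Submodule.mem_sup_right (Submodule.subset_span (by simp [S]))
          have m5 : b1.snd ∈ (W1 ⊔ W2) ⊔ Submodule.span K (S : Set V) :=
            Submodule.mem_sup_right (Submodule.subset_span (by simp [S]))
          have m6 : b2.snd ∈ (W1 ⊔ W2) ⊔ Submodule.span K (S : Set V) :=
            Submodule.mem_sup_right (Submodule.subset_span (by simp [S]))
          have n1 : (a1 * h1 t + b1).snd ∈ (W1 ⊔ W2) ⊔ Submodule.span K (S : Set V) := by
            rw [TrivSqZeroExt.snd_add, TrivSqZeroExt.snd_mul]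
            simp only [op_smul_eq_smul]
            exact Submodule.add_mem _
              (Submodule.add_mem _ (Submodule.smul_mem _ _ m1) (Submodule.smul_mem _ _ m3)) m5
          have n2 : (a2 * h2 t + b2).snd ∈ (W1 ⊔ W2) ⊔ Submodule.span K (S : Set V) := by
            rw [TrivSqZeroExt.snd_add, TrivSqZeroExt.snd_mul]
            simp only [op_smul_eq_smul]
            exact Submodule.add_mem _
              (Submodule.add_mem _ (Submodule.smul_mem _ _ m2) (Submodule.smul_mem _ _ m4)) m6
          rw [TrivSqZeroExt.snd_mul]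
          simp only [op_smul_eq_smul]
          exact Submodule.add_mem _ (Submodule.smul_mem _ _ n2) (Submodule.smul_mem _ _ n1)
        · intro t
          simp only [eval, map_mul]
          rw [he1, he2]
          ring
        · intro h
          simp only [occ] at h
          omega

end Formula

/-- The bound for one block. -/
theorem block_bound {K : Type u} [Field K] [CharZero K] {n r : ℕ} (G : Cells n r)
    (hn : 2 * r + 1 ≤ n) (hr : n - 2 * r ≤ 2 ^ r) (F : Formula K (Fin n × Fin n))
    (hF : F.eval = permPoly K n) :
    (n - 2 * r) ^ 2 ≤ 4 * (F.occ G.cells - 1) + 2 := by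
  classical
  obtain ⟨cR, hcR, hcR'⟩ := Cells.exists_code (r := r) G.A (by
    rw [G.card_A (by omega)]
    exact hr)
  obtain ⟨cC, hcC, hcC'⟩ := Cells.exists_code (r := r) G.B (by
    rw [G.card_B (by omega)]
    exact hr)
  obtain ⟨W, a, b, h, hW, hh, he, -⟩ := F.kalorkoti (T := (ℕ → K) × (ℕ → K)) G.cells
    (fun t e => G.MM cR cC t.1 t.2 e.1 e.2) (fun _ => 0, fun _ => 0)
    (fun e he t => G.snd_MM_block cR cC t.1 t.2 e he)
    (fun e he t t' => G.MM_indep cR cC t.1 t.2 t'.1 t'.2 e he)
  let S : Finset (G.A × G.B → K) := {a.snd, b.snd}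
  have htop : W ⊔ Submodule.span K (S : Set (G.A × G.B → K)) = ⊤ := by
    apply G.finrank_le cR cC hn hcR hcR' hcC hcC'
    intro y z
    have h1 := he (y, z)
    rw [hF, Cells.aeval_permPoly] at h1
    change ∑ σ : Equiv.Perm (Fin n), ∏ k, G.MM cR cC y z k (σ k) = _ at h1
    rw [h1, TrivSqZeroExt.snd_add, TrivSqZeroExt.snd_mul]
    simp only [op_smul_eq_smul]
    have m1 : (h (y, z)).snd ∈ W ⊔ Submodule.span K (S : Set (G.A × G.B → K)) :=
      Submodule.mem_sup_left (hh _)
    have m2 : a.snd ∈ W ⊔ Submodule.span K (S : Set (G.A × G.B → K)) :=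
      Submodule.mem_sup_right (Submodule.subset_span (by simp [S]))
    have m3 : b.snd ∈ W ⊔ Submodule.span K (S : Set (G.A × G.B → K)) :=
      Submodule.mem_sup_right (Submodule.subset_span (by simp [S]))
    exact Submodule.add_mem _
      (Submodule.add_mem _ (Submodule.smul_mem _ _ m1) (Submodule.smul_mem _ _ m2)) m3
  have e1 := Submodule.finrank_add_le_finrank_add_finrank W
    (Submodule.span K (S : Set (G.A × G.B → K)))
  rw [htop, finrank_top, Module.finrank_fintype_fun_eq_card, Fintype.card_prod,
    Fintype.card_coe, Fintype.card_coe, G.card_A (by omega), G.card_B (by omega)] at e1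
  have e3 : Module.finrank K (Submodule.span K (S : Set (G.A × G.B → K))) ≤ S.card :=
    finrank_span_finset_le_card (R := K) S
  have e4 : S.card ≤ 2 := Finset.card_le_two
  rw [pow_two]
  omega

end Pool.Agent.Work.MP_499dc6_lc.H21
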