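import Pool.Agent.Work.MP_499dc6_lc.H21Tile

set_option autoImplicit false

open Finset

namespace Pool.Agent.Work.MP_499dc6_lc.H21

universe u v w

section General

/-- Rank factorisation. -/
lemma exists_rank_factor {K : Type u} [Field K] {m : Type v} [Fintype m] [DecidableEq m]
    (A : Matrix m m K) :
    ∃ (P : Matrix m (Fin A.rank) K) (Q : Matrix (Fin A.rank) m K), A = P * Q := by
  classical
  let b : Module.Basis (Fin A.rank) K (LinearMap.range A.mulVecLin) :=
    Module.finBasisOfFinrankEq K _ rfl
  refine ⟨Matrix.of fun i a => (b a : m → K) i,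
    Matrix.of fun a j => b.repr ⟨A.mulVecLin (Pi.single j 1), LinearMap.mem_range_self _ _⟩ a, ?_⟩
  ext i j
  rw [Matrix.mul_apply]
  have h1 := b.sum_repr ⟨A.mulVecLin (Pi.single j 1), LinearMap.mem_range_self _ _⟩
  have h2 := congrArg (fun x : LinearMap.range A.mulVecLin => (x : m → K) i) h1
  simp only [Submodule.coe_sum, Submodule.coe_smul, Finset.sum_apply, Pi.smul_apply,
    smul_eq_mul] at h2
  simp only [Matrix.of_apply]
  rw [Finset.sum_congr rfl (fun a _ => mul_comm _ _), h2]
  simp

variable {K : Type u} [Field K] {V : Type v} [AddCommGroup V] [Module K V] [Module Kᵐᵒᵖ V]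
  [IsCentralScalar K V]

/-- The elements whose infinitesimal part lies in a subspace form a subalgebra. -/
def sndSub (W : Submodule K V) : Subalgebra K (TrivSqZeroExt K V) where
  carrier := {x | x.snd ∈ W}
  mul_mem' := by
    intro x y hx hy
    change (x * y).snd ∈ W
    change x.snd ∈ W at hx
    change y.snd ∈ W at hy
    rw [TrivSqZeroExt.snd_mul]
    simp only [op_smul_eq_smul]
    exact Submodule.add_mem _ (Submodule.smul_mem _ _ hy) (Submodule.smul_mem _ _ hx)
  add_mem' := by
    intro x y hx hy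
    change (x + y).snd ∈ W
    change x.snd ∈ W at hx
    change y.snd ∈ W at hy
    rw [TrivSqZeroExt.snd_add]
    exact Submodule.add_mem _ hx hy
  algebraMap_mem' := by
    intro c
    change ((algebraMap K (TrivSqZeroExt K V)) c).snd ∈ W
    rw [TrivSqZeroExt.algebraMap_eq_inl', TrivSqZeroExt.snd_inl]
    exact Submodule.zero_mem _

lemma mem_sndSub (W : Submodule K V) (x : TrivSqZeroExt K V) : x ∈ sndSub W ↔ x.snd ∈ W := by
  exact Iff.rfl

lemma det_mem_subalgebra {R : Type w} [CommRing R] [Algebra K R] (S : Subalgebra K R)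
    {m : Type*} [Fintype m] [DecidableEq m] (M : Matrix m m R) (h : ∀ i j, M i j ∈ S) :
    M.det ∈ S := by
  rw [Matrix.det_apply]
  refine Subalgebra.sum_mem _ (fun σ _ => ?_)
  have h1 : ∏ i, M (σ i) i ∈ S := Subalgebra.prod_mem _ (fun i _ => h _ _)
  rcases Int.units_eq_one_or (Equiv.Perm.sign σ) with h2 | h2
  · rw [h2, one_smul]
    exact h1
  · rw [h2]
    simpa using S.neg_mem h1

/-- Schur complement step for a block of variables. -/
lemma det_factor {K : Type u} [Field K] {R : Type w} [CommRing R] [Algebra K R]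
    {ι : Type*} [Fintype ι] [DecidableEq ι]
    {m : Type*} [Fintype m] [DecidableEq m] {T : Type*} (Y : Finset ι)
    (s : T → ι → R) (t0 : T) (d : T → ι → K)
    (hY : ∀ e ∈ Y, ∀ t, s t e = s t0 e + algebraMap K R (d t e))
    (hN : ∀ e, e ∉ Y → ∀ t t', s t e = s t' e)
    (A0 : Matrix m m K) (A : ι → Matrix m m K)
    (h0 : IsUnit (Matrix.det (Matrix.of fun i j => algebraMap K R (A0 i j) +
      ∑ e, algebraMap K R (A e i j) * s t0 e))) :
    ∃ Tm : Matrix (Σ e : Y, Fin (A e).rank) (Σ e : Y, Fin (A e).rank) R,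
      ∀ t, Matrix.det (Matrix.of fun i j => algebraMap K R (A0 i j) +
        ∑ e, algebraMap K R (A e i j) * s t e) =
        Matrix.det (Matrix.of fun i j => algebraMap K R (A0 i j) +
          ∑ e, algebraMap K R (A e i j) * s t0 e) *
        Matrix.det (1 + (Matrix.diagonal fun x : (Σ e : Y, Fin (A e).rank) =>
          algebraMap K R (d t x.1)) * Tm) := by
  classical
  choose P Q hPQ using fun e => exists_rank_factor (A e)
  let N : T → Matrix m m R := fun t => Matrix.of fun i j => algebraMap K R (A0 i j) +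
      ∑ e, algebraMap K R (A e i j) * s t e
  have hunit : IsUnit (N t0).det := h0
  let P' : Matrix m (Σ e : Y, Fin (A e).rank) R :=
    Matrix.of fun i x => algebraMap K R (P x.1 i x.2)
  let Q' : Matrix (Σ e : Y, Fin (A e).rank) m R :=
    Matrix.of fun x j => algebraMap K R (Q x.1 x.2 j)
  let D : T → Matrix (Σ e : Y, Fin (A e).rank) (Σ e : Y, Fin (A e).rank) R :=
    fun t => Matrix.diagonal fun x => algebraMap K R (d t x.1)
  have hdiff : ∀ t, N t = N t0 + P' * (D t * Q') := by
    intro t
    ext1 i j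
    rw [Matrix.add_apply, Matrix.mul_apply]
    simp only [N, P', Q', D, Matrix.of_apply]
    have h1 : ∑ e, algebraMap K R (A e i j) * s t e =
        ∑ e, algebraMap K R (A e i j) * s t0 e +
        ∑ e ∈ Y, algebraMap K R (A e i j) * algebraMap K R (d t e) := by
      have h2 : ∑ e ∈ Y, algebraMap K R (A e i j) * algebraMap K R (d t e) =
          ∑ e ∈ Y, algebraMap K R (A e i j) * (s t e - s t0 e) := by
        apply Finset.sum_congr rfl
        intro e he
        rw [hY e he t]
        ring
      rw [h2, Finset.sum_subset (Finset.subset_univ Y), ← Finset.sum_add_distrib]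
      · apply Finset.sum_congr rfl
        intro e _
        ring
      · intro e _ he
        rw [hN e he t t0, sub_self, mul_zero]
    rw [h1, ← add_assoc, add_right_inj, ← Finset.sum_attach, Fintype.sum_sigma,
      ← Finset.univ_eq_attach]
    apply Finset.sum_congr rfl
    intro e _
    have h2 : A e i j = ∑ a, P e i a * Q e a j := by
      conv_lhs => rw [hPQ e, Matrix.mul_apply]
    rw [h2, map_sum, Finset.sum_mul]
    apply Finset.sum_congr rfl
    intro a _
    rw [Matrix.diagonal_mul, map_mul]
    simp only [Matrix.of_apply]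
    ring
  refine ⟨Q' * ((N t0)⁻¹ * P'), fun t => ?_⟩
  change (N t).det = (N t0).det * (1 + D t * (Q' * ((N t0)⁻¹ * P'))).det
  have h1 : N t = N t0 * (1 + ((N t0)⁻¹ * P') * (D t * Q')) := by
    rw [hdiff t, Matrix.mul_add, Matrix.mul_one, Matrix.mul_assoc, ← Matrix.mul_assoc (N t0),
      Matrix.mul_nonsing_inv _ hunit, Matrix.one_mul]
  rw [h1, Matrix.det_mul, Matrix.det_one_add_mul_comm]
  simp only [Matrix.mul_assoc]

/-- The argument for one block of a determinantal representation. -/
lemma det_block {ι : Type*} [Fintype ι] [DecidableEq ι]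
    {m : Type*} [Fintype m] [DecidableEq m] {T : Type*} (Y : Finset ι)
    (s : T → ι → TrivSqZeroExt K V) (t0 : T)
    (hY : ∀ e ∈ Y, ∀ t, (s t e).snd = 0) (hN : ∀ e, e ∉ Y → ∀ t t', s t e = s t' e)
    (A0 : Matrix m m K) (A : ι → Matrix m m K)
    (h0 : (Matrix.det (Matrix.of fun i j => algebraMap K (TrivSqZeroExt K V) (A0 i j) +
      ∑ e, algebraMap K (TrivSqZeroExt K V) (A e i j) * s t0 e)).fst ≠ 0) :
    ∃ W : Submodule K V, Module.finrank K W ≤ (∑ e ∈ Y, (A e).rank) ^ 2 + 1 ∧
      ∀ t, (Matrix.det (Matrix.of fun i j => algebraMap K (TrivSqZeroExt K V) (A0 i j) +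
        ∑ e, algebraMap K (TrivSqZeroExt K V) (A e i j) * s t e)).snd ∈ W := by
  classical
  have hsd : ∀ e ∈ Y, ∀ t, s t e = s t0 e + algebraMap K (TrivSqZeroExt K V)
      ((s t e).fst - (s t0 e).fst) := by
    intro e he t
    apply TrivSqZeroExt.ext
    · rw [TrivSqZeroExt.fst_add, TrivSqZeroExt.algebraMap_eq_inl', TrivSqZeroExt.fst_inl]
      simp
    · rw [TrivSqZeroExt.snd_add, hY e he, hY e he, TrivSqZeroExt.algebraMap_eq_inl',
        TrivSqZeroExt.snd_inl, add_zero]
  obtain ⟨Tm, hT⟩ := det_factor Y s t0 _ hsd hN A0 A (by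
    rw [TrivSqZeroExt.isUnit_iff_isUnit_fst]
    exact isUnit_iff_ne_zero.2 h0)
  set δ := Matrix.det (Matrix.of fun i j => algebraMap K (TrivSqZeroExt K V) (A0 i j) +
      ∑ e, algebraMap K (TrivSqZeroExt K V) (A e i j) * s t0 e) with hδ
  let S : Finset V := insert δ.snd ((univ : Finset ((Σ e : Y, Fin (A e).rank) ×
    (Σ e : Y, Fin (A e).rank))).image (fun p => (Tm p.1 p.2).snd))
  refine ⟨Submodule.span K (S : Set V), ?_, ?_⟩
  · have e3 : Module.finrank K (Submodule.span K (S : Set V)) ≤ S.card :=
      finrank_span_finset_le_card (R := K) S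
    have e4 : S.card ≤ (univ : Finset ((Σ e : Y, Fin (A e).rank) ×
        (Σ e : Y, Fin (A e).rank))).card + 1 :=
      (Finset.card_insert_le _ _).trans (Nat.add_le_add_right Finset.card_image_le 1)
    have e5 : (univ : Finset ((Σ e : Y, Fin (A e).rank) ×
        (Σ e : Y, Fin (A e).rank))).card = (∑ e ∈ Y, (A e).rank) ^ 2 := by
      rw [Finset.card_univ, Fintype.card_prod, Fintype.card_sigma, pow_two,
        ← Finset.sum_attach Y]
      simp
    omega
  · intro t
    rw [hT t, ← mem_sndSub]
    refine Subalgebra.mul_mem _ ?_ ?_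
    · rw [mem_sndSub]
      exact Submodule.subset_span (by simp [S])
    · apply det_mem_subalgebra
      intro x x'
      rw [Matrix.add_apply, Matrix.diagonal_mul]
      refine Subalgebra.add_mem _ ?_ (Subalgebra.mul_mem _ ?_ ?_)
      · rw [Matrix.one_apply]
        split_ifs
        · exact Subalgebra.one_mem _
        · exact Subalgebra.zero_mem _
      · exact Subalgebra.algebraMap_mem _ _
      · rw [mem_sndSub]
        apply Submodule.subset_span
        simp only [S, coe_insert, coe_image, coe_univ, Set.image_univ]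
        exact Or.inr ⟨(x, x'), rfl⟩

end General

end Pool.Agent.Work.MP_499dc6_lc.H21
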