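import Pool.Agent.Work.MP_499dc6_lc.H21Det

set_option autoImplicit false

open Finset

namespace Pool.Agent.Work.MP_499dc6_lc.H21

universe u v w

namespace Cells

variable {n r : ℕ} (G : Cells n r)

open Classical in
/-- index of a special row of the first group -/
noncomputable def kR1 (j : Fin n) : ℕ :=
  if h : ∃ k ∈ range r, G.r1 k = j then h.choose else 0

lemma kR1_r1 {k : ℕ} (hk : k ∈ range r) : G.kR1 (G.r1 k) = k := by
  have h : ∃ l ∈ range r, G.r1 l = G.r1 k := ⟨k, hk, rfl⟩
  unfold kR1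
  rw [dif_pos h]
  exact G.r1inj _ h.choose_spec.1 k hk h.choose_spec.2

/-- A permutation through all the cells of the block. -/
lemma exists_perm : ∃ σ : Equiv.Perm (Fin n), (∀ k ∈ range r, σ (G.r1 k) = G.c1 k) ∧
    (∀ k ∈ range r, σ (G.r2 k) = G.c2 k) := by
  classical
  let f : Fin n → Fin n := fun i =>
    if i ∈ (range r).image G.r1 then G.c1 (G.kR1 i) else G.c2 (G.kR i)
  have hf1 : ∀ k ∈ range r, f (G.r1 k) = G.c1 k := by
    intro k hk
    simp only [f]
    rw [if_pos (mem_image_of_mem _ hk), G.kR1_r1 hk]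
  have hf2 : ∀ k ∈ range r, f (G.r2 k) = G.c2 k := by
    intro k hk
    simp only [f]
    rw [if_neg, G.kR_r2 hk]
    intro h
    rw [mem_image] at h
    obtain ⟨j, hj, h⟩ := h
    exact G.rdis j hj k hk h
  let S : Finset (Fin n) := (range r).image G.r1 ∪ (range r).image G.r2
  have hinj : Set.InjOn f S := by
    intro a ha b hb hab
    simp only [S, coe_union, coe_image, Set.mem_union, Set.mem_image, mem_coe] at ha hb
    rcases ha with ⟨j, hj, rfl⟩ | ⟨j, hj, rfl⟩ <;> rcases hb with ⟨k, hk, rfl⟩ | ⟨k, hk, rfl⟩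
    · rw [hf1 j hj, hf1 k hk] at hab
      rw [G.c1inj j hj k hk hab]
    · rw [hf1 j hj, hf2 k hk] at hab
      exact absurd hab (G.cdis j hj k hk)
    · rw [hf2 j hj, hf1 k hk] at hab
      exact absurd hab.symm (G.cdis k hk j hj)
    · rw [hf2 j hj, hf2 k hk] at hab
      rw [G.c2inj j hj k hk hab]
  obtain ⟨g, hg⟩ := Finset.exists_equiv_extend_of_card_eq (t := (univ : Finset (Fin n)))
    (by simp) (s := S) (f := f) (subset_univ _) hinj
  refine ⟨g.trans ((Equiv.subtypeUnivEquiv (fun x => mem_univ x))), ?_, ?_⟩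
  · intro k hk
    rw [← hf1 k hk]
    exact hg (G.r1 k) (mem_union_left _ (mem_image_of_mem _ hk))
  · intro k hk
    rw [← hf2 k hk]
    exact hg (G.r2 k) (mem_union_right _ (mem_image_of_mem _ hk))

variable {K : Type w} [Field K]

lemma M0_zero_one (cR cC : Fin n → Finset ℕ) (i j : Fin n) :
    G.M0 cR cC (fun _ => (1 : K)) (fun _ => 1) i j = 0 ∨
      G.M0 cR cC (fun _ => (1 : K)) (fun _ => 1) i j = 1 := by
  unfold M0 colM
  split_ifs <;> simp

lemma perm_M0_ne_zero [CharZero K] (cR cC : Fin n → Finset ℕ) :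
    ∑ σ : Equiv.Perm (Fin n), ∏ k, G.M0 cR cC (fun _ => (1 : K)) (fun _ => 1) k (σ k) ≠ 0 := by
  classical
  have h1 : ∀ σ : Equiv.Perm (Fin n),
      ∏ k, G.M0 cR cC (fun _ => (1 : K)) (fun _ => 1) k (σ k) =
      if (∀ k, G.M0 cR cC (fun _ => (1 : K)) (fun _ => 1) k (σ k) = 1) then 1 else 0 := by
    intro σ
    split_ifs with h
    · exact Finset.prod_eq_one (fun k _ => h k)
    · rw [not_forall] at h
      obtain ⟨k, hk⟩ := h
      exact Finset.prod_eq_zero (mem_univ k)
        ((G.M0_zero_one cR cC k (σ k)).resolve_right hk)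
  rw [Finset.sum_congr rfl (fun σ _ => h1 σ), Finset.sum_boole]
  obtain ⟨σ, hσ1, hσ2⟩ := G.exists_perm
  have h2 : σ ∈ univ.filter (fun σ : Equiv.Perm (Fin n) =>
      ∀ k, G.M0 cR cC (fun _ => (1 : K)) (fun _ => 1) k (σ k) = 1) := by
    rw [mem_filter]
    refine ⟨mem_univ _, ?_⟩
    intro i
    by_cases hi1 : i ∈ (range r).image G.r1
    · rw [mem_image] at hi1
      obtain ⟨k, hk, rfl⟩ := hi1
      rw [hσ1 k hk]
      unfold M0
      rw [if_pos (mem_image_of_mem _ hk), G.kC_c1 hk]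
      unfold colM
      rw [if_neg, if_pos rfl]
      unfold A
      rw [mem_sdiff, mem_union]
      exact fun h => h.2 (Or.inl (mem_image_of_mem _ hk))
    · have hc1 : σ i ∉ (range r).image G.c1 := by
        intro h
        rw [mem_image] at h
        obtain ⟨k, hk, h⟩ := h
        rw [← hσ1 k hk] at h
        apply hi1
        rw [← σ.injective h]
        exact mem_image_of_mem _ hk
      by_cases hi2 : i ∈ (range r).image G.r2
      · rw [mem_image] at hi2
        obtain ⟨k, hk, rfl⟩ := hi2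
        unfold M0
        rw [if_neg hc1, if_pos (mem_image_of_mem _ hk), G.kR_r2 hk, hσ2 k hk]
        unfold colM
        rw [if_neg, if_pos rfl]
        unfold B
        rw [mem_sdiff, mem_union]
        exact fun h => h.2 (Or.inr (mem_image_of_mem _ hk))
      · unfold M0
        rw [if_neg hc1, if_neg hi2]
  have h3 : 0 < (univ.filter (fun σ : Equiv.Perm (Fin n) =>
      ∀ k, G.M0 cR cC (fun _ => (1 : K)) (fun _ => 1) k (σ k) = 1)).card :=
    Finset.card_pos.2 ⟨σ, h2⟩
  exact_mod_cast h3.ne'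

end Cells

/-- The determinant of the affine pencil `A0 + ∑ e, X e * A e` as a polynomial. -/
noncomputable def detPencil {K : Type u} [CommRing K] {n : ℕ} {m : Type v} [Fintype m]
    [DecidableEq m] (A0 : Matrix m m K) (A : Fin n × Fin n → Matrix m m K) :
    MvPolynomial (Fin n × Fin n) K :=
  Matrix.det (Matrix.of fun i j =>
    MvPolynomial.C (A0 i j) + ∑ e, MvPolynomial.C (A e i j) * MvPolynomial.X e)

lemma aeval_detPencil {K : Type u} [CommRing K] {n : ℕ} {m : Type v} [Fintype m]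
    [DecidableEq m] (A0 : Matrix m m K) (A : Fin n × Fin n → Matrix m m K)
    {R : Type w} [CommRing R] [Algebra K R] (s : Fin n × Fin n → R) :
    MvPolynomial.aeval s (detPencil A0 A) = Matrix.det (Matrix.of fun i j =>
      algebraMap K R (A0 i j) + ∑ e, algebraMap K R (A e i j) * s e) := by
  unfold detPencil
  rw [AlgHom.map_det]
  congr 1
  ext1 i j
  simp only [AlgHom.mapMatrix_apply, Matrix.map_apply, Matrix.of_apply, map_add, map_sum,
    map_mul, MvPolynomial.aeval_C, MvPolynomial.aeval_X]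

/-- The bound for one block. -/
theorem det_block_bound {K : Type u} [Field K] [CharZero K] {n r : ℕ} (G : Cells n r)
    (hn : 2 * r + 2 ≤ n) (hr : n - 2 * r ≤ 2 ^ r) {m : Type v} [Fintype m] [DecidableEq m]
    (A0 : Matrix m m K) (A : Fin n × Fin n → Matrix m m K)
    (hA : detPencil A0 A = permPoly K n) :
    n - 2 * r ≤ ∑ e ∈ G.cells, (A e).rank := by
  classical
  obtain ⟨cR, hcR, hcR'⟩ := Cells.exists_code (r := r) G.A (by
    rw [G.card_A (by omega)]
    exact hr)
  obtain ⟨cC, hcC, hcC'⟩ := Cells.exists_code (r := r) G.B (by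
    rw [G.card_B (by omega)]
    exact hr)
  have hval : ∀ t : (ℕ → K) × (ℕ → K), Matrix.det (Matrix.of fun i j =>
      algebraMap K (TrivSqZeroExt K (G.A × G.B → K)) (A0 i j) +
      ∑ e, algebraMap K (TrivSqZeroExt K (G.A × G.B → K)) (A e i j) *
        (fun (t : (ℕ → K) × (ℕ → K)) (e : Fin n × Fin n) =>
          G.MM cR cC t.1 t.2 e.1 e.2) t e) =
      ∑ σ : Equiv.Perm (Fin n), ∏ k, G.MM cR cC t.1 t.2 k (σ k) := by
    intro t
    have h1 := aeval_detPencil A0 A (R := TrivSqZeroExt K (G.A × G.B → K))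
      (fun e => G.MM cR cC t.1 t.2 e.1 e.2)
    rw [hA, Cells.aeval_permPoly] at h1
    exact h1.symm
  obtain ⟨W, hW, hW'⟩ := det_block (T := (ℕ → K) × (ℕ → K)) G.cells
    (fun t e => G.MM cR cC t.1 t.2 e.1 e.2) (fun _ => 1, fun _ => 1)
    (fun e he t => G.snd_MM_block cR cC t.1 t.2 e he)
    (fun e he t t' => G.MM_indep cR cC t.1 t.2 t'.1 t'.2 e he) A0 A (by
      rw [hval, TrivSqZeroExt.fst_sum]
      have h2 : ∀ σ : Equiv.Perm (Fin n),
          (∏ k, G.MM cR cC (fun _ => (1 : K)) (fun _ => 1) k (σ k)).fst =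
          ∏ k, G.M0 cR cC (fun _ => (1 : K)) (fun _ => 1) k (σ k) := by
        intro σ
        have h3 := map_prod (TrivSqZeroExt.fstHom K K (G.A × G.B → K))
          (fun k => G.MM cR cC (fun _ => (1 : K)) (fun _ => 1) k (σ k)) univ
        refine Eq.trans h3 ?_
        apply Finset.prod_congr rfl
        intro k _
        exact G.fst_MM cR cC _ _ k (σ k)
      rw [Finset.sum_congr rfl (fun σ _ => h2 σ)]
      exact G.perm_M0_ne_zero cR cC)
  have htop : W = ⊤ := by
    apply G.finrank_le cR cC (by omega) hcR hcR' hcC hcC'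
    intro y z
    have h1 := hW' (y, z)
    rw [hval] at h1
    exact h1
  rw [htop, finrank_top, Module.finrank_fintype_fun_eq_card, Fintype.card_prod,
    Fintype.card_coe, Fintype.card_coe, G.card_A (by omega), G.card_B (by omega)] at hW
  by_contra hlt
  rw [not_le] at hlt
  have h1 : ∑ e ∈ G.cells, (A e).rank + 1 ≤ n - 2 * r := hlt
  have h2 : 2 ≤ n - 2 * r := by omega
  generalize n - 2 * r = q at hW h1 h2
  generalize ∑ e ∈ G.cells, (A e).rank = ρ at hW h1
  nlinarith

/-- The bound for every width of the tiles. -/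
theorem det_bound {K : Type u} [Field K] [CharZero K] {n r : ℕ}
    (hn : 2 * r + 2 ≤ n) (hr : n - 2 * r ≤ 2 ^ r) {m : Type v} [Fintype m] [DecidableEq m]
    (A0 : Matrix m m K) (A : Fin n × Fin n → Matrix m m K)
    (hA : detPencil A0 A = permPoly K n) :
    n * (n / (2 * r)) * (n - 2 * r) ≤ ∑ e, (A e).rank := by
  classical
  have hn0 : 0 < n := by omega
  have h2 : ∀ p ∈ range n ×ˢ range (n / (2 * r)),
      n - 2 * r ≤ ∑ e ∈ Cells.tileSet n r hn0 p, (A e).rank := by
    rintro ⟨c, t⟩ hp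
    rw [mem_product, mem_range, mem_range] at hp
    unfold Cells.tileSet
    rw [dif_pos hp.2]
    exact det_block_bound (Cells.tile n r c t hn0 hp.2) hn hr A0 A hA
  have h5 := Finset.sum_le_sum h2
  rw [Finset.sum_const, card_product, card_range, card_range, smul_eq_mul,
    ← Finset.sum_biUnion] at h5
  · exact h5.trans (Finset.sum_le_sum_of_subset (subset_univ _))
  · intro a ha b hb hab
    exact Cells.tileSet_disjoint n r hn0 a (by simpa using ha) b (by simpa using hb) hab

/-- The final form of the bound. -/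
theorem det_bound_clog {K : Type u} [Field K] [CharZero K] {n : ℕ} (hn : 70 ≤ n)
    {m : Type v} [Fintype m] [DecidableEq m]
    (A0 : Matrix m m K) (A : Fin n × Fin n → Matrix m m K)
    (hA : detPencil A0 A = permPoly K n) :
    n ^ 3 ≤ 4 * Nat.clog 2 n * ∑ e, (A e).rank := by
  set L := Nat.clog 2 n with hL
  have h10 : 10 * L ≤ n := ten_clog_le n hn
  have hL1 : n ≤ 2 ^ L := Nat.le_pow_clog (by norm_num) n
  have hL0 : 0 < L := Nat.clog_pos (by norm_num) (by omega)
  have h1 := det_bound (r := L) (by omega) (by omega) A0 A hA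
  have h2 : n ^ 2 ≤ 2 * (n - 2 * L) ^ 2 := by
    have h1 : 4 * n ≤ 5 * (n - 2 * L) := by omega
    have h2 : (4 * n) ^ 2 ≤ (5 * (n - 2 * L)) ^ 2 := Nat.pow_le_pow_left h1 2
    rw [mul_pow, mul_pow] at h2
    generalize n ^ 2 = a at h2 ⊢
    generalize (n - 2 * L) ^ 2 = b at h2 ⊢
    omega
  have h3 : n - 2 * L ≤ 2 * L * (n / (2 * L)) := by
    have := Nat.lt_mul_div_succ n (b := 2 * L) (by omega)
    rw [Nat.mul_add] at this
    omega
  calc n ^ 3 = n * n ^ 2 := by ring
    _ ≤ n * (2 * (n - 2 * L) ^ 2) := Nat.mul_le_mul_left _ h2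
    _ = 2 * n * (n - 2 * L) * (n - 2 * L) := by ring
    _ ≤ 2 * n * (2 * L * (n / (2 * L))) * (n - 2 * L) :=
        Nat.mul_le_mul_right _ (Nat.mul_le_mul_left _ h3)
    _ = 4 * L * (n * (n / (2 * L)) * (n - 2 * L)) := by ring
    _ ≤ 4 * L * (∑ e, (A e).rank) := Nat.mul_le_mul_left _ h1

end Pool.Agent.Work.MP_499dc6_lc.H21
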