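import Pool.Agent.Work.MP_499dc6_lc.H21Span

set_option autoImplicit false

open Finset

namespace Pool.Agent.Work.MP_499dc6_lc.H21

universe u v w

/-- A choice of `2 r` non-attacking cells of the `n × n` board, in two groups. -/
structure Cells (n r : ℕ) where
  r1 : ℕ → Fin n
  r2 : ℕ → Fin n
  c1 : ℕ → Fin n
  c2 : ℕ → Fin n
  r1inj : ∀ j ∈ range r, ∀ k ∈ range r, r1 j = r1 k → j = k
  r2inj : ∀ j ∈ range r, ∀ k ∈ range r, r2 j = r2 k → j = k
  c1inj : ∀ j ∈ range r, ∀ k ∈ range r, c1 j = c1 k → j = k
  c2inj : ∀ j ∈ range r, ∀ k ∈ range r, c2 j = c2 k → j = k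
  rdis : ∀ j ∈ range r, ∀ k ∈ range r, r1 j ≠ r2 k
  cdis : ∀ j ∈ range r, ∀ k ∈ range r, c1 j ≠ c2 k

namespace Cells

variable {n r : ℕ} (G : Cells n r)

/-- ordinary rows -/
def A : Finset (Fin n) := univ \ ((range r).image G.r1 ∪ (range r).image G.r2)

/-- ordinary columns -/
def B : Finset (Fin n) := univ \ ((range r).image G.c1 ∪ (range r).image G.c2)

lemma card_A (hn : 2 * r ≤ n) : G.A.card = n - 2 * r := by
  unfold A
  rw [card_sdiff_of_subset (subset_univ _), card_union_of_disjoint, card_image_of_injOn,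
    card_image_of_injOn, card_univ, Fintype.card_fin, card_range]
  · omega
  · intro j hj k hk h
    exact G.r2inj j (by simpa using hj) k (by simpa using hk) h
  · intro j hj k hk h
    exact G.r1inj j (by simpa using hj) k (by simpa using hk) h
  · rw [disjoint_left]
    intro x hx hx'
    rw [mem_image] at hx hx'
    obtain ⟨j, hj, rfl⟩ := hx
    obtain ⟨k, hk, h⟩ := hx'
    exact G.rdis j hj k hk h.symm

lemma card_B (hn : 2 * r ≤ n) : G.B.card = n - 2 * r := by
  unfold B
  rw [card_sdiff_of_subset (subset_univ _), card_union_of_disjoint, card_image_of_injOn,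
    card_image_of_injOn, card_univ, Fintype.card_fin, card_range]
  · omega
  · intro j hj k hk h
    exact G.c2inj j (by simpa using hj) k (by simpa using hk) h
  · intro j hj k hk h
    exact G.c1inj j (by simpa using hj) k (by simpa using hk) h
  · rw [disjoint_left]
    intro x hx hx'
    rw [mem_image] at hx hx'
    obtain ⟨j, hj, rfl⟩ := hx
    obtain ⟨k, hk, h⟩ := hx'
    exact G.cdis j hj k hk h.symm

open Classical in
/-- index of a special column of the first group -/
noncomputable def kC (j : Fin n) : ℕ :=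
  if h : ∃ k ∈ range r, G.c1 k = j then h.choose else 0

open Classical in
/-- index of a special row of the second group -/
noncomputable def kR (i : Fin n) : ℕ :=
  if h : ∃ k ∈ range r, G.r2 k = i then h.choose else 0

lemma kC_c1 {k : ℕ} (hk : k ∈ range r) : G.kC (G.c1 k) = k := by
  have h : ∃ l ∈ range r, G.c1 l = G.c1 k := ⟨k, hk, rfl⟩
  unfold kC
  rw [dif_pos h]
  exact G.c1inj _ h.choose_spec.1 k hk h.choose_spec.2

lemma kR_r2 {k : ℕ} (hk : k ∈ range r) : G.kR (G.r2 k) = k := by
  have h : ∃ l ∈ range r, G.r2 l = G.r2 k := ⟨k, hk, rfl⟩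
  unfold kR
  rw [dif_pos h]
  exact G.r2inj _ h.choose_spec.1 k hk h.choose_spec.2

variable {K : Type w} [Field K]

/-- The constant part of the matrix. -/
noncomputable def M0 (cR cC : Fin n → Finset ℕ) (y z : ℕ → K) (i j : Fin n) : K :=
  if j ∈ (range r).image G.c1 then colM G.A G.r1 cR y i (G.kC j)
  else if i ∈ (range r).image G.r2 then colM G.B G.c2 cC z j (G.kR i)
  else 1

/-- The full matrix over the dual numbers. -/
noncomputable def MM (cR cC : Fin n → Finset ℕ) (y z : ℕ → K) (i j : Fin n) :
    TrivSqZeroExt K (G.A × G.B → K) :=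
  TrivSqZeroExt.inl (G.M0 cR cC y z i j) +
    TrivSqZeroExt.inr (fun p => if (p.1 : Fin n) = i ∧ (p.2 : Fin n) = j then 1 else 0)

lemma fst_MM (cR cC : Fin n → Finset ℕ) (y z : ℕ → K) (i j : Fin n) :
    (G.MM cR cC y z i j).fst = G.M0 cR cC y z i j := by
  simp [MM]

lemma snd_MM (cR cC : Fin n → Finset ℕ) (y z : ℕ → K) (i j : Fin n) (p : G.A × G.B) :
    (G.MM cR cC y z i j).snd p = if (p.1 : Fin n) = i ∧ (p.2 : Fin n) = j then 1 else 0 := by
  simp [MM]

lemma fst_ee {V : Type v} [AddCommGroup V] [Module K V] [Module Kᵐᵒᵖ V] [IsCentralScalar K V]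
    (M : Fin n → Fin n → TrivSqZeroExt K V) (L : List (Fin n)) :
    ∀ S : Finset (Fin n), (ee M L S).fst = ee (fun i j => (M i j).fst) L S := by
  induction L with
  | nil => intro S; simp
  | cons j L ih =>
    intro S
    rw [ee_cons, ee_cons, TrivSqZeroExt.fst_sum]
    exact Finset.sum_congr rfl (fun i _ => by rw [TrivSqZeroExt.fst_mul, ih])

lemma snd_ee (cR cC : Fin n → Finset ℕ) (y z : ℕ → K) (p : G.A × G.B) (L : List (Fin n)) :
    ∀ S : Finset (Fin n), L.Nodup → (ee (G.MM cR cC y z) L S).snd p =
      if ((p.1 : Fin n) ∈ S ∧ (p.2 : Fin n) ∈ L) then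
        ee (G.M0 cR cC y z) (L.erase p.2) (S.erase p.1) else 0 := by
  induction L with
  | nil => intro S _; simp
  | cons j L ih =>
    intro S hn
    have hj : j ∉ L := (List.nodup_cons.1 hn).1
    have hn' : L.Nodup := (List.nodup_cons.1 hn).2
    have hfst : ∀ S', (ee (G.MM cR cC y z) L S').fst = ee (G.M0 cR cC y z) L S' := by
      intro S'
      rw [fst_ee]
      congr 1
      funext i j
      exact G.fst_MM cR cC y z i j
    rw [ee_cons, TrivSqZeroExt.snd_sum, Finset.sum_apply]
    have h1 : ∀ i ∈ S, (G.MM cR cC y z i j * ee (G.MM cR cC y z) L (S.erase i)).snd p =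
        G.M0 cR cC y z i j * (if ((p.1 : Fin n) ∈ S.erase i ∧ (p.2 : Fin n) ∈ L) then
          ee (G.M0 cR cC y z) (L.erase p.2) ((S.erase i).erase p.1) else 0) +
        (if (p.1 : Fin n) = i ∧ (p.2 : Fin n) = j then ee (G.M0 cR cC y z) L (S.erase i)
          else 0) := by
      intro i _
      rw [TrivSqZeroExt.snd_mul, Pi.add_apply, Pi.smul_apply, Pi.smul_apply, ih (S.erase i) hn',
        G.fst_MM, G.snd_MM, hfst]
      simp only [smul_eq_mul, MulOpposite.smul_eq_mul_unop, MulOpposite.unop_op]
      congr 1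
      split_ifs <;> simp
    rw [Finset.sum_congr rfl h1, Finset.sum_add_distrib]
    by_cases hpj : (p.2 : Fin n) = j
    · -- the chosen column
      have h2 : ∑ i ∈ S, G.M0 cR cC y z i j *
          (if ((p.1 : Fin n) ∈ S.erase i ∧ (p.2 : Fin n) ∈ L) then
          ee (G.M0 cR cC y z) (L.erase p.2) ((S.erase i).erase p.1) else 0) = 0 := by
        apply Finset.sum_eq_zero
        intro i _
        rw [if_neg, mul_zero]
        rintro ⟨-, h⟩
        exact hj (hpj ▸ h)
      rw [h2, zero_add, hpj]
      simp only [and_true, List.mem_cons, true_or, List.erase_cons_head]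
      rw [Finset.sum_ite_eq]
    · have h2 : ∑ i ∈ S, (if (p.1 : Fin n) = i ∧ (p.2 : Fin n) = j then
          ee (G.M0 cR cC y z) L (S.erase i) else 0) = 0 := by
        apply Finset.sum_eq_zero
        intro i _
        rw [if_neg]
        exact fun h => hpj h.2
      rw [h2, add_zero]
      have hjp : ¬ j = (p.2 : Fin n) := fun h => hpj h.symm
      rw [List.erase_cons_tail (by simpa using hjp), ee_cons]
      by_cases hmem : (p.1 : Fin n) ∈ S ∧ (p.2 : Fin n) ∈ L
      · have hmem' : (p.1 : Fin n) ∈ S ∧ (p.2 : Fin n) ∈ j :: L :=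
          ⟨hmem.1, List.mem_cons_of_mem _ hmem.2⟩
        rw [if_pos hmem', ← Finset.add_sum_erase S _ hmem.1]
        rw [if_neg (by simp), mul_zero, zero_add]
        apply Finset.sum_congr rfl
        intro i hi
        have hi1 : i ≠ (p.1 : Fin n) := Finset.ne_of_mem_erase hi
        rw [if_pos ⟨Finset.mem_erase.2 ⟨hi1.symm, hmem.1⟩, hmem.2⟩, Finset.erase_right_comm]
      · have hmem' : ¬ ((p.1 : Fin n) ∈ S ∧ (p.2 : Fin n) ∈ j :: L) := by
          rintro ⟨h1, h2⟩
          rw [List.mem_cons] at h2
          exact hmem ⟨h1, h2.resolve_left hpj⟩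
        rw [if_neg hmem']
        apply Finset.sum_eq_zero
        intro i hi
        rw [if_neg, mul_zero]
        rintro ⟨h1, h2⟩
        exact hmem ⟨Finset.mem_of_mem_erase h1, h2⟩

/-- The value of the derivative of the permanent. -/
lemma snd_perm (cR cC : Fin n → Finset ℕ) (hn : 2 * r + 1 ≤ n) (y z : ℕ → K) (p : G.A × G.B) :
    (∑ σ : Equiv.Perm (Fin n), ∏ k, G.MM cR cC y z k (σ k)).snd p =
      (Nat.factorial (n - 2 * r - 1) : K) *
        ee (colM G.A G.r1 cR y) (List.range r) (G.A.erase p.1 ∪ (range r).image G.r1) *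
        ee (colM G.B G.c2 cC z) (List.range r) (G.B.erase p.2 ∪ (range r).image G.c2) := by
  classical
  obtain ⟨⟨a, ha⟩, ⟨b, hb⟩⟩ := p
  have ha' : a ∉ (range r).image G.r1 ∧ a ∉ (range r).image G.r2 := by
    unfold A at ha
    rw [mem_sdiff, mem_union] at ha
    exact ⟨fun h => ha.2 (Or.inl h), fun h => ha.2 (Or.inr h)⟩
  have hb' : b ∉ (range r).image G.c1 ∧ b ∉ (range r).image G.c2 := by
    unfold B at hb
    rw [mem_sdiff, mem_union] at hb
    exact ⟨fun h => hb.2 (Or.inl h), fun h => hb.2 (Or.inr h)⟩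
  -- lists
  let Lc : List (Fin n) := (List.range r).map G.c1
  let Tc : List (Fin n) := (univ \ (range r).image G.c1 : Finset (Fin n)).toList
  let Lr : List (Fin n) := (List.range r).map G.r2
  let Yr : Finset (Fin n) := (univ \ (range r).image G.r2).erase a
  have hLc : Lc.Nodup := by
    apply List.Nodup.map_on _ List.nodup_range
    intro j hj k hk h
    exact G.c1inj j (by simpa using hj) k (by simpa using hk) h
  have hLr : Lr.Nodup := by
    apply List.Nodup.map_on _ List.nodup_range
    intro j hj k hk h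
    exact G.r2inj j (by simpa using hj) k (by simpa using hk) h
  have hTc : Tc.Nodup := Finset.nodup_toList _
  have hmemLc : ∀ x, x ∈ Lc ↔ x ∈ (range r).image G.c1 := by
    intro x
    simp [Lc]
  have hmemLr : ∀ x, x ∈ Lr ↔ x ∈ (range r).image G.r2 := by
    intro x
    simp [Lr]
  have hmemTc : ∀ x, x ∈ Tc ↔ x ∉ (range r).image G.c1 := by
    intro x
    simp [Tc]
  have hbTc : b ∈ Tc := (hmemTc b).2 hb'.1
  have hbLc : b ∉ Lc := fun h => hb'.1 ((hmemLc b).1 h)
  have hperm : (List.finRange n).Perm (Lc ++ Tc) := by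
    rw [List.perm_ext_iff_of_nodup (List.nodup_finRange n)]
    · intro x
      simp only [List.mem_finRange, List.mem_append, true_iff]
      by_cases hx : x ∈ (range r).image G.c1
      · exact Or.inl ((hmemLc x).2 hx)
      · exact Or.inr ((hmemTc x).2 hx)
    · rw [List.nodup_append]
      refine ⟨hLc, hTc, ?_⟩
      intro x hx y' hy' h
      subst h
      exact (hmemTc x).1 hy' ((hmemLc x).1 hx)
  have hnd : (Lc ++ Tc).Nodup := hperm.nodup_iff.1 (List.nodup_finRange n)
  rw [perm_eq_ee, ee_perm _ hperm, G.snd_ee cR cC y z _ _ _ hnd,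
    if_pos ⟨mem_univ _, List.mem_append_right _ hbTc⟩]
  change ee (G.M0 cR cC y z) ((Lc ++ Tc).erase b) (univ.erase a) = _
  rw [List.erase_append_right _ hbLc]
  have hrows : (univ.erase a : Finset (Fin n)) = Yr ∪ Lr.toFinset := by
    ext x
    simp only [mem_erase, mem_univ, and_true, mem_union, List.mem_toFinset, hmemLr, Yr, mem_sdiff,
      true_and]
    constructor
    · intro h
      by_cases hx : x ∈ (range r).image G.r2
      · exact Or.inr hx
      · exact Or.inl ⟨h, hx⟩
    · rintro (h | h)
      · exact h.1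
      · rintro rfl
        exact ha'.2 h
  rw [hrows]
  have hcardR : ((range r).image G.r2).card = r := by
    rw [card_image_of_injOn, card_range]
    intro j hj k hk h
    exact G.r2inj j (by simpa using hj) k (by simpa using hk) h
  have hcardC : ((range r).image G.c1).card = r := by
    rw [card_image_of_injOn, card_range]
    intro j hj k hk h
    exact G.c1inj j (by simpa using hj) k (by simpa using hk) h
  rw [ee_block (G.M0 cR cC y z) (n - 2 * r - 1) Lr (Tc.erase b) Lc Yr (hTc.erase b) hLr]
  · -- identify the two factors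
    congr 1
    · congr 1
      rw [ee_map]
      have hY : Yr = G.A.erase a ∪ (range r).image G.r1 := by
        ext x
        simp only [Yr, mem_erase, mem_sdiff, mem_univ, true_and, mem_union, A]
        constructor
        · rintro ⟨h1, h2⟩
          by_cases hx : x ∈ (range r).image G.r1
          · exact Or.inr hx
          · exact Or.inl ⟨h1, fun h => h.elim hx h2⟩
        · rintro (⟨h1, h2⟩ | h)
          · exact ⟨h1, fun h => h2 (Or.inr h)⟩
          · refine ⟨?_, ?_⟩
            · rintro rfl
              exact ha'.1 h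
            · intro h'
              rw [mem_image] at h h'
              obtain ⟨j, hj, rfl⟩ := h
              obtain ⟨k, hk, hk'⟩ := h'
              exact G.rdis j hj k hk hk'.symm
      rw [hY]
      apply ee_congr
      intro i _ k hk
      have hk' : k ∈ range r := by simpa using hk
      unfold M0
      rw [if_pos (mem_image_of_mem _ hk'), G.kC_c1 hk']
    · rw [ee_map]
      have hT : (Tc.erase b).toFinset = G.B.erase b ∪ (range r).image G.c2 := by
        ext x
        rw [List.mem_toFinset, hTc.mem_erase_iff, hmemTc]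
        simp only [mem_erase, mem_sdiff, mem_univ, true_and, mem_union, B]
        constructor
        · rintro ⟨h1, h2⟩
          by_cases hx : x ∈ (range r).image G.c2
          · exact Or.inr hx
          · exact Or.inl ⟨h1, fun h => h.elim h2 hx⟩
        · rintro (⟨h1, h2⟩ | h)
          · exact ⟨h1, fun h => h2 (Or.inl h)⟩
          · refine ⟨?_, ?_⟩
            · rintro rfl
              exact hb'.2 h
            · intro h'
              rw [mem_image] at h h'
              obtain ⟨j, hj, rfl⟩ := h
              obtain ⟨k, hk, hk'⟩ := h'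
              exact G.cdis k hk j hj hk'
      rw [hT]
      apply ee_congr
      intro j hj k hk
      have hk' : k ∈ range r := by simpa using hk
      have hj' : j ∉ (range r).image G.c1 := by
        rw [mem_union] at hj
        rcases hj with hj | hj
        · have := Finset.mem_of_mem_erase hj
          unfold B at this
          rw [mem_sdiff, mem_union] at this
          exact fun h => this.2 (Or.inl h)
        · intro h
          rw [mem_image] at h hj
          obtain ⟨l, hl, rfl⟩ := hj
          obtain ⟨m, hm, hm'⟩ := h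
          exact G.cdis m hm l hl hm'
      unfold M0
      rw [if_neg hj', if_pos (mem_image_of_mem _ hk'), G.kR_r2 hk']
  · intro i hi h
    rw [hmemLr] at hi
    simp only [Yr, mem_erase, mem_sdiff, mem_univ, true_and] at h
    exact h.2 hi
  · intro i hi j hj
    rw [hmemLr, mem_image] at hi
    rw [hmemLc, mem_image] at hj
    obtain ⟨k, hk, rfl⟩ := hi
    obtain ⟨l, hl, rfl⟩ := hj
    unfold M0
    rw [if_pos (mem_image_of_mem _ hl), G.kC_c1 hl]
    unfold colM
    rw [if_neg, if_neg]
    · exact fun h => G.rdis l hl k hk h.symm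
    · unfold A
      rw [mem_sdiff, mem_union]
      rintro ⟨-, h⟩
      exact h (Or.inr (mem_image_of_mem _ hk))
  · intro i hi j hj
    simp only [Yr, mem_erase, mem_sdiff, mem_univ, true_and] at hi
    have hj' := (hmemTc j).1 (List.mem_of_mem_erase hj)
    unfold M0
    rw [if_neg hj', if_neg hi.2]
  · have h1 : a ∈ (univ \ (range r).image G.r2 : Finset (Fin n)) := by
      rw [mem_sdiff]
      exact ⟨mem_univ _, ha'.2⟩
    simp only [Yr, Lc]
    rw [card_erase_of_mem h1, card_sdiff_of_subset (subset_univ _), hcardR, card_univ,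
      Fintype.card_fin, List.length_map, List.length_range]
    omega
  · rw [List.length_erase_of_mem hbTc]
    simp only [Tc, Lr]
    rw [Finset.length_toList, card_sdiff_of_subset (subset_univ _), hcardC, card_univ,
      Fintype.card_fin, List.length_map, List.length_range]
    omega

/-- The gadget: a subspace containing all the derivatives is everything. -/
lemma finrank_le [CharZero K] (cR cC : Fin n → Finset ℕ) (hn : 2 * r + 1 ≤ n)
    (hcR : ∀ a ∈ G.A, ∀ b ∈ G.A, cR a = cR b → a = b) (hcR' : ∀ a ∈ G.A, cR a ⊆ range r)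
    (hcC : ∀ a ∈ G.B, ∀ b ∈ G.B, cC a = cC b → a = b) (hcC' : ∀ a ∈ G.B, cC a ⊆ range r)
    (W : Submodule K (G.A × G.B → K))
    (hW : ∀ y z : ℕ → K, (∑ σ : Equiv.Perm (Fin n), ∏ k, G.MM cR cC y z k (σ k)).snd ∈ W) :
    W = ⊤ := by
  classical
  by_contra hne
  obtain ⟨f, hf, hfW⟩ := Submodule.exists_le_ker_of_lt_top W (lt_top_iff_ne_top.2 hne)
  -- coordinates of the functional
  let w : Fin n → Fin n → K := fun a b =>
    if h : a ∈ G.A ∧ b ∈ G.B then f (Pi.single (⟨a, h.1⟩, ⟨b, h.2⟩) 1) else 0
  have hfx : ∀ x : G.A × G.B → K, f x = ∑ a ∈ G.A.attach, ∑ b ∈ G.B.attach,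
      w a b * x (a, b) := by
    intro x
    have h1 : x = ∑ p : G.A × G.B, x p • Pi.single p (1 : K) := by
      funext q
      simp [Finset.sum_apply, Pi.single_apply]
    conv_lhs => rw [h1]
    rw [map_sum, Fintype.sum_prod_type]
    simp only [Finset.univ_eq_attach]
    apply Finset.sum_congr rfl
    intro a _
    apply Finset.sum_congr rfl
    intro b _
    rw [map_smul, smul_eq_mul, mul_comm]
    congr 1
    simp [w, a.2, b.2]
  have hzero : ∀ y z : ℕ → K, ∑ a ∈ G.A, (∑ b ∈ G.B, w a b *
      ee (colM G.B G.c2 cC z) (List.range r) (G.B.erase b ∪ (range r).image G.c2)) *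
      ee (colM G.A G.r1 cR y) (List.range r) (G.A.erase a ∪ (range r).image G.r1) = 0 := by
    intro y z
    have h1 : f ((∑ σ : Equiv.Perm (Fin n), ∏ k, G.MM cR cC y z k (σ k)).snd) = 0 :=
      hfW (hW y z)
    rw [hfx] at h1
    have h2 : (Nat.factorial (n - 2 * r - 1) : K) ≠ 0 := by
      exact_mod_cast Nat.factorial_ne_zero _
    have h3 : (Nat.factorial (n - 2 * r - 1) : K) * (∑ a ∈ G.A, (∑ b ∈ G.B, w a b *
      ee (colM G.B G.c2 cC z) (List.range r) (G.B.erase b ∪ (range r).image G.c2)) *
      ee (colM G.A G.r1 cR y) (List.range r) (G.A.erase a ∪ (range r).image G.r1)) = 0 := by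
      rw [← h1, Finset.mul_sum, ← Finset.sum_attach G.A]
      apply Finset.sum_congr rfl
      intro a _
      rw [Finset.sum_mul, Finset.mul_sum, ← Finset.sum_attach G.B]
      apply Finset.sum_congr rfl
      intro b _
      rw [G.snd_perm cR cC hn y z (a, b)]
      ring
    exact (mul_eq_zero.1 h3).resolve_left h2
  have hr1 : ∀ j ∈ range r, G.r1 j ∉ G.A := by
    intro j hj h
    unfold A at h
    rw [mem_sdiff, mem_union] at h
    exact h.2 (Or.inl (mem_image_of_mem _ hj))
  have hc2 : ∀ j ∈ range r, G.c2 j ∉ G.B := by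
    intro j hj h
    unfold B at h
    rw [mem_sdiff, mem_union] at h
    exact h.2 (Or.inr (mem_image_of_mem _ hj))
  have h1 : ∀ z : ℕ → K, ∀ a ∈ G.A, ∑ b ∈ G.B, w a b *
      ee (colM G.B G.c2 cC z) (List.range r) (G.B.erase b ∪ (range r).image G.c2) = 0 := by
    intro z
    exact span_main r G.A G.r1 cR (fun a => ∑ b ∈ G.B, w a b *
      ee (colM G.B G.c2 cC z) (List.range r) (G.B.erase b ∪ (range r).image G.c2))
      hr1 G.r1inj hcR hcR' (fun y => hzero y z)
  have h2 : ∀ a ∈ G.A, ∀ b ∈ G.B, w a b = 0 := by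
    intro a ha
    exact span_main r G.B G.c2 cC (w a) hc2 G.c2inj hcC hcC' (fun z => h1 z a ha)
  apply hf
  apply LinearMap.ext
  intro x
  rw [hfx, LinearMap.zero_apply]
  apply Finset.sum_eq_zero
  intro a _
  apply Finset.sum_eq_zero
  intro b _
  rw [h2 a a.2 b b.2, zero_mul]

end Cells

end Pool.Agent.Work.MP_499dc6_lc.H21
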