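import Mathlib

set_option autoImplicit false

open Finset

namespace Pool.Agent.Work.MP_499dc6_lc.H21

universe u v w

variable {R : Type w} [CommRing R] {I : Type u} {J : Type v} [DecidableEq I] [DecidableEq J]

/-- Sum over all injections of the list `L` of columns into the set `S` of rows of the products of
the corresponding entries. -/
def ee (M : I → J → R) : List J → Finset I → R
  | [], _ => 1
  | j :: L, S => ∑ i ∈ S, M i j * ee M L (S.erase i)

omit [DecidableEq J] in
@[simp] lemma ee_nil (M : I → J → R) (S : Finset I) : ee M [] S = 1 := rfl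

omit [DecidableEq J] in
lemma ee_cons (M : I → J → R) (j : J) (L : List J) (S : Finset I) :
    ee M (j :: L) S = ∑ i ∈ S, M i j * ee M L (S.erase i) := rfl

omit [DecidableEq J] in
lemma ee_eq_zero_of_card_lt (M : I → J → R) (L : List J) :
    ∀ S : Finset I, S.card < L.length → ee M L S = 0 := by
  induction L with
  | nil => intro S h; simp at h
  | cons j L ih =>
    intro S h
    rw [ee_cons]
    apply Finset.sum_eq_zero
    intro i hi
    rw [ih (S.erase i), mul_zero]
    rw [Finset.card_erase_of_mem hi]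
    have : 0 < S.card := Finset.card_pos.2 ⟨i, hi⟩
    simp only [List.length_cons] at h
    omega

omit [DecidableEq J] in
lemma ee_congr (M N : I → J → R) (L : List J) :
    ∀ S : Finset I, (∀ i ∈ S, ∀ j ∈ L, M i j = N i j) → ee M L S = ee N L S := by
  induction L with
  | nil => intro S _; rfl
  | cons j L ih =>
    intro S h
    rw [ee_cons, ee_cons]
    apply Finset.sum_congr rfl
    intro i hi
    rw [h i hi j (by simp), ih (S.erase i)]
    intro i' hi' j' hj'
    exact h i' (Finset.mem_of_mem_erase hi') j' (List.mem_cons_of_mem _ hj')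

omit [DecidableEq J] in
lemma ee_perm (M : I → J → R) {L L' : List J} (h : L.Perm L') :
    ∀ S : Finset I, ee M L S = ee M L' S := by
  induction h with
  | nil => intro S; rfl
  | cons j _ ih =>
    intro S
    rw [ee_cons, ee_cons]
    exact Finset.sum_congr rfl (fun i _ => by rw [ih])
  | swap j j' L =>
    intro S
    simp only [ee_cons, Finset.mul_sum]
    rw [Finset.sum_comm' (t' := S) (s' := fun i => S.erase i)]
    · apply Finset.sum_congr rfl
      intro i _
      apply Finset.sum_congr rfl
      intro i' _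
      rw [Finset.erase_right_comm]
      ring
    · intro x y
      simp only [Finset.mem_erase]
      constructor
      · rintro ⟨h1, h2, h3⟩
        exact ⟨⟨fun h => h2 h.symm, h1⟩, h3⟩
      · rintro ⟨⟨h1, h2⟩, h3⟩
        exact ⟨h2, fun h => h1 h.symm, h3⟩
  | trans _ _ ih1 ih2 => intro S; rw [ih1, ih2]

/-- Expansion along a row. -/
lemma ee_row (M : I → J → R) (L : List J) (hL : L.Nodup) :
    ∀ (S : Finset I) (a : I), a ∈ S →
      ee M L S = ee M L (S.erase a) + ∑ j ∈ L.toFinset, M a j * ee M (L.erase j) (S.erase a) := by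
  induction L with
  | nil => intro S a _; simp
  | cons j0 L ih =>
    intro S a ha
    have hj0 : j0 ∉ L := (List.nodup_cons.1 hL).1
    have hL' : L.Nodup := (List.nodup_cons.1 hL).2
    rw [ee_cons, ← Finset.add_sum_erase S _ ha]
    have h1 : ∀ i ∈ S.erase a, M i j0 * ee M L (S.erase i) =
        M i j0 * ee M L ((S.erase a).erase i) +
          ∑ j ∈ L.toFinset, M a j * (M i j0 * ee M (L.erase j) ((S.erase a).erase i)) := by
      intro i hi
      have hia : i ≠ a := Finset.ne_of_mem_erase hi
      have ha' : a ∈ S.erase i := Finset.mem_erase.2 ⟨hia.symm, ha⟩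
      rw [ih hL' (S.erase i) a ha', Finset.erase_right_comm, mul_add, Finset.mul_sum]
      congr 1
      apply Finset.sum_congr rfl
      intro j _
      ring
    rw [Finset.sum_congr rfl h1, Finset.sum_add_distrib, Finset.sum_comm]
    have h2 : (j0 :: L).toFinset = insert j0 L.toFinset := by simp
    rw [h2, Finset.sum_insert (by simpa using hj0)]
    have h3 : (j0 :: L).erase j0 = L := by simp
    rw [h3, ee_cons]
    have h4 : ∀ j ∈ L.toFinset, M a j * ee M ((j0 :: L).erase j) (S.erase a) =
        ∑ i ∈ S.erase a, M a j * (M i j0 * ee M (L.erase j) ((S.erase a).erase i)) := by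
      intro j hj
      have hjj : j ≠ j0 := by
        rintro rfl
        exact hj0 (by simpa using hj)
      rw [List.erase_cons_tail (by simpa using hjj.symm), ee_cons, Finset.mul_sum]
    rw [Finset.sum_congr rfl h4]
    ring

omit [DecidableEq J] in
/-- All-ones block. -/
lemma ee_ones (M : I → J → R) (L : List J) :
    ∀ S : Finset I, (∀ i ∈ S, ∀ j ∈ L, M i j = 1) → S.card = L.length →
      ee M L S = (Nat.factorial L.length : R) := by
  induction L with
  | nil => intro S _ _; simp
  | cons j L ih =>
    intro S h hc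
    rw [ee_cons]
    have h1 : ∀ i ∈ S, M i j * ee M L (S.erase i) = (Nat.factorial L.length : R) := by
      intro i hi
      rw [h i hi j (by simp), one_mul]
      apply ih
      · intro i' hi' j' hj'
        exact h i' (Finset.mem_of_mem_erase hi') j' (List.mem_cons_of_mem _ hj')
      · rw [Finset.card_erase_of_mem hi, hc]
        simp
    rw [Finset.sum_congr rfl h1, Finset.sum_const, hc, nsmul_eq_mul]
    simp only [List.length_cons, Nat.factorial_succ, Nat.cast_mul]

/-- The block computation: `Lc` special columns, `Tc` ordinary columns, `Yr` ordinary rows, `Lr`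
special rows; zero on special rows times special columns, one on ordinary times ordinary. -/
lemma ee_block_rows (M : I → J → R) (k : ℕ) (Lr : List I) :
    ∀ (Tc : List J) (Yr : Finset I), Tc.Nodup → Lr.Nodup →
      (∀ i ∈ Lr, i ∉ Yr) → (∀ i ∈ Yr, ∀ j ∈ Tc, M i j = 1) → Yr.card = k →
      Tc.length = Lr.length + k →
      ee M Tc (Yr ∪ Lr.toFinset) =
        (Nat.factorial k : R) * ee (fun j i => M i j) Lr Tc.toFinset := by
  induction Lr with
  | nil =>
    intro Tc Yr _ _ _ h1 hYr hTc
    simp only [List.toFinset_nil, Finset.union_empty, ee_nil, mul_one]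
    have : Tc.length = k := by simpa using hTc
    rw [ee_ones M Tc Yr h1 (by rw [hYr, this]), this]
  | cons i0 Lr ih =>
    intro Tc Yr hTn hLn hdis h1 hYr hTc
    have hi0 : i0 ∉ Lr := (List.nodup_cons.1 hLn).1
    have hLn' : Lr.Nodup := (List.nodup_cons.1 hLn).2
    have hi0Y : i0 ∉ Yr := hdis i0 (by simp)
    have hmem : i0 ∈ Yr ∪ (i0 :: Lr).toFinset := by simp
    have herase : (Yr ∪ (i0 :: Lr).toFinset).erase i0 = Yr ∪ Lr.toFinset := by
      ext x
      simp only [Finset.mem_erase, Finset.mem_union, List.mem_toFinset, List.mem_cons]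
      constructor
      · rintro ⟨h, h' | h' | h'⟩
        · exact Or.inl h'
        · exact absurd h' h
        · exact Or.inr h'
      · rintro (h | h)
        · exact ⟨fun e => hi0Y (e ▸ h), Or.inl h⟩
        · exact ⟨fun e => hi0 (e ▸ h), Or.inr (Or.inr h)⟩
    have hcard : (Yr ∪ Lr.toFinset).card = k + Lr.length := by
      rw [Finset.card_union_of_disjoint, hYr, List.toFinset_card_of_nodup hLn']
      rw [Finset.disjoint_left]
      intro x hx hx'
      exact hdis x (List.mem_cons_of_mem _ (by simpa using hx')) hx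
    rw [ee_row M Tc hTn _ i0 hmem, herase, ee_eq_zero_of_card_lt M Tc (Yr ∪ Lr.toFinset)
      (by rw [hcard, hTc]; simp only [List.length_cons]; omega), zero_add, ee_cons, Finset.mul_sum]
    apply Finset.sum_congr rfl
    intro j hj
    have hj' : j ∈ Tc := by simpa using hj
    rw [ih (Tc.erase j) Yr (hTn.erase j) hLn' (fun i hi => hdis i (List.mem_cons_of_mem _ hi))
      (fun i hi j' hj' => h1 i hi j' (List.mem_of_mem_erase hj')) hYr
      (by rw [List.length_erase_of_mem hj', hTc]; simp only [List.length_cons]; omega)]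
    have : (Tc.erase j).toFinset = Tc.toFinset.erase j := by
      ext x
      simp [hTn.mem_erase_iff]
    rw [this]
    ring

lemma ee_block (M : I → J → R) (k : ℕ) (Lr : List I) (Tc : List J) (Lc : List J) :
    ∀ (Yr : Finset I), Tc.Nodup → Lr.Nodup →
      (∀ i ∈ Lr, i ∉ Yr) → (∀ i ∈ Lr, ∀ j ∈ Lc, M i j = 0) →
      (∀ i ∈ Yr, ∀ j ∈ Tc, M i j = 1) → Yr.card = Lc.length + k →
      Tc.length = Lr.length + k →
      ee M (Lc ++ Tc) (Yr ∪ Lr.toFinset) =
        (Nat.factorial k : R) * ee M Lc Yr * ee (fun j i => M i j) Lr Tc.toFinset := by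
  induction Lc with
  | nil =>
    intro Yr hTn hLn hdis _ h1 hYr hTc
    rw [List.nil_append, ee_nil, mul_one]
    exact ee_block_rows M k Lr Tc Yr hTn hLn hdis h1 (by simpa using hYr) hTc
  | cons j Lc ih =>
    intro Yr hTn hLn hdis h0 h1 hYr hTc
    rw [List.cons_append, ee_cons, ee_cons, Finset.sum_union]
    · have hz : ∑ i ∈ Lr.toFinset, M i j * ee M (Lc ++ Tc) ((Yr ∪ Lr.toFinset).erase i) = 0 := by
        apply Finset.sum_eq_zero
        intro i hi
        rw [h0 i (by simpa using hi) j (by simp), zero_mul]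
      rw [hz, add_zero, Finset.mul_sum, Finset.sum_mul]
      apply Finset.sum_congr rfl
      intro i hi
      have hiL : i ∉ Lr.toFinset := by
        intro h
        exact hdis i (by simpa using h) hi
      have herase : (Yr ∪ Lr.toFinset).erase i = Yr.erase i ∪ Lr.toFinset := by
        rw [Finset.erase_union_distrib, Finset.erase_eq_of_notMem hiL]
      rw [herase, ih (Yr.erase i) hTn hLn
        (fun i' hi' h => hdis i' hi' (Finset.mem_of_mem_erase h))
        (fun i' hi' j' hj' => h0 i' hi' j' (List.mem_cons_of_mem _ hj'))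
        (fun i' hi' j' hj' => h1 i' (Finset.mem_of_mem_erase hi') j' hj')
        (by rw [Finset.card_erase_of_mem hi, hYr]; simp only [List.length_cons]; omega) hTc]
      ring
    · rw [Finset.disjoint_left]
      intro x hx hx'
      exact hdis x (by simpa using hx') hx

omit [DecidableEq J] in
lemma ee_ofFn [Fintype I] (M : I → J → R) : ∀ (n : ℕ) (c : Fin n → J) (S : Finset I),
    ee M (List.ofFn c) S =
      ∑ ρ : Fin n → I, if (Function.Injective ρ ∧ ∀ k, ρ k ∈ S) then ∏ k, M (ρ k) (c k) else 0 := by
  intro n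
  induction n with
  | zero =>
    intro c S
    have h : ∀ ρ : Fin 0 → I, (Function.Injective ρ ∧ ∀ k, ρ k ∈ S) := fun ρ =>
      ⟨fun a => a.elim0, fun a => a.elim0⟩
    simp [h]
  | succ n ih =>
    intro c S
    rw [List.ofFn_succ, ee_cons]
    rw [← (Fin.consEquiv (fun _ : Fin (n + 1) => I)).sum_comp, Fintype.sum_prod_type]
    have hsub : ∑ i ∈ S, M i (c 0) * ee M (List.ofFn fun i => c i.succ) (S.erase i) =
        ∑ i : I, if i ∈ S then M i (c 0) * ee M (List.ofFn fun i => c i.succ) (S.erase i)
          else 0 := by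
      rw [Finset.sum_ite_mem]
      simp
    rw [hsub]
    apply Finset.sum_congr rfl
    intro x _
    by_cases hx : x ∈ S
    · rw [if_pos hx, ih, Finset.mul_sum]
      apply Finset.sum_congr rfl
      intro ρ _
      rw [mul_ite, mul_zero]
      have e1 : ∀ k : Fin n, (Fin.consEquiv (fun _ : Fin (n + 1) => I)) (x, ρ) k.succ = ρ k :=
        fun k => rfl
      have e0 : (Fin.consEquiv (fun _ : Fin (n + 1) => I)) (x, ρ) 0 = x := rfl
      have hcond : (Function.Injective ρ ∧ ∀ k, ρ k ∈ S.erase x) ↔
          (Function.Injective ((Fin.consEquiv (fun _ : Fin (n + 1) => I)) (x, ρ)) ∧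
            ∀ k, (Fin.consEquiv (fun _ : Fin (n + 1) => I)) (x, ρ) k ∈ S) := by
        change _ ↔ (Function.Injective (Fin.cons x ρ : Fin (n + 1) → I) ∧
          ∀ k, (Fin.cons x ρ : Fin (n + 1) → I) k ∈ S)
        rw [Fin.cons_injective_iff, Fin.forall_fin_succ]
        simp only [Fin.cons_zero, Fin.cons_succ, Finset.mem_erase, Set.mem_range, not_exists]
        constructor
        · rintro ⟨h1, h2⟩
          exact ⟨⟨fun k => (h2 k).1, h1⟩, hx, fun k => (h2 k).2⟩
        · rintro ⟨⟨h1, h2⟩, -, h3⟩
          exact ⟨h2, fun k => ⟨h1 k, h3 k⟩⟩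
      by_cases hc : (Function.Injective ρ ∧ ∀ k, ρ k ∈ S.erase x)
      · rw [if_pos hc, if_pos (hcond.1 hc), Fin.prod_univ_succ, e0]
        simp only [e1]
      · rw [if_neg hc, if_neg (fun h => hc (hcond.2 h))]
    · rw [if_neg hx]
      symm
      apply Finset.sum_eq_zero
      intro ρ _
      rw [if_neg]
      rintro ⟨-, h⟩
      exact hx (h 0)

/-- The permanent as a sum over injections. -/
lemma perm_eq_ee (n : ℕ) (X : Fin n → Fin n → R) :
    ∑ σ : Equiv.Perm (Fin n), ∏ k, X k (σ k) = ee X (List.finRange n) Finset.univ := by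
  have h1 : ∑ σ : Equiv.Perm (Fin n), ∏ k, X k (σ k) =
      ∑ σ : Equiv.Perm (Fin n), ∏ k, X (σ k) k := by
    refine Fintype.sum_equiv (Equiv.inv (Equiv.Perm (Fin n))) _ _ (fun σ => ?_)
    rw [← Equiv.prod_comp σ (fun k => X (((Equiv.inv (Equiv.Perm (Fin n))) σ) k) k)]
    apply Finset.prod_congr rfl
    intro k _
    simp
  rw [h1, ← List.ofFn_id, ee_ofFn, ← Finset.sum_filter]
  refine Finset.sum_bij (fun σ _ => (σ : Fin n → Fin n)) ?_ ?_ ?_ ?_
  · intro σ _
    simp [σ.injective]
  · intro σ _ τ _ h
    exact Equiv.ext (fun k => congrFun h k)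
  · intro ρ hρ
    rw [Finset.mem_filter] at hρ
    have hb : Function.Bijective ρ := Finite.injective_iff_bijective.1 hρ.2.1
    exact ⟨Equiv.ofBijective ρ hb, Finset.mem_univ _, rfl⟩
  · intro σ _
    rfl

end Pool.Agent.Work.MP_499dc6_lc.H21
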