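import Pool.Agent.Work.MP_499dc6_lc.H21Perm

set_option autoImplicit false

open Finset

namespace Pool.Agent.Work.MP_499dc6_lc.H21

universe u v w

variable {K : Type w} [Field K] [CharZero K] {I : Type u} [DecidableEq I]

omit [CharZero K] in
/-- If all the weighted sums `Q U` vanish for small `U`, the sums `X (U, T)` are determined. -/
lemma span_aux (P : I → ℕ → K) (A : Finset I) (v : I → K) (m : ℕ)
    (hQ : ∀ U : Finset ℕ, U.card < m → ∑ a ∈ A, v a * ∏ j ∈ U, P a j = 0) :
    ∀ (t : ℕ) (U T : Finset ℕ), Disjoint U T → T.card = t → U.card + T.card = m →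
      ∑ a ∈ A, v a * (∏ j ∈ U, P a j) * ee P T.toList (A.erase a) =
        (-1) ^ t * (Nat.factorial t : K) * ∑ a ∈ A, v a * ∏ j ∈ U ∪ T, P a j := by
  intro t
  induction t with
  | zero =>
    intro U T _ hT _
    rw [Finset.card_eq_zero] at hT
    subst hT
    simp
  | succ t ih =>
    intro U T hUT hT hm
    have hUm : U.card < m := by omega
    -- row expansion
    have h1 : ∀ a ∈ A, ee P T.toList (A.erase a) =
        ee P T.toList A - ∑ j ∈ T, P a j * ee P (T.erase j).toList (A.erase a) := by
      intro a ha
      have h2 := ee_row P T.toList T.nodup_toList A a ha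
      have h3 : ∑ j ∈ T.toList.toFinset, P a j * ee P (T.toList.erase j) (A.erase a) =
          ∑ j ∈ T, P a j * ee P (T.erase j).toList (A.erase a) := by
        rw [Finset.toList_toFinset]
        apply Finset.sum_congr rfl
        intro j hj
        congr 1
        apply ee_perm
        rw [List.perm_ext_iff_of_nodup (T.nodup_toList.erase j) (T.erase j).nodup_toList]
        intro x
        rw [T.nodup_toList.mem_erase_iff]
        simp
      rw [h3] at h2
      rw [h2]
      ring
    have h4 : ∑ a ∈ A, v a * (∏ j ∈ U, P a j) * ee P T.toList (A.erase a) =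
        (∑ a ∈ A, v a * ∏ j ∈ U, P a j) * ee P T.toList A -
          ∑ j ∈ T, ∑ a ∈ A, v a * (∏ i ∈ insert j U, P a i) *
            ee P (T.erase j).toList (A.erase a) := by
      rw [Finset.sum_comm, Finset.sum_mul, ← Finset.sum_sub_distrib]
      apply Finset.sum_congr rfl
      intro a ha
      rw [h1 a ha, mul_sub, Finset.mul_sum]
      congr 1
      apply Finset.sum_congr rfl
      intro j hj
      have hjU : j ∉ U := Finset.disjoint_right.1 hUT hj
      rw [Finset.prod_insert hjU]
      ring
    rw [h4, hQ U hUm, zero_mul, zero_sub]
    have h5 : ∀ j ∈ T, ∑ a ∈ A, v a * (∏ i ∈ insert j U, P a i) *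
        ee P (T.erase j).toList (A.erase a) =
        (-1) ^ t * (Nat.factorial t : K) * ∑ a ∈ A, v a * ∏ j ∈ U ∪ T, P a j := by
      intro j hj
      have hjU : j ∉ U := Finset.disjoint_right.1 hUT hj
      have hcard : (T.erase j).card = t := by
        rw [Finset.card_erase_of_mem hj, hT]
        rfl
      rw [ih (insert j U) (T.erase j) ?_ hcard ?_]
      · congr 1
        apply Finset.sum_congr rfl
        intro a _
        congr 1
        have : insert j U ∪ T.erase j = U ∪ T := by
          ext x
          simp only [Finset.mem_union, Finset.mem_insert, Finset.mem_erase]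
          constructor
          · rintro ((h | h) | h)
            · exact Or.inr (h ▸ hj)
            · exact Or.inl h
            · exact Or.inr h.2
          · rintro (h | h)
            · exact Or.inl (Or.inr h)
            · by_cases hx : x = j
              · exact Or.inl (Or.inl hx)
              · exact Or.inr ⟨hx, h⟩
        rw [this]
      · rw [Finset.disjoint_left]
        intro x hx hx'
        rw [Finset.mem_insert] at hx
        rw [Finset.mem_erase] at hx'
        rcases hx with h | h
        · exact hx'.1 h
        · exact Finset.disjoint_left.1 hUT h hx'.2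
      · rw [Finset.card_insert_of_notMem hjU, hcard]
        omega
    rw [Finset.sum_congr rfl h5, Finset.sum_const, hT, nsmul_eq_mul, Nat.factorial_succ, pow_succ]
    push_cast
    ring

/-- If the sums against all the `ee P T (A.erase a)` vanish, so do the sums against all products. -/
lemma span_prod (P : I → ℕ → K) (A : Finset I) (v : I → K) (B : Finset ℕ)
    (h : ∀ T : Finset ℕ, T ⊆ B → ∑ a ∈ A, v a * ee P T.toList (A.erase a) = 0) :
    ∀ (m : ℕ) (T : Finset ℕ), T ⊆ B → T.card = m → ∑ a ∈ A, v a * ∏ j ∈ T, P a j = 0 := by
  -- restrict to columns in `B` by replacing `P` by zero outside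
  classical
  intro m
  induction m using Nat.strong_induction_on with
  | _ m ih =>
    intro T hTB hT
    let P' : I → ℕ → K := fun a j => if j ∈ B then P a j else 0
    have hP' : ∀ U : Finset ℕ, U ⊆ B → ∀ a, ∏ j ∈ U, P' a j = ∏ j ∈ U, P a j := by
      intro U hU a
      apply Finset.prod_congr rfl
      intro j hj
      simp [P', hU hj]
    have hQ : ∀ U : Finset ℕ, U.card < m → ∑ a ∈ A, v a * ∏ j ∈ U, P' a j = 0 := by
      intro U hU
      by_cases hUB : U ⊆ B
      · have := ih U.card hU U hUB rfl
        rw [← this]
        exact Finset.sum_congr rfl (fun a _ => by rw [hP' U hUB])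
      · obtain ⟨j, hj, hjB⟩ := Finset.not_subset.1 hUB
        apply Finset.sum_eq_zero
        intro a _
        rw [Finset.prod_eq_zero hj (by simp [P', hjB]), mul_zero]
    have key := span_aux P' A v m hQ m ∅ T (Finset.disjoint_empty_left T) hT (by simp [hT])
    have h1 : ∑ a ∈ A, v a * (∏ j ∈ (∅ : Finset ℕ), P' a j) * ee P' T.toList (A.erase a) = 0 := by
      rw [← h T hTB]
      apply Finset.sum_congr rfl
      intro a _
      rw [Finset.prod_empty, mul_one]
      congr 1
      apply ee_congr
      intro i _ j hj
      have : j ∈ B := hTB (by simpa using hj)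
      simp [P', this]
    rw [h1] at key
    have h2 : ((-1) ^ m * (Nat.factorial m : K)) ≠ 0 := by
      apply mul_ne_zero
      · exact pow_ne_zero _ (by norm_num)
      · exact_mod_cast Nat.factorial_ne_zero m
    have h3 := (mul_eq_zero.1 key.symm).resolve_left h2
    rw [Finset.empty_union] at h3
    rw [← h3]
    exact Finset.sum_congr rfl (fun a _ => by rw [hP' T hTB])

omit [CharZero K] [DecidableEq I] in
/-- The products separate points when the codes are distinct. -/
lemma separate (A : Finset I) (v : I → K) (code : I → Finset ℕ) (B : Finset ℕ)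
    (hinj : ∀ a ∈ A, ∀ b ∈ A, code a = code b → a = b) (hB : ∀ a ∈ A, code a ⊆ B)
    (h : ∀ T : Finset ℕ, T ⊆ B →
      ∑ a ∈ A, v a * ∏ j ∈ T, (if j ∈ code a then (1 : K) else 0) = 0) :
    ∀ a ∈ A, v a = 0 := by
  classical
  by_contra hcon
  push Not at hcon
  obtain ⟨a1, ha1, hv1⟩ := hcon
  have hne : (A.filter (fun a => v a ≠ 0)).Nonempty := ⟨a1, by simp [ha1, hv1]⟩
  obtain ⟨a0, ha0, hmax⟩ := Finset.exists_max_image _ (fun a => (code a).card) hne
  rw [Finset.mem_filter] at ha0
  have h1 := h (code a0) (hB a0 ha0.1)
  rw [Finset.sum_eq_single a0] at h1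
  · rw [Finset.prod_eq_one] at h1
    · exact ha0.2 (by simpa using h1)
    · intro j hj
      simp [hj]
  · intro a ha hne'
    by_cases hv : v a = 0
    · rw [hv, zero_mul]
    · have hle := hmax a (by simp [ha, hv])
      have hns : ¬ code a0 ⊆ code a := by
        intro hs
        have := Finset.eq_of_subset_of_card_le hs hle
        exact hne' (hinj a ha a0 ha0.1 this.symm)
      obtain ⟨j, hj, hja⟩ := Finset.not_subset.1 hns
      rw [Finset.prod_eq_zero hj (by simp [hja]), mul_zero]
  · intro h'
    exact absurd ha0.1 h'

omit [CharZero K] in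
lemma ee_map {J J' : Type*} (M : I → J → K) (c : J' → J) (L : List J') :
    ∀ S : Finset I, ee M (L.map c) S = ee (fun i k => M i (c k)) L S := by
  induction L with
  | nil => intro S; rfl
  | cons j L ih =>
    intro S
    rw [List.map_cons, ee_cons, ee_cons]
    exact Finset.sum_congr rfl (fun i _ => by rw [ih])

/-- The column matrix with parameters `y`. -/
def colM (A : Finset I) (α : ℕ → I) (code : I → Finset ℕ) (y : ℕ → K) : I → ℕ → K :=
  fun i j => if i ∈ A then (if j ∈ code i then 1 else 0) else (if i = α j then y j else 0)

omit [CharZero K] in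
/-- Elimination of the parameters. -/
lemma elim_params (A : Finset I) (α : ℕ → I) (code : I → Finset ℕ) (v : I → K) (B : Finset ℕ)
    (hα : ∀ j ∈ B, α j ∉ A) (hαi : ∀ j ∈ B, ∀ k ∈ B, α j = α k → j = k) (L : List ℕ) :
    ∀ R : List ℕ, (L ++ R).Nodup → (∀ j ∈ L ++ R, j ∈ B) →
      (∀ y : ℕ → K, ∑ a ∈ A, v a * ee (colM A α code y) (L ++ R)
        (A.erase a ∪ L.toFinset.image α) = 0) →
      ∀ T : Finset ℕ, T ⊆ L.toFinset →
        ∑ a ∈ A, v a * ee (colM A α code (fun _ => (0 : K))) (T.toList ++ R) (A.erase a) = 0 := by
  classical
  induction L with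
  | nil =>
    intro R _ _ h T hT
    have : T = ∅ := by
      rw [List.toFinset_nil, Finset.subset_empty] at hT
      exact hT
    subst this
    simpa using h (fun _ => 0)
  | cons j L ih =>
    intro R hn hB h T hT
    have hjB : j ∈ B := hB j (by simp)
    have hLB : ∀ k ∈ L, k ∈ B := fun k hk => hB k (by simp [hk])
    have hB1 : ∀ k ∈ L ++ R, k ∈ B := fun k hk => hB k (by
      rw [List.cons_append]
      exact List.mem_cons_of_mem _ hk)
    have hB2 : ∀ k ∈ L ++ (j :: R), k ∈ B := fun k hk => by
      rw [List.mem_append, List.mem_cons] at hk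
      rcases hk with hk | hk | hk
      · exact hLB k hk
      · exact hk ▸ hjB
      · exact hB1 k (List.mem_append_right _ hk)
    have hn1 : (L ++ R).Nodup := (List.nodup_cons.1 (by simpa using hn)).2
    have hj : j ∉ L ++ R := (List.nodup_cons.1 (by simpa using hn)).1
    have hjL : j ∉ L := fun h' => hj (List.mem_append_left _ h')
    have hjR : j ∉ R := fun h' => hj (List.mem_append_right _ h')
    have hn2 : (L ++ (j :: R)).Nodup := by
      rw [List.nodup_middle]
      simpa using hn
    -- expansion
    have hexp : ∀ (y : ℕ → K) (a : I), a ∈ A →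
        ee (colM A α code y) ((j :: L) ++ R) (A.erase a ∪ (j :: L).toFinset.image α) =
        ee (colM A α code y) (L ++ (j :: R)) (A.erase a ∪ L.toFinset.image α) +
          y j * ee (colM A α code y) (L ++ R) (A.erase a ∪ L.toFinset.image α) := by
      intro y a ha
      have hmem : α j ∈ A.erase a ∪ (j :: L).toFinset.image α := by simp
      have herase : (A.erase a ∪ (j :: L).toFinset.image α).erase (α j) =
          A.erase a ∪ L.toFinset.image α := by
        ext x
        simp only [Finset.mem_erase, Finset.mem_union, Finset.mem_image, List.mem_toFinset,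
          List.mem_cons]
        constructor
        · rintro ⟨h1, h2 | ⟨k, h2 | h2, h3⟩⟩
          · exact Or.inl h2
          · exact absurd (h2 ▸ h3.symm) h1
          · exact Or.inr ⟨k, h2, h3⟩
        · rintro (h2 | ⟨k, h2, h3⟩)
          · exact ⟨fun e => hα j hjB (e ▸ h2.2), Or.inl h2⟩
          · refine ⟨fun e => ?_, Or.inr ⟨k, Or.inr h2, h3⟩⟩
            have : k = j := hαi k (hLB k h2) j hjB (h3.trans e)
            exact hjL (this ▸ h2)
      rw [ee_row _ _ hn _ _ hmem, herase]
      congr 1
      · apply ee_perm
        simp only [List.cons_append]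
        exact List.perm_middle.symm
      · have hj' : j ∈ ((j :: L) ++ R).toFinset := by simp
        rw [Finset.sum_eq_single j]
        · have : ((j :: L) ++ R).erase j = L ++ R := by simp
          rw [this]
          congr 1
          simp [colM, hα j hjB]
        · intro k hk hkj
          have hkB : k ∈ B := hB k (by simpa using hk)
          have : colM A α code y (α j) k = 0 := by
            simp only [colM, hα j hjB, if_false]
            rw [if_neg]
            intro h'
            exact hkj (hαi j hjB k hkB h').symm
          rw [this, zero_mul]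
        · intro h'
          exact absurd hj' h'
    -- independence of `y j`
    have hindep : ∀ (y : ℕ → K) (c : K) (L' : List ℕ) (a : I),
        ee (colM A α code (Function.update y j c)) L' (A.erase a ∪ L.toFinset.image α) =
        ee (colM A α code y) L' (A.erase a ∪ L.toFinset.image α) := by
      intro y c L' a
      apply ee_congr
      intro i hi k _
      by_cases hkj : k = j
      · subst hkj
        have hik : i ≠ α k := by
          intro e
          rw [Finset.mem_union] at hi
          rcases hi with hi | hi
          · exact hα k hjB (e ▸ Finset.mem_of_mem_erase hi)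
          · rw [Finset.mem_image] at hi
            obtain ⟨l, hl, hl'⟩ := hi
            have hl2 : l ∈ L := by simpa using hl
            have : l = k := hαi l (hLB l hl2) k hjB (hl'.trans e)
            exact hjL (this ▸ hl2)
        simp [colM, hik]
      · simp [colM, Function.update_of_ne hkj]
    have hsum : ∀ y : ℕ → K,
        ∑ a ∈ A, v a * ee (colM A α code y) (L ++ (j :: R)) (A.erase a ∪ L.toFinset.image α) = 0 ∧
        ∑ a ∈ A, v a * ee (colM A α code y) (L ++ R) (A.erase a ∪ L.toFinset.image α) = 0 := by
      intro y
      have h0 := h (Function.update y j 0)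
      have h1 := h (Function.update y j 1)
      rw [Finset.sum_congr rfl (fun a ha => by rw [hexp _ a ha])] at h0
      rw [Finset.sum_congr rfl (fun a ha => by rw [hexp _ a ha])] at h1
      simp only [Function.update_self, zero_mul, one_mul, add_zero] at h0 h1
      rw [Finset.sum_congr rfl (fun a _ => by rw [hindep])] at h0
      rw [Finset.sum_congr rfl (fun a _ => by rw [hindep, hindep])] at h1
      refine ⟨h0, ?_⟩
      rw [Finset.sum_congr rfl (fun a _ => by rw [mul_add]), Finset.sum_add_distrib, h0,
        zero_add] at h1
      exact h1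
    by_cases hjT : j ∈ T
    · have h1 := ih (j :: R) hn2 hB2 (fun y => (hsum y).1) (T.erase j) (by
        intro x hx
        rw [Finset.mem_erase] at hx
        have := hT hx.2
        simp only [List.toFinset_cons, Finset.mem_insert] at this
        exact this.resolve_left hx.1)
      refine Eq.trans ?_ h1
      apply Finset.sum_congr rfl
      intro a _
      congr 1
      apply ee_perm
      have h2 : T.toList.Perm (j :: (T.erase j).toList) := by
        have := Finset.toList_insert (Finset.notMem_erase j T)
        rwa [Finset.insert_erase hjT] at this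
      have h3 : (T.toList ++ R).Perm ((j :: (T.erase j).toList) ++ R) := h2.append_right R
      refine h3.trans ?_
      simp only [List.cons_append]
      exact List.perm_middle.symm
    · apply ih R hn1 hB1 (fun y => (hsum y).2) T
      intro x hx
      have := hT hx
      simp only [List.toFinset_cons, Finset.mem_insert] at this
      exact this.resolve_left (fun e => hjT (e ▸ hx))

/-- The spanning lemma: the family of vectors `a ↦ ee (colM y) [0..r-1] (rows without a)` spans. -/
lemma span_main (r : ℕ) (A : Finset I) (α : ℕ → I) (code : I → Finset ℕ) (v : I → K)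
    (hα : ∀ j ∈ Finset.range r, α j ∉ A)
    (hαi : ∀ j ∈ Finset.range r, ∀ k ∈ Finset.range r, α j = α k → j = k)
    (hinj : ∀ a ∈ A, ∀ b ∈ A, code a = code b → a = b)
    (hcode : ∀ a ∈ A, code a ⊆ Finset.range r)
    (h : ∀ y : ℕ → K, ∑ a ∈ A, v a * ee (colM A α code y) (List.range r)
        (A.erase a ∪ (Finset.range r).image α) = 0) :
    ∀ a ∈ A, v a = 0 := by
  classical
  have h0 : (List.range r).toFinset = Finset.range r := by
    ext x
    simp
  have h1 := elim_params A α code v (Finset.range r) hα hαi (List.range r) [] (by
      rw [List.append_nil]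
      exact List.nodup_range) (by
      intro j hj
      rw [List.append_nil] at hj
      simpa using hj) (by
      intro y
      rw [List.append_nil, h0]
      exact h y)
  rw [h0] at h1
  have h2 : ∀ T : Finset ℕ, T ⊆ Finset.range r →
      ∑ a ∈ A, v a * ee (colM A α code (fun _ => (0 : K))) T.toList (A.erase a) = 0 := by
    intro T hT
    have := h1 T hT
    simpa using this
  have h3 := span_prod (colM A α code (fun _ => (0 : K))) A v (Finset.range r) h2
  apply separate A v code (Finset.range r) hinj hcode
  intro T hT
  refine Eq.trans ?_ (h3 T.card T hT rfl)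
  apply Finset.sum_congr rfl
  intro a ha
  congr 1
  apply Finset.prod_congr rfl
  intro j _
  simp [colM, ha]

end Pool.Agent.Work.MP_499dc6_lc.H21
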