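import Mathlib

/-!
# Arithmetic circuits and local permutations of the rows and columns

Definitions used in the statement of the lower bound.
-/

namespace Pool.Agent.LocalArith

open MvPolynomial

/-- The rows and the columns of the matrix are indexed by `N` disjoint triples (the index
`Sum.inl (j, i)` is the `i`-th element of the `j`-th triple) and further indices `W`. -/
abbrev Idx (N : ℕ) (W : Type) : Type := (Fin N × Fin 3) ⊕ W

/-- The local permutation `σ` of the indices permutes the `j`-th triple by `σ j` for every `j` and
fixes the indices of `W`. -/
def localPerm {N : ℕ} (W : Type) (σ : Fin N → Equiv.Perm (Fin 3)) : Equiv.Perm (Idx N W) :=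
  Equiv.sumCongr (Equiv.prodCongrRight σ) (Equiv.refl W)

/-- The images of a polynomial in the entries of a square matrix under the simultaneous local
permutations of the rows and columns of the matrix. -/
def images {N : ℕ} {W K : Type} [CommRing K] (f : MvPolynomial (Idx N W × Idx N W) K) :
    Set (MvPolynomial (Idx N W × Idx N W) K) :=
  Set.range fun σ : Fin N → Equiv.Perm (Fin 3) =>
    rename (fun p => (localPerm W σ p.1, localPerm W σ p.2)) f

/-- The polynomial `f` is computed by one gate from polynomials of the set `prev`:
* it is an arbitrary polynomial `G` of at most `d` of them (such as a product), or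
* it is a linear combination of any number of them. -/
def IsGate {V K : Type} [CommRing K] (d : ℕ) (prev : Set (MvPolynomial V K))
    (f : MvPolynomial V K) : Prop :=
  (∃ (h : Fin d → MvPolynomial V K) (G : MvPolynomial (Fin d) K),
    (∀ i, h i ∈ prev) ∧ f = aeval h G) ∨
  (∃ (k : ℕ) (h : Fin k → MvPolynomial V K) (c : Fin k → K),
    (∀ i, h i ∈ prev) ∧ f = ∑ i, c i • h i)

/-- `F 0, …, F (s - 1)` are the polynomials computed by the gates of an arithmetic circuit: each of
them is computed by one gate from variables, constants and earlier polynomials. -/
def IsCircuit {V K : Type} [CommRing K] {s : ℕ} (d : ℕ) (F : Fin s → MvPolynomial V K) : Prop :=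
  ∀ g, IsGate d ({f | (∃ v, f = X v) ∨ (∃ c, f = C c) ∨ ∃ h < g, f = F h}) (F g)

/-- the permanent of the matrix of variables -/
noncomputable def permPoly (n K : Type) [Fintype n] [DecidableEq n] [CommRing K] :
    MvPolynomial (n × n) K :=
  ∑ σ : Equiv.Perm n, ∏ i, X (i, σ i)

end Pool.Agent.LocalArith
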