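import Pool.Agent.Work.MP_499dc6_lc.H29Defs
import Pool.Agent.Work.MP_71c844_lc.LSExpander
import Pool.Agent.Work.MP_71c844_lc.LSGroup

/-!
# The substitution and the polynomials without large monomials
-/

namespace Pool.Agent.LocalArith

open MvPolynomial Finset Pool.Agent.LocalSym

variable {N : ℕ} {W K : Type} [Field K]

/-! ### Stabilisers -/

/-- the action of a local permutation -/
noncomputable def act (K : Type) [CommRing K] (W : Type) (σ : Fin N → Equiv.Perm (Fin 3)) :
    MvPolynomial (Idx N W × Idx N W) K →ₐ[K] MvPolynomial (Idx N W × Idx N W) K :=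
  rename (fun p => (localPerm W σ p.1, localPerm W σ p.2))

lemma localPerm_one : localPerm W (1 : Fin N → Equiv.Perm (Fin 3)) = 1 := by
  ext v
  rcases v with ⟨j, u⟩ | w <;> rfl

lemma localPerm_mul (σ τ : Fin N → Equiv.Perm (Fin 3)) :
    localPerm W (σ * τ) = localPerm W σ * localPerm W τ := by
  ext v
  rcases v with ⟨j, u⟩ | w <;> rfl

lemma act_one (f : MvPolynomial (Idx N W × Idx N W) K) : act K W 1 f = f := by
  unfold act
  have : (fun p : Idx N W × Idx N W => (localPerm W 1 p.1, localPerm W 1 p.2)) = id := by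
    funext p
    rw [localPerm_one]; rfl
  rw [this, rename_id]; rfl

lemma act_mul (σ τ : Fin N → Equiv.Perm (Fin 3)) (f : MvPolynomial (Idx N W × Idx N W) K) :
    act K W (σ * τ) f = act K W σ (act K W τ f) := by
  unfold act
  rw [rename_rename]
  congr 2
  funext p
  simp only [localPerm_mul, Function.comp, Equiv.Perm.mul_apply]

/-- the local permutations fixing a polynomial -/
def fstab (f : MvPolynomial (Idx N W × Idx N W) K) : Subgroup (Fin N → Equiv.Perm (Fin 3)) where
  carrier := {σ | act K W σ f = f}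
  one_mem' := act_one f
  mul_mem' := by
    intro σ τ hσ hτ
    show act K W (σ * τ) f = f
    rw [act_mul, show act K W τ f = f from hτ, show act K W σ f = f from hσ]
  inv_mem' := by
    intro σ hσ
    show act K W σ⁻¹ f = f
    conv_lhs => rw [← show act K W σ f = f from hσ]
    rw [← act_mul, inv_mul_cancel, act_one]

lemma mem_fstab {f : MvPolynomial (Idx N W × Idx N W) K} {σ : Fin N → Equiv.Perm (Fin 3)} :
    σ ∈ fstab f ↔ act K W σ f = f := Iff.rfl

lemma images_finite (f : MvPolynomial (Idx N W × Idx N W) K) : (images f).Finite :=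
  Set.finite_range _

lemma images_nonempty (f : MvPolynomial (Idx N W × Idx N W) K) : (images f).Nonempty :=
  Set.range_nonempty _

theorem index_fstab_le (f : MvPolynomial (Idx N W × Idx N W) K) :
    (fstab f).index ≤ (images f).ncard := by
  classical
  have hfin : Finite (images f) := images_finite f
  have hinj : Function.Injective
      (fun q : (Fin N → Equiv.Perm (Fin 3)) ⧸ fstab f =>
        (⟨act K W q.out f, q.out, rfl⟩ : images f)) := by
    intro q q' h
    have h0 : act K W q.out f = act K W q'.out f := congrArg Subtype.val h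
    have h1 : (q'.out)⁻¹ * q.out ∈ fstab f := by
      rw [mem_fstab, act_mul, h0, ← act_mul, inv_mul_cancel, act_one]
    have h2 : (QuotientGroup.mk q'.out : (Fin N → Equiv.Perm (Fin 3)) ⧸ fstab f) =
        QuotientGroup.mk q.out := QuotientGroup.eq.2 h1
    simpa using h2.symm
  have := Nat.card_le_card_of_injective _ hinj
  simpa [Subgroup.index] using this

open Classical in
/-- the support of a polynomial -/
noncomputable def fsupp (f : MvPolynomial (Idx N W × Idx N W) K) : Finset (Fin N) :=
  univ.filter fun j => Pi.mulSingle j rot ∉ fstab f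

lemma card_fsupp_le {f : MvPolynomial (Idx N W × Idx N W) K} {k : ℕ}
    (hk : (images f).ncard < 2 ^ k) : #(fsupp f) ≤ 2 * (k - 1) := by
  refine card_rot_not_mem _ k ((index_fstab_le f).trans_lt hk) _ ?_
  intro j hj
  simpa [fsupp] using hj

/-! ### The substitution -/

/-- the row blocks -/
def lo (a : Fin (N / 2)) : Fin N := ⟨a, by have := a.2; omega⟩

/-- the column blocks -/
def hi (a : Fin (N / 2)) : Fin N := ⟨N / 2 + a, by have := a.2; omega⟩

lemma lo_ne_hi (a b : Fin (N / 2)) : lo a ≠ hi b := by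
  intro h
  have := congrArg Fin.val h
  simp only [lo, hi] at this
  have := a.2
  omega

lemma lo_injective : Function.Injective (lo (N := N)) := by
  intro a b h
  have := congrArg Fin.val h
  simp only [lo] at this
  exact Fin.ext this

lemma hi_injective : Function.Injective (hi (N := N)) := by
  intro a b h
  have := congrArg Fin.val h
  simp only [hi] at this
  exact Fin.ext (by omega)

/-- the vector `(1, ω, ω²)` on a block -/
def vec {K : Type} [CommRing K] (ω : K) (j : Fin N) : Idx N W → K
  | Sum.inl (j', u) => if j' = j then ω ^ (u : ℕ) else 0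
  | Sum.inr _ => 0

/-- the entries of the matrix after the substitution -/
noncomputable def entry {K : Type} [CommRing K] (ω : K) (π : Equiv.Perm (Fin (N / 2) × Fin 3))
    (p : Idx N W × Idx N W) : MvPolynomial (Fin (N / 2) × Fin 3) K :=
  1 + ∑ e, C (vec ω (lo e.1) p.1 * vec ω (hi (π e).1) p.2) * X e

/-- the substitution -/
noncomputable def sub {K : Type} [CommRing K] (ω : K) (π : Equiv.Perm (Fin (N / 2) × Fin 3)) :
    MvPolynomial (Idx N W × Idx N W) K →ₐ[K] MvPolynomial (Fin (N / 2) × Fin 3) K :=
  aeval (entry ω π)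

/-- the factor by which a variable is scaled by the rotation of a block -/
def chi (ω : K) (π : Equiv.Perm (Fin (N / 2) × Fin 3)) (j : Fin N) (e : Fin (N / 2) × Fin 3) : K :=
  (if lo e.1 = j then ω else 1) * (if hi (π e).1 = j then ω else 1)

/-- the scaling of the variables -/
noncomputable def scale (ω : K) (π : Equiv.Perm (Fin (N / 2) × Fin 3)) (j : Fin N) :
    MvPolynomial (Fin (N / 2) × Fin 3) K →ₐ[K] MvPolynomial (Fin (N / 2) × Fin 3) K :=
  aeval fun e => C (chi ω π j e) * X e

lemma vec_rot {ω : K} (hω : ω ^ 3 = 1) (j j' : Fin N) (i : Idx N W) :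
    vec ω j' (localPerm W (Pi.mulSingle j rot) i) = (if j' = j then ω else 1) * vec ω j' i := by
  rcases i with ⟨b, u⟩ | w
  · have e : localPerm W (Pi.mulSingle j rot) (Sum.inl (b, u)) =
        Sum.inl (b, (Pi.mulSingle j rot : Fin N → Equiv.Perm (Fin 3)) b u) := rfl
    rw [e]
    simp only [vec]
    by_cases hb : b = j'
    · subst hb
      by_cases hj : b = j
      · subst hj
        rw [Pi.mulSingle_eq_same]
        simp only [if_true]
        have hrot : ∀ u : Fin 3, ((rot u : Fin 3) : ℕ) = (u + 1) % 3 := by decide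
        rw [hrot, ← pow_succ']
        conv_rhs => rw [← Nat.mod_add_div (u + 1) 3, pow_add, pow_mul, hω, one_pow, mul_one]
      · rw [Pi.mulSingle_eq_of_ne hj]
        simp [hj]
    · simp [hb]
  · have e : localPerm W (Pi.mulSingle j rot) (Sum.inr w : Idx N W) = Sum.inr w := rfl
    rw [e]
    simp [vec]

lemma sub_act {ω : K} (hω : ω ^ 3 = 1) (π : Equiv.Perm (Fin (N / 2) × Fin 3)) (j : Fin N)
    (f : MvPolynomial (Idx N W × Idx N W) K) :
    sub ω π (act K W (Pi.mulSingle j rot) f) = scale ω π j (sub ω π f) := by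
  unfold sub act
  rw [aeval_rename]
  have : (scale ω π j) (aeval (entry ω π) f) =
      aeval (fun p => scale ω π j (entry ω π p)) f := by
    rw [← AlgHom.comp_apply, comp_aeval]
  rw [this]
  congr 2
  funext p
  simp only [Function.comp, entry, map_add, map_one, map_sum]
  congr 1
  refine Finset.sum_congr rfl fun e _ => ?_
  rw [vec_rot hω, vec_rot hω]
  unfold scale
  rw [map_mul (aeval _), aeval_X, aeval_C, MvPolynomial.algebraMap_eq,
    ← mul_assoc (C (vec ω (lo e.1) p.1 * vec ω (hi (π e).1) p.2)), ← C_mul]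
  congr 2
  unfold chi
  ring

/-- the coefficient of a scaled polynomial -/
lemma coeff_scale (ω : K) (π : Equiv.Perm (Fin (N / 2) × Fin 3)) (j : Fin N)
    (P : MvPolynomial (Fin (N / 2) × Fin 3) K) (m : Fin (N / 2) × Fin 3 →₀ ℕ) :
    coeff m (scale ω π j P) = (∏ e, chi ω π j e ^ m e) * coeff m P := by
  classical
  induction P using MvPolynomial.induction_on' with
  | monomial u a =>
    have : scale ω π j (monomial u a) = C (∏ e, chi ω π j e ^ u e) * monomial u a := by
      unfold scale
      rw [aeval_monomial, Finsupp.prod_fintype _ _ (fun _ => pow_zero _)]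
      simp only [mul_pow, Finset.prod_mul_distrib]
      rw [monomial_eq (s := u), Finsupp.prod_fintype _ _ (fun _ => pow_zero _)]
      simp only [map_prod, map_pow, MvPolynomial.algebraMap_eq]
      ring
    rw [this, coeff_C_mul, coeff_monomial]
    split_ifs with h
    · rw [h]
    · simp
  | add p q hp hq =>
    rw [map_add, coeff_add, hp, hq, coeff_add]
    ring

/-- the exponent of the product of the variables in a set -/
noncomputable def ind (S : Finset (Fin (N / 2) × Fin 3)) : Fin (N / 2) × Fin 3 →₀ ℕ :=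
  ∑ e ∈ S, Finsupp.single e 1

open Classical in
lemma ind_apply (S : Finset (Fin (N / 2) × Fin 3)) (e : Fin (N / 2) × Fin 3) :
    ind S e = if e ∈ S then 1 else 0 := by
  unfold ind
  rw [Finsupp.finsetSum_apply]
  simp only [Finsupp.single_apply]
  rw [Finset.sum_ite_eq' S e (fun _ => 1)]

lemma ind_injective : Function.Injective (ind (N := N)) := by
  classical
  intro S T h
  ext e
  have := DFunLike.congr_fun h e
  rw [ind_apply, ind_apply] at this
  by_cases h1 : e ∈ S <;> by_cases h2 : e ∈ T <;> simp [h1, h2] at this ⊢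

lemma ind_split {S : Finset (Fin (N / 2) × Fin 3)} {m₁ m₂ : Fin (N / 2) × Fin 3 →₀ ℕ}
    (h : m₁ + m₂ = ind S) : ∃ S₁ S₂, m₁ = ind S₁ ∧ m₂ = ind S₂ ∧ S₁ ∪ S₂ = S := by
  classical
  have hval : ∀ e, m₁ e + m₂ e = if e ∈ S then 1 else 0 := by
    intro e
    rw [← Finsupp.add_apply, h, ind_apply]
  refine ⟨univ.filter fun e => m₁ e = 1, univ.filter fun e => m₂ e = 1, ?_, ?_, ?_⟩
  · ext e
    rw [ind_apply]
    have := hval e
    simp only [mem_filter, mem_univ, true_and]
    split_ifs at this ⊢ <;> omega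
  · ext e
    rw [ind_apply]
    have := hval e
    simp only [mem_filter, mem_univ, true_and]
    split_ifs at this ⊢ <;> omega
  · ext e
    have := hval e
    simp only [mem_union, mem_filter, mem_univ, true_and]
    split_ifs at this with he <;> simp only [he, iff_true, iff_false] <;> omega

/-- the block `a` is partially covered -/
def Part {M : ℕ} (S : Finset (Fin M × Fin 3)) (a : Fin M) : Prop :=
  (∃ i, (a, i) ∈ S) ∧ ∃ i, (a, i) ∉ S

lemma Part.of_union {M : ℕ} {S S' : Finset (Fin M × Fin 3)} {a : Fin M} [DecidableEq (Fin M × Fin 3)]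
    (h : Part (S ∪ S') a) : Part S a ∨ Part S' a := by
  obtain ⟨⟨i, hi⟩, j, hj⟩ := h
  rw [Finset.mem_union] at hi hj
  push Not at hj
  rcases hi with hi | hi
  · exact Or.inl ⟨⟨i, hi⟩, j, hj.1⟩
  · exact Or.inr ⟨⟨i, hi⟩, j, hj.2⟩

/-- the blocks partially covered by a set of edges are in `T` -/
def BdIn (π : Equiv.Perm (Fin (N / 2) × Fin 3)) (T : Finset (Fin N))
    (S : Finset (Fin (N / 2) × Fin 3)) : Prop :=
  (∀ a, Part S a → lo a ∈ T) ∧ ∀ b, Part (S.map π.toEmbedding) b → hi b ∈ T

lemma BdIn.union {π : Equiv.Perm (Fin (N / 2) × Fin 3)} {T : Finset (Fin N)}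
    {S S' : Finset (Fin (N / 2) × Fin 3)} [DecidableEq (Fin (N / 2) × Fin 3)]
    (h : BdIn π T S) (h' : BdIn π T S') : BdIn π T (S ∪ S') := by
  refine ⟨fun a ha => ?_, fun b hb => ?_⟩
  · rcases ha.of_union with ha | ha
    · exact h.1 a ha
    · exact h'.1 a ha
  · rw [Finset.map_union] at hb
    rcases hb.of_union with hb | hb
    · exact h.2 b hb
    · exact h'.2 b hb

lemma BdIn.mono {π : Equiv.Perm (Fin (N / 2) × Fin 3)} {T T' : Finset (Fin N)}
    {S : Finset (Fin (N / 2) × Fin 3)} (hT : T ⊆ T') (h : BdIn π T S) : BdIn π T' S :=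
  ⟨fun a ha => hT (h.1 a ha), fun b hb => hT (h.2 b hb)⟩

lemma BdIn.card_le {π : Equiv.Perm (Fin (N / 2) × Fin 3)} {T : Finset (Fin N)}
    {S : Finset (Fin (N / 2) × Fin 3)} (h : BdIn π T S) :
    bd S + bd (S.map π.toEmbedding) ≤ #T := by
  classical
  have h1 : bd S = #((univ.filter fun a => Part S a).map ⟨lo, lo_injective⟩) := by
    rw [Finset.card_map]
    unfold bd Part
    congr
  have h2 : bd (S.map π.toEmbedding) =
      #((univ.filter fun a => Part (S.map π.toEmbedding) a).map ⟨hi, hi_injective⟩) := by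
    rw [Finset.card_map]
    unfold bd Part
    congr
  rw [h1, h2, ← Finset.card_union_of_disjoint]
  · apply Finset.card_le_card
    intro j hj
    rcases Finset.mem_union.1 hj with hj | hj
    · obtain ⟨a, ha, rfl⟩ := Finset.mem_map.1 hj
      exact h.1 a (mem_filter.1 ha).2
    · obtain ⟨a, ha, rfl⟩ := Finset.mem_map.1 hj
      exact h.2 a (mem_filter.1 ha).2
  · rw [Finset.disjoint_left]
    intro j hj hj'
    obtain ⟨a, -, rfl⟩ := Finset.mem_map.1 hj
    obtain ⟨b, -, hb⟩ := Finset.mem_map.1 hj'
    exact lo_ne_hi a b hb.symm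

/-- the polynomials without large square-free monomials and with boundaries in `T` -/
noncomputable def alg (K : Type) [Field K] (π : Equiv.Perm (Fin (N / 2) × Fin 3))
    (hπ : ∀ A : Finset (Fin (N / 2) × Fin 3), N / 2 ≤ #A → #A ≤ 2 * (N / 2) →
      N / 2 / 20 ≤ bd A + bd (A.map π.toEmbedding))
    (T : Finset (Fin N)) (hT : #T < N / 2 / 20) :
    Subalgebra K (MvPolynomial (Fin (N / 2) × Fin 3) K) where
  carrier := {P | ∀ S, coeff (ind S) P ≠ 0 → #S < N / 2 ∧ BdIn π T S}
  add_mem' := by
    intro P Q hP hQ S hS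
    by_cases h : coeff (ind S) P = 0
    · exact hQ S fun h' => hS (by rw [coeff_add, h, h', add_zero])
    · exact hP S h
  mul_mem' := by
    classical
    intro P Q hP hQ S hS
    rw [coeff_mul] at hS
    obtain ⟨⟨m₁, m₂⟩, hm, hne⟩ := Finset.exists_ne_zero_of_sum_ne_zero hS
    rw [Finset.HasAntidiagonal.mem_antidiagonal] at hm
    obtain ⟨S₁, S₂, h1, h2, h3⟩ := ind_split hm
    simp only at h1 h2 hne
    rw [h1, h2] at hne
    obtain ⟨c1, b1⟩ := hP S₁ (left_ne_zero_of_mul hne)
    obtain ⟨c2, b2⟩ := hQ S₂ (right_ne_zero_of_mul hne)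
    have hb : BdIn π T S := by
      rw [← h3]
      exact b1.union b2
    refine ⟨?_, hb⟩
    by_contra hlt
    have hc : #S ≤ #S₁ + #S₂ := by
      rw [← h3]; exact Finset.card_union_le _ _
    have := hπ S (by omega) (by omega)
    have := hb.card_le
    omega
  algebraMap_mem' := by
    classical
    intro r S hS
    rw [MvPolynomial.algebraMap_eq, coeff_C] at hS
    have h0 : (0 : Fin (N / 2) × Fin 3 →₀ ℕ) = ind (∅ : Finset (Fin (N / 2) × Fin 3)) := by
      simp [ind]
    have hS0 : S = ∅ := by
      by_contra hne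
      rw [if_neg] at hS
      · exact hS rfl
      · intro h
        rw [h0] at h
        exact hne (ind_injective h).symm
    subst hS0
    refine ⟨by rw [Finset.card_empty]; omega, fun a ha => ?_, fun b hb => ?_⟩
    · obtain ⟨⟨i, hi⟩, -⟩ := ha
      simp at hi
    · obtain ⟨⟨i, hi⟩, -⟩ := hb
      simp at hi

/-! ### Invariance forces boundaries in the support -/

lemma pow_card_ne_one {M : ℕ} {ω : K} (h3 : ω ^ 3 = 1) (h1 : ω ≠ 1)
    {S : Finset (Fin M × Fin 3)} {a : Fin M} (h : Part S a) [DecidableEq (Fin M)] :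
    ω ^ #(S.filter fun e => e.1 = a) ≠ 1 := by
  classical
  obtain ⟨⟨i, hi⟩, j, hj⟩ := h
  have hpos : 0 < #(S.filter fun e => e.1 = a) :=
    Finset.card_pos.2 ⟨(a, i), by simp [hi]⟩
  have hlt : #(S.filter fun e => e.1 = a) < 3 := by
    have hsub : S.filter (fun e => e.1 = a) ⊆ ((univ : Finset (Fin 3)).erase j).image
        fun i => (a, i) := by
      rintro ⟨b, k⟩ hk
      simp only [mem_filter] at hk
      obtain ⟨hk1, rfl⟩ := hk
      refine Finset.mem_image.2 ⟨k, ?_, rfl⟩
      refine Finset.mem_erase.2 ⟨?_, mem_univ _⟩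
      rintro rfl
      exact hj hk1
    have := (Finset.card_le_card hsub).trans Finset.card_image_le
    rw [Finset.card_erase_of_mem (mem_univ _), Finset.card_univ, Fintype.card_fin] at this
    omega
  generalize #(S.filter fun e => e.1 = a) = n at hpos hlt
  intro hn
  apply h1
  have : n = 1 ∨ n = 2 := by omega
  rcases this with rfl | rfl
  · simpa using hn
  · calc ω = ω ^ 3 := by rw [pow_succ, hn, one_mul]
      _ = 1 := h3

lemma bdIn_of_coeff {ω : K} (h3 : ω ^ 3 = 1) (h1 : ω ≠ 1)
    {π : Equiv.Perm (Fin (N / 2) × Fin 3)} {f : MvPolynomial (Idx N W × Idx N W) K}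
    {S : Finset (Fin (N / 2) × Fin 3)} (h : coeff (ind S) (sub ω π f) ≠ 0) :
    BdIn π (fsupp f) S := by
  classical
  have key : ∀ j, j ∉ fsupp f → ∏ e ∈ S, chi ω π j e = 1 := by
    intro j hj
    have hst : act K W (Pi.mulSingle j rot) f = f := by
      by_contra hne
      exact hj (by simp only [fsupp, mem_filter, mem_univ, true_and, mem_fstab]; exact hne)
    have h2 := sub_act h3 π j f
    rw [hst] at h2
    have h4 := coeff_scale ω π j (sub ω π f) (ind S)
    rw [← h2] at h4
    have h5 : (∏ e, chi ω π j e ^ (ind S) e) = 1 := by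
      have : (∏ e, chi ω π j e ^ (ind S) e - 1) * coeff (ind S) (sub ω π f) = 0 := by
        rw [sub_mul, ← h4, one_mul, sub_self]
      rcases mul_eq_zero.1 this with h6 | h6
      · exact sub_eq_zero.1 h6
      · exact absurd h6 h
    rw [← h5]
    simp only [ind_apply]
    rw [← Finset.prod_subset (Finset.subset_univ S)]
    · exact Finset.prod_congr rfl fun e he => by simp [he]
    · intro e _ he
      simp [he]
  refine ⟨fun a ha => ?_, fun b hb => ?_⟩
  · by_contra hj
    apply pow_card_ne_one h3 h1 ha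
    rw [← key _ hj, ← Finset.prod_const, Finset.prod_filter]
    refine Finset.prod_congr rfl fun e _ => ?_
    unfold chi
    rw [if_neg (lo_ne_hi a (π e).1).symm, mul_one]
    simp only [lo_injective.eq_iff]
  · by_contra hj
    apply pow_card_ne_one h3 h1 hb
    rw [← key _ hj, ← Finset.prod_const, Finset.prod_filter, Finset.prod_map]
    refine Finset.prod_congr rfl fun e _ => ?_
    unfold chi
    rw [if_neg (lo_ne_hi e.1 b), one_mul]
    simp only [hi_injective.eq_iff, Equiv.coe_toEmbedding]

end Pool.Agent.LocalArith
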